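import Pool.Agent.H25.TI.M12

/-!
# L1: the length of the level curves, preparations
-/

set_option autoImplicit false
open MeasureTheory Filter Topology Complex Set
open scoped ContDiff ENNReal NNReal
open Pool.Agent.E8helper19.EN (Hy gsq lapl S_IBP S_VAG S_FUB HH VV EE En)

namespace Pool.Agent.H25.TI

noncomputable section

open M10aux

/-- the choice of the angle -/
theorem opt2 {P Q : ℝ} (hP : 0 ≤ P) (hQ : 0 < Q) : ∃ α : ℝ, 0 < α ∧ α ≤ Real.pi / 2 ∧
    (α - Real.sin α * Real.cos α) * (P * √(1 + P / Q)) ≤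
      √3 * (P - Real.cos α ^ 2 * (P + Q)) := by
  have hpi := Real.pi_pos
  set m := P + Q with hm
  have hm0 : 0 < m := by linarith
  set y := Q / m with hy
  have hy0 : 0 < y := div_pos hQ hm0
  have hy1 : y ≤ 1 := by
    rw [hy, div_le_one hm0]
    linarith
  have hPy : P = m * (1 - y) := by
    rw [hy]
    field_simp
    linarith
  have hQy : Q = m * y := by
    rw [hy]
    field_simp
  have hsy : 0 < √y := Real.sqrt_pos.2 hy0
  have hsyy : √y * √y = y := Real.mul_self_sqrt hy0.le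
  have e1 : √(1 + P / Q) = 1 / √y := by
    have : 1 + P / Q = 1 / y := by
      rw [hPy, hQy]
      field_simp
      ring
    rw [this, Real.sqrt_div (by norm_num), Real.sqrt_one]
  have e3 : √(3 * y) = √3 * √y := Real.sqrt_mul (by norm_num) y
  have h3 : 0 < √(3 : ℝ) := Real.sqrt_pos.2 (by norm_num)
  have hs : 0 < √(3 * y) := Real.sqrt_pos.2 (by linarith)
  have hsq : √(3 * y) ^ 2 = 3 * y := Real.sq_sqrt (by linarith)
  by_cases hc : √(3 * y) ≤ Real.pi / 2
  · refine ⟨√(3 * y), hs, hc, ?_⟩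
    set α := √(3 * y) with hα
    have h4 := trig_ineq hs.le hc
    have h5 : 0 ≤ Real.cos α := Real.cos_nonneg_of_neg_pi_div_two_le_of_le (by linarith) hc
    have h7 : Real.sin α ^ 2 = 1 - Real.cos α ^ 2 := by
      rw [← Real.sin_sq_add_cos_sq α]
      ring
    have h8 : y = α ^ 2 / 3 := by
      rw [hsq]
      ring
    have h9 : (1 - y) * (α - Real.sin α * Real.cos α) ≤ α * (Real.sin α ^ 2 - y) := by
      have : α * (Real.sin α ^ 2 - y) - (1 - y) * (α - Real.sin α * Real.cos α) =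
          Real.cos α * (Real.sin α - α * Real.cos α - α ^ 2 / 3 * Real.sin α) := by
        rw [h7, h8]
        ring
      have h10 : 0 ≤ Real.cos α * (Real.sin α - α * Real.cos α - α ^ 2 / 3 * Real.sin α) :=
        mul_nonneg h5 (by linarith)
      linarith
    have e2 : P - Real.cos α ^ 2 * m = m * (Real.sin α ^ 2 - y) := by
      rw [hPy, h7]
      ring
    rw [e2, e1]
    have e4 : (α - Real.sin α * Real.cos α) * (P * (1 / √y)) =
        m * ((1 - y) * (α - Real.sin α * Real.cos α)) / √y := by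
      rw [hPy]
      ring
    rw [e4, div_le_iff₀ hsy]
    have e5 : √3 * (m * (Real.sin α ^ 2 - y)) * √y = m * (α * (Real.sin α ^ 2 - y)) := by
      rw [e3]
      ring
    rw [e5]
    exact mul_le_mul_of_nonneg_left h9 hm0.le
  · push Not at hc
    refine ⟨Real.pi / 2, by positivity, le_rfl, ?_⟩
    rw [Real.cos_pi_div_two, Real.sin_pi_div_two, e1]
    have e4 : (Real.pi / 2 - 1 * 0) * (P * (1 / √y)) = P * (Real.pi / 2) / √y := by ring
    rw [e4, div_le_iff₀ hsy]
    have e5 : √3 * (P - 0 ^ 2 * m) * √y = P * √(3 * y) := by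
      rw [e3]
      ring
    rw [e5]
    exact mul_le_mul_of_nonneg_left hc.le hP

variable {ι : Type} [Fintype ι] {Ω : ι → Set ℂ} {ρ φ : ι → ℂ → ℝ} {lam : ℕ → ℝ}
  {u : ι → ℕ → ℂ → ℝ} {a b : ℝ}

theorem TT_nonneg (H : ∀ i, Hy (Ω i) (ρ i) lam (u i) (φ i)) (a b : ℝ) (n : ℕ) :
    0 ≤ TT ρ φ lam u a b n := by
  unfold TT
  refine mul_nonneg (by positivity) (Finset.sum_nonneg fun i _ => integral_nonneg fun z => ?_)
  exact mul_nonneg ((H i).φ0 z) (mul_nonneg (Real.sqrt_nonneg _) (bgr_nonneg _ _ _ _))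

theorem TT_add (H : ∀ i, Hy (Ω i) (ρ i) lam (u i) (φ i)) {a b c : ℝ} (hab : a ≤ b) (hbc : b ≤ c)
    (n : ℕ) : TT ρ φ lam u a b n + TT ρ φ lam u b c n ≤ TT ρ φ lam u a c n := by
  unfold TT
  rw [← mul_add, ← Finset.sum_add_distrib]
  refine mul_le_mul_of_nonneg_left (Finset.sum_le_sum fun i _ => ?_) (by positivity)
  rw [← integral_add (Hy_ibg (H i) n a b) (Hy_ibg (H i) n b c)]
  refine integral_mono ((Hy_ibg (H i) n a b).add (Hy_ibg (H i) n b c)) (Hy_ibg (H i) n a c)
    fun z => ?_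
  simp only
  rw [← mul_add, ← mul_add]
  refine mul_le_mul_of_nonneg_left (mul_le_mul_of_nonneg_left ?_ (Real.sqrt_nonneg _))
    ((H i).φ0 z)
  have g0 := gn_nonneg (u i n) z
  unfold bgr
  by_cases h1 : a < u i n z ∧ u i n z < b
  · rw [if_pos h1, if_neg (fun h => by linarith [h.1, h1.2]),
      if_pos ⟨h1.1, h1.2.trans_le hbc⟩]
    linarith
  · rw [if_neg h1]
    by_cases h2 : b < u i n z ∧ u i n z < c
    · rw [if_pos h2, if_pos ⟨hab.trans_lt h2.1, h2.2⟩]
      linarith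
    · rw [if_neg h2]
      split_ifs
      · linarith
      · linarith

/-- the inequality at an angle -/
theorem lev_ineq [Nonempty ι] (h1 : S_IBP) (hv : S_VAG) (hf : S_FUB) (h2 : M2) (h5 : M5)
    (h6 : M6) (H : ∀ i, Hy (Ω i) (ρ i) lam (u i) (φ i)) {ν : Measure ℝ} (hν : IsFiniteMeasure ν)
    (hlim : ∀ g : ℝ → ℝ, Continuous g → HasCompactSupport g →
      Tendsto (fun n => VV ρ φ u n g) atTop (𝓝 (∫ x, g x ∂ν))) {a b α : ℝ}
    (ha : 0 < a) (hab : a < b) (hα : 0 < α) (hα' : α ≤ Real.pi / 2) {η : ℝ} (hη : 0 < η) :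
    ∀ᶠ n in atTop, ∫ x, (cut a b x - a) ∂ν ≤
      Real.cos α ^ 2 * (∫ x, x * Real.log (cut a b x / a) ∂ν) + k0 α * TT ρ φ lam u a b n + η := by
  obtain ⟨-, -, -, m4, -⟩ := Pool.Agent.E8helper19.EN.fam_main h1 hv hf H hν hlim
  have l1 := m4 (fun x => cut a b x - a) ((cut_cont a b).sub continuous_const)
    ⟨b - a, cut_bd hab⟩
  have l2 := m4 (fun x => x * Real.log (cut a b x / a)) (continuous_id.mul (log_cont ha))
    ⟨Real.log (b / a), log_bd ha hab⟩
  set A := ∫ x, (cut a b x - a) ∂ν with hA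
  set B := ∫ x, x * Real.log (cut a b x / a) ∂ν with hB
  have hA0 : 0 ≤ A := integral_nonneg fun x => sub_nonneg.2 cut_ge
  set ε := min (1 / 2) (η / (4 * (A + 1))) with hε
  have e0 : 0 < ε := lt_min (by norm_num) (by positivity)
  have e1 : ε < 1 := lt_of_le_of_lt (min_le_left _ _) (by norm_num)
  have e2 : ε * A ≤ η / 4 := by
    have h7 : ε * (4 * (A + 1)) ≤ η := by
      have := min_le_right (1 / 2) (η / (4 * (A + 1)))
      rw [← hε, le_div_iff₀ (by positivity)] at this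
      exact this
    nlinarith
  have hη4 : 0 < η / 4 := by linarith
  have hc1 : Real.cos α ^ 2 ≤ 1 := Real.cos_sq_le_one α
  have hc0 : 0 ≤ Real.cos α ^ 2 := sq_nonneg _
  filter_upwards [fam_ineq h1 h2 h5 h6 H e0 e1 ha hab hα hα' hη4,
    l1.eventually (lt_mem_nhds (show A - η / 4 < A by linarith)),
    l2.eventually (gt_mem_nhds (show B < B + η / 4 by linarith))] with n hn hn1 hn2
  set a' := VV ρ φ u n (fun x => cut a b x - a)
  set b' := VV ρ φ u n (fun x => x * Real.log (cut a b x / a))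
  have h11 : 1 - ε ≤ (1 + ε)⁻¹ := by
    rw [le_inv_comm₀ (by linarith) (by linarith), ← one_div, le_div_iff₀ (by linarith)]
    nlinarith
  have h12 : (1 + ε)⁻¹ ≤ 1 := inv_le_one_of_one_le₀ (by linarith)
  have h13 : 0 ≤ (1 + ε)⁻¹ := by positivity
  have h14 : (1 + ε)⁻¹ * (A - η / 4) ≤ (1 + ε)⁻¹ * a' := mul_le_mul_of_nonneg_left hn1.le h13
  have h15 : Real.cos α ^ 2 * b' ≤ Real.cos α ^ 2 * (B + η / 4) :=
    mul_le_mul_of_nonneg_left hn2.le hc0
  nlinarith

/-- **one interval of heights** -/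
theorem seg [Nonempty ι] (h1 : S_IBP) (hv : S_VAG) (hf : S_FUB) (h2 : M2) (h5 : M5)
    (h6 : M6) (H' : ∀ i, Hy (Ω i) (ρ i) lam (u i) (φ i)) {ν : Measure ℝ} (hν : IsFiniteMeasure ν)
    (hlim : ∀ g : ℝ → ℝ, Continuous g → HasCompactSupport g →
      Tendsto (fun n => VV ρ φ u n g) atTop (𝓝 (∫ x, g x ∂ν)))
    (ix : Integrable (fun x => x) ν) {s s' : ℝ} (hs : 0 < s) (hss : s < s') {η : ℝ}
    (hη : 0 < η) :
    ∀ᶠ n in atTop, (s' - s) * (T ν s' * √(1 + s * T ν s' / H ν s)) ≤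
      √3 * (2 + 2 / Real.pi) * TT ρ φ lam u s s' n + η := by
  rcases (T_nonneg ν s').eq_or_lt with h0 | hT
  · refine Eventually.of_forall fun n => ?_
    rw [← h0]
    have := TT_nonneg H' s s' n
    have : 0 ≤ √3 * (2 + 2 / Real.pi) * TT ρ φ lam u s s' n := by positivity
    simp only [zero_mul, mul_zero]
    linarith
  have hT0 : 0 < T ν s := hT.trans_le (T_anti ν hss.le)
  have hH := H_pos ix hT0
  set δ := s' - s with hδ
  have hδ0 : 0 < δ := by linarith
  obtain ⟨α, hα, hα', ho⟩ := opt2 (P := δ * T ν s') (Q := δ * (H ν s / s)) (by positivity)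
    (by positivity)
  have hsc : 0 < α - Real.sin α * Real.cos α := by
    have := sin_mul_cos_lt hα
    linarith
  have h3 : 0 < √(3 : ℝ) := Real.sqrt_pos.2 (by norm_num)
  set η' := η * (α - Real.sin α * Real.cos α) / √3 with hη'
  have hη0 : 0 < η' := by positivity
  have e1 : δ * T ν s' / (δ * (H ν s / s)) = s * T ν s' / H ν s := by
    field_simp
  rw [e1] at ho
  filter_upwards [lev_ineq h1 hv hf h2 h5 h6 H' hν hlim hs hss hα hα' hη0] with n hn
  rw [fub1 hν hss, fub2 hν ix hs hss] at hn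
  -- the integrals
  have iT : IntervalIntegrable (T ν) volume s s' := T_int s s'
  have iHd : IntervalIntegrable (fun x => HH ν x / x) volume s s' := HHd_int ix hs hss.le
  have key : δ * T ν s' - Real.cos α ^ 2 * (δ * T ν s' + δ * (H ν s / s)) ≤
      (∫ x in s..s', T ν x) - Real.cos α ^ 2 * ∫ x in s..s', HH ν x / x := by
    rw [← intervalIntegral.integral_const_mul, ← intervalIntegral.integral_sub iT
      (iHd.const_mul _)]
    have e2 : δ * T ν s' - Real.cos α ^ 2 * (δ * T ν s' + δ * (H ν s / s)) =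
        ∫ _ in s..s', (T ν s' - Real.cos α ^ 2 * (T ν s' + H ν s / s)) := by
      rw [intervalIntegral.integral_const, smul_eq_mul]
      ring
    rw [e2]
    refine intervalIntegral.integral_mono_on hss.le (by simp) (iT.sub (iHd.const_mul _))
      fun x hx => ?_
    have hx0 : 0 < x := hs.trans_le hx.1
    have f1 : T ν s' ≤ T ν x := T_anti ν hx.2
    have f2 : H ν x ≤ H ν s := H_anti ix hx.1
    have f3 : HH ν x / x = T ν x + H ν x / x := by
      rw [HH_eq ix]
      field_simp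
    have f4 : H ν x / x ≤ H ν s / s := div_le_div₀ hH.le f2 hs hx.1
    have f5 : Real.cos α ^ 2 ≤ 1 := Real.cos_sq_le_one α
    have f6 : 0 ≤ Real.cos α ^ 2 := sq_nonneg _
    rw [f3]
    nlinarith [mul_nonneg (sub_nonneg.2 f5) (sub_nonneg.2 f1), mul_nonneg f6 (sub_nonneg.2 f4)]
  have hn' : (∫ x in s..s', T ν x) ≤ Real.cos α ^ 2 * (∫ x in s..s', HH ν x / x) +
      k0 α * TT ρ φ lam u s s' n + η' := hn
  have m1 : (α - Real.sin α * Real.cos α) * (δ * T ν s' * √(1 + s * T ν s' / H ν s)) ≤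
      √3 * (k0 α * TT ρ φ lam u s s' n + η') := by
    refine ho.trans (mul_le_mul_of_nonneg_left ?_ h3.le)
    linarith
  have m2 : √3 * (k0 α * TT ρ φ lam u s s' n + η') = (α - Real.sin α * Real.cos α) *
      (√3 * (2 + 2 / Real.pi) * TT ρ φ lam u s s' n + η) := by
    rw [hη']
    unfold k0
    field_simp
  rw [m2] at m1
  have := le_of_mul_le_mul_left m1 hsc
  linarith

end

end Pool.Agent.H25.TI
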