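import Pool.Agent.H25.TI.L1

/-!
# L2: the length of the level curves, the inequality
-/

set_option autoImplicit false
open MeasureTheory Filter Topology Complex Set
open scoped ContDiff ENNReal NNReal
open Pool.Agent.E8helper19.EN (Hy gsq lapl S_IBP S_VAG S_FUB HH VV EE En)

namespace Pool.Agent.H25.TI

noncomputable section

open M10aux

/-- right continuity of the tail -/
theorem T_right (ν : Measure ℝ) [IsFiniteMeasure ν] (x : ℝ) :
    Tendsto (T ν) (𝓝[>] x) (𝓝 (T ν x)) := by
  have h := tendsto_measure_biInter_gt (μ := ν) (s := fun r => Ioc x r) (a := x)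
    (fun r _ => measurableSet_Ioc.nullMeasurableSet)
    (fun i j _ hij => Ioc_subset_Ioc_right hij) ⟨x + 1, by simp, measure_ne_top _ _⟩
  have e : (⋂ r > x, Ioc x r) = ∅ := by
    ext y
    simp only [gt_iff_lt, mem_iInter, mem_Ioc, mem_empty_iff_false, iff_false, not_forall]
    by_cases hy : x < y
    · exact ⟨(x + y) / 2, by linarith, fun h => by linarith [h.2]⟩
    · exact ⟨x + 1, by linarith, fun h => hy h.1⟩
  rw [e, measure_empty] at h
  have h2 : Tendsto (fun r => ν.real (Ioc x r)) (𝓝[>] x) (𝓝 0) := by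
    have h4 := (ENNReal.tendsto_toReal ENNReal.zero_ne_top).comp h
    rw [ENNReal.toReal_zero] at h4
    exact h4
  have h3 := h2.const_sub (T ν x)
  rw [sub_zero] at h3
  refine h3.congr' ?_
  filter_upwards [self_mem_nhdsWithin] with y hy
  rw [T_sub ν (le_of_lt hy)]
  ring

/-- the weight of the heights -/
def FF (ν : Measure ℝ) (s : ℝ) : ℝ := T ν s * √(1 + s * T ν s / H ν s)

theorem FF_nonneg (ν : Measure ℝ) [IsFiniteMeasure ν] (s : ℝ) : 0 ≤ FF ν s :=
  mul_nonneg (T_nonneg ν s) (Real.sqrt_nonneg _)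

theorem FF_meas {ν : Measure ℝ} [IsFiniteMeasure ν] (ix : Integrable (fun x => x) ν) :
    Measurable (FF ν) := by
  have h1 : Measurable (T ν) := (T_anti ν).measurable
  have h2 : Measurable (H ν) := (H_anti ix).measurable
  unfold FF
  exact h1.mul ((((measurable_id.mul h1).div h2).const_add 1).sqrt)

variable {ι : Type} [Fintype ι] {Ω : ι → Set ℂ} {ρ φ : ι → ℂ → ℝ} {lam : ℕ → ℝ}
  {u : ι → ℕ → ℂ → ℝ} {a b : ℝ}

/-- an upper bound of the lengths -/
theorem TT_bdd [Nonempty ι] (h1 : S_IBP) (hv : S_VAG) (hf : S_FUB)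
    (H' : ∀ i, Hy (Ω i) (ρ i) lam (u i) (φ i)) {ν : Measure ℝ} (hν : IsFiniteMeasure ν)
    (hlim : ∀ g : ℝ → ℝ, Continuous g → HasCompactSupport g →
      Tendsto (fun n => VV ρ φ u n g) atTop (𝓝 (∫ x, g x ∂ν))) (ha : 0 ≤ a) (hab : a < b) :
    ∃ C : ℝ, ∀ᶠ n in atTop, TT ρ φ lam u a b n ≤ C := by
  obtain ⟨-, -, -, -, m5⟩ := Pool.Agent.E8helper19.EN.fam_main h1 hv hf H' hν hlim
  have Hll : Tendsto lam atTop atTop := (H' (Classical.arbitrary ι)).ll
  let B : ContDiffBump (0 : ℝ) := ⟨b, b + 1, by linarith, by linarith⟩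
  have g1 : ∀ x, a < x → x < b → 1 ≤ B x := fun x hx hx' => by
    rw [B.one_of_mem_closedBall]
    rw [mem_closedBall_zero_iff, Real.norm_eq_abs, abs_of_nonneg (ha.trans hx.le)]
    exact hx'.le
  have l1 := hlim B B.continuous B.hasCompactSupport
  have l2 := m5 B B.continuous B.hasCompactSupport
  have l3 := (l1.const_mul (1 / 2)).add (l2.const_mul (2 * 1)⁻¹)
  refine ⟨1 / 2 * (∫ x, B x ∂ν) + (2 * 1)⁻¹ * (∫ t, B t * HH ν t) + 1, ?_⟩
  filter_upwards [l3.eventually (gt_mem_nhds (lt_add_one _)), Hll.eventually_gt_atTop 0]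
    with n hn hl
  exact (TT_le H' B.continuous (fun _ => B.nonneg) g1 one_pos hl).trans hn.le

/-- **the length of the level curves** -/
theorem lengths [Nonempty ι] (h1 : S_IBP) (hv : S_VAG) (hf : S_FUB) (h2 : M2) (h5 : M5)
    (h6 : M6) (H' : ∀ i, Hy (Ω i) (ρ i) lam (u i) (φ i)) {ν : Measure ℝ} (hν : IsFiniteMeasure ν)
    (hlim : ∀ g : ℝ → ℝ, Continuous g → HasCompactSupport g →
      Tendsto (fun n => VV ρ φ u n g) atTop (𝓝 (∫ x, g x ∂ν)))
    (ix : Integrable (fun x => x) ν) (ha : 0 ≤ a) (hab : a < b) :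
    IntervalIntegrable (FF ν) volume a b ∧
    ∀ η : ℝ, 0 < η → ∀ᶠ n in atTop, ∫ s in a..b, FF ν s ≤
      √3 * (2 + 2 / Real.pi) * TT ρ φ lam u a b n + η := by
  obtain ⟨C, hC⟩ := TT_bdd h1 hv hf H' hν hlim ha hab
  set K := √3 * (2 + 2 / Real.pi) with hK
  have hK0 : 0 < K := by positivity
  -- the liminf
  set f : ℝ → ℕ → ℝ := fun x n => TT ρ φ lam u a x n with hf'
  have f0 : ∀ x n, 0 ≤ f x n := fun x n => TT_nonneg H' a x n
  have fle : ∀ x, x ≤ b → a ≤ x → ∀ n, f x n ≤ f b n := fun x hx hax n => by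
    have := TT_add H' (a := a) (b := x) (c := b) hax hx n
    have := TT_nonneg H' x b n
    simp only [hf']
    linarith
  have bb : ∀ x, IsBoundedUnder (· ≥ ·) atTop (f x) := fun x =>
    isBoundedUnder_of ⟨0, fun n => f0 x n⟩
  have bc : ∀ x, a ≤ x → x ≤ b → IsCoboundedUnder (· ≥ ·) atTop (f x) := fun x hax hx => by
    have h : IsBoundedUnder (· ≤ ·) atTop (f x) := by
      refine ⟨C, ?_⟩
      rw [eventually_map]
      filter_upwards [hC] with n hn
      exact (fle x hx hax n).trans hn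
    exact h.isCoboundedUnder_ge
  set Λ : ℝ → ℝ := fun x => liminf (f x) atTop with hΛ
  have mono : MonotoneOn Λ (Icc a b) := by
    intro x hx y hy hxy
    refine liminf_le_liminf (Eventually.of_forall fun n => ?_) (bb x) (bc y hy.1 hy.2)
    have := TT_add H' (a := a) (b := x) (c := y) hx.1 hxy n
    have := TT_nonneg H' x y n
    simp only [hf']
    linarith
  have sup : ∀ x y, a ≤ x → 0 < x → x < y → y ≤ b →
      Λ x + (y - x) * (T ν y * √(1 + x * T ν y / H ν x)) / K ≤ Λ y := by
    intro x y hax hx0 hxy hyb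
    refine le_of_forall_pos_le_add fun η hη => ?_
    have hη' : 0 < K * (η / 2) := by positivity
    have e1 : Λ x - η / 2 < liminf (f x) atTop := by
      have : Λ x = liminf (f x) atTop := rfl
      linarith
    have ev1 := eventually_lt_of_lt_liminf e1 (bb x)
    have ev2 := seg h1 hv hf h2 h5 h6 H' hν hlim ix hx0 hxy hη'
    have key : Λ x + (y - x) * (T ν y * √(1 + x * T ν y / H ν x)) / K - η ≤
        liminf (f y) atTop := by
      refine le_liminf_of_le (bc y (hax.trans hxy.le) hyb) ?_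
      filter_upwards [ev1, ev2] with n hn1 hn2
      have h3 := TT_add H' (a := a) (b := x) (c := y) hax hxy.le n
      have h4 : (y - x) * (T ν y * √(1 + x * T ν y / H ν x)) / K ≤
          TT ρ φ lam u x y n + η / 2 := by
        rw [div_le_iff₀ hK0]
        refine hn2.trans (le_of_eq ?_)
        ring
      simp only [hf'] at hn1 ⊢
      linarith
    have : Λ y = liminf (f y) atTop := rfl
    linarith
  -- the derivative
  have hab' := hab.le
  have mono' : MonotoneOn Λ (uIcc a b) := by rwa [uIcc_of_le hab']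
  have iD := mono'.intervalIntegrable_deriv
  have dD := mono'.intervalIntegral_deriv_mem_uIcc
  have mab : Λ a ≤ Λ b := mono (left_mem_Icc.2 hab') (right_mem_Icc.2 hab') hab'
  rw [uIcc_of_le (by linarith)] at dD
  have Λa : 0 ≤ Λ a := by
    refine le_liminf_of_le (bc a le_rfl hab') (Eventually.of_forall fun n => f0 a n)
  have ae1 : ∀ᵐ x ∂(volume.restrict (Ioc a b)), FF ν x / K ≤ deriv Λ x := by
    have h3 : ∀ᵐ x : ℝ, x ∈ Icc a b → DifferentiableWithinAt ℝ Λ (Icc a b) x :=
      mono.ae_differentiableWithinAt_of_mem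
    have h4 : ∀ᵐ x : ℝ, x ≠ b := by
      rw [ae_iff]
      simp
    rw [ae_restrict_iff' measurableSet_Ioc]
    filter_upwards [h3, h4] with x h5 h6 hx
    have hxb : x < b := lt_of_le_of_ne hx.2 h6
    have hx0 : 0 < x := ha.trans_lt hx.1
    have hd : DifferentiableAt ℝ Λ x :=
      (h5 ⟨hx.1.le, hx.2⟩).differentiableAt (Icc_mem_nhds hx.1 hxb)
    have sl := (hasDerivAt_iff_tendsto_slope.1 hd.hasDerivAt).mono_left
      (nhdsWithin_mono x (show Ioi x ⊆ {x}ᶜ from fun y hy => ne_of_gt hy))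
    have lc : Tendsto (fun y => T ν y * √(1 + x * T ν y / H ν x) / K) (𝓝[>] x)
        (𝓝 (FF ν x / K)) := by
      have t := T_right ν x
      have t2 := ((((t.const_mul x).div_const (H ν x)).const_add 1)).sqrt
      exact (t.mul t2).div_const K
    refine le_of_tendsto_of_tendsto lc sl ?_
    filter_upwards [Ioo_mem_nhdsGT hxb] with y hy
    have h7 := sup x y hx.1.le hx0 hy.1 hy.2.le
    rw [slope_def_field, le_div_iff₀ (by linarith [hy.1])]
    have h8 : T ν y * √(1 + x * T ν y / H ν x) / K * (y - x) =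
        (y - x) * (T ν y * √(1 + x * T ν y / H ν x)) / K := by ring
    rw [h8]
    linarith
  have iF : IntervalIntegrable (fun x => FF ν x / K) volume a b := by
    rw [intervalIntegrable_iff_integrableOn_Ioc_of_le hab'] at iD ⊢
    refine Integrable.mono' iD ((FF_meas ix).div_const K).aestronglyMeasurable ?_
    filter_upwards [ae1] with x hx
    rw [Real.norm_eq_abs, abs_of_nonneg (div_nonneg (FF_nonneg ν x) hK0.le)]
    exact hx
  have iF2 : IntervalIntegrable (FF ν) volume a b := by
    have := iF.const_mul K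
    refine this.congr ?_
    intro x _
    simp only
    field_simp
  refine ⟨iF2, fun η hη => ?_⟩
  have m1 : ∫ x in a..b, FF ν x / K ≤ ∫ x in a..b, deriv Λ x := by
    rw [intervalIntegral.integral_of_le hab', intervalIntegral.integral_of_le hab']
    rw [intervalIntegrable_iff_integrableOn_Ioc_of_le hab'] at iF iD
    exact integral_mono_ae iF iD ae1
  have m2 : (∫ x in a..b, FF ν x) / K ≤ Λ b := by
    rw [← intervalIntegral.integral_div]
    linarith [dD.2]
  have m3 : (∫ x in a..b, FF ν x) / K - η / K < liminf (f b) atTop := by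
    have : Λ b = liminf (f b) atTop := rfl
    have : 0 < η / K := by positivity
    linarith
  filter_upwards [eventually_lt_of_lt_liminf m3 (bb b)] with n hn
  rw [← sub_div, div_lt_iff₀ hK0] at hn
  simp only [hf'] at hn
  linarith

end

end Pool.Agent.H25.TI
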