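import Pool.Agent.H25.TI.L2

/-!
# L3: the length of the level curves, both signs
-/

set_option autoImplicit false
open MeasureTheory Filter Topology Complex Set
open scoped ContDiff ENNReal NNReal
open Pool.Agent.E8helper19.EN (Hy gsq lapl S_IBP S_VAG S_FUB HH VV EE En)

namespace Pool.Agent.H25.TI

noncomputable section

variable {ι : Type} [Fintype ι] {Ω : ι → Set ℂ} {ρ φ : ι → ℂ → ℝ} {lam : ℕ → ℝ}
  {u : ι → ℕ → ℂ → ℝ}

theorem gn_neg (f : ℂ → ℝ) (z : ℂ) : gn (fun w => -f w) z = gn f z := by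
  have e : ∀ v : ℂ, fderiv ℝ (fun w => -f w) z v = -(fderiv ℝ f z v) := by
    intro v
    rw [fderiv_fun_neg]
    rfl
  unfold gn Pool.Agent.Q73.NL.dx Pool.Agent.Q73.NL.dy
  rw [e, e, neg_sq, neg_sq]

theorem bgr_neg (f : ℂ → ℝ) (a b : ℝ) (z : ℂ) :
    bgr (fun w => -f w) a b z = bgr f (-b) (-a) z := by
  unfold bgr
  rw [gn_neg]
  by_cases h : a < -f z ∧ -f z < b
  · rw [if_pos h, if_pos ⟨by linarith [h.2], by linarith [h.1]⟩]
  · rw [if_neg h, if_neg (fun h' => h ⟨by linarith [h'.2], by linarith [h'.1]⟩)]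

theorem TT_neg (a b : ℝ) (n : ℕ) :
    TT ρ φ lam (fun i n z => -u i n z) a b n = TT ρ φ lam u (-b) (-a) n := by
  unfold TT
  congr 1
  refine Finset.sum_congr rfl fun i _ => integral_congr_ae (Eventually.of_forall fun z => ?_)
  simp only
  rw [bgr_neg]

/-- the conclusion -/
def CL (ν : Measure ℝ) (L : ℕ → ℝ → ℝ → ℝ) : Prop := ∀ a b : ℝ, 0 ≤ a → a < b →
  IntervalIntegrable (fun s => ν.real (Ioi s) *
    √(1 + s * ν.real (Ioi s) / ∫ x, max (x - s) 0 ∂ν)) volume a b ∧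
  ∀ ε : ℝ, 0 < ε → ∀ᶠ n in atTop, ∫ s in a..b, ν.real (Ioi s) *
    √(1 + s * ν.real (Ioi s) / ∫ x, max (x - s) 0 ∂ν) ≤
      2 * √3 * (1 + 1 / Real.pi) * L n a b + ε

theorem len_of [Nonempty ι] (h1 : S_IBP) (hv : S_VAG) (hf : S_FUB) (h2 : M2) (h5 : M5)
    (h6 : M6) (H : ∀ i, Hy (Ω i) (ρ i) lam (u i) (φ i)) {ν : Measure ℝ} (hν : IsFiniteMeasure ν)
    (hlim : ∀ g : ℝ → ℝ, Continuous g → HasCompactSupport g →
      Tendsto (fun n => VV ρ φ u n g) atTop (𝓝 (∫ x, g x ∂ν))) :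
    CL ν (fun n a b => TT ρ φ lam u a b n) := by
  obtain ⟨ix, -⟩ := tail h1 hv hf h2 h5 h6 H hν hlim
  intro a b ha hab
  obtain ⟨i1, i2⟩ := lengths h1 hv hf h2 h5 h6 H hν hlim ix ha hab
  refine ⟨i1, fun ε hε => (i2 ε hε).mono fun n hn => hn.trans (le_of_eq ?_)⟩
  ring

theorem len_both [Nonempty ι] (h1 : S_IBP) (hv : S_VAG) (hf : S_FUB) (h2 : M2) (h5 : M5)
    (h6 : M6) (H : ∀ i, Hy (Ω i) (ρ i) lam (u i) (φ i)) {ν : Measure ℝ} (hν : IsFiniteMeasure ν)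
    (hlim : ∀ g : ℝ → ℝ, Continuous g → HasCompactSupport g →
      Tendsto (fun n => VV ρ φ u n g) atTop (𝓝 (∫ x, g x ∂ν))) :
    CL ν (fun n a b => TT ρ φ lam u a b n) ∧
      CL (ν.map fun x => -x) (fun n a b => TT ρ φ lam u (-b) (-a) n) := by
  refine ⟨len_of h1 hv hf h2 h5 h6 H hν hlim, ?_⟩
  have hν' : IsFiniteMeasure (ν.map fun x => -x) := by infer_instance
  have key := len_of h1 hv hf h2 h5 h6 (u := fun i n z => -u i n z) (fun i => Hy_neg (H i)) hν' (by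
    intro g hg hgc
    have hc : HasCompactSupport (fun x => g (-x)) := hgc.comp_homeomorph (Homeomorph.neg ℝ)
    have h := hlim (fun x => g (-x)) (hg.comp continuous_neg) hc
    have e : ∫ x, g x ∂(ν.map fun x => -x) = ∫ x, g (-x) ∂ν :=
      integral_map (by fun_prop) hg.aestronglyMeasurable
    rw [e]
    exact h)
  have e : (fun n a b => TT ρ φ lam (fun i n z => -u i n z) a b n) =
      fun n a b => TT ρ φ lam u (-b) (-a) n := by
    funext n a b
    exact TT_neg a b n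
  rw [e] at key
  exact key

end

end Pool.Agent.H25.TI
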