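import Pool.Agent.H25.TI.Stm
import Pool.Graph.R_pool_sql_team_seeded_3997aac3.Q73.NL.T7

/-!
# M1: the energy inequality with a weight
-/

set_option autoImplicit false
open MeasureTheory Filter Topology Complex Set
open scoped ContDiff ENNReal NNReal
open Pool.Agent.Q73.NL (dx dy lap Sol int_der)

namespace Pool.Agent.H25.TI

/-- derivative along a line -/
theorem lineDer {F : ℂ → ℝ} {F' : ℂ →L[ℝ] ℝ} {z : ℂ} (v : ℂ) (hF : HasFDerivAt F F' z) :
    HasDerivAt (fun s : ℝ => F (z + s • v)) (F' v) 0 := by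
  have h1 : HasFDerivAt F F' (z + (0 : ℝ) • v) := by simpa using hF
  have h2 : HasDerivAt (fun s : ℝ => z + s • v) v 0 := by
    have := ((hasDerivAt_id (0 : ℝ)).smul_const v).const_add z
    simpa using this
  exact h1.comp_hasDerivAt (0 : ℝ) h2

theorem m1 : M1 := by
  intro Ω V u φ Φ e hΩ hs he hV hφ hφc hsub hφ0 hΦ hΦ0
  -- zero of `Φ`
  have hnear : ∀ z ∈ Ω, u z < e → Φ =ᶠ[𝓝 z] fun _ => 0 := by
    intro z hz hu
    have hc : ContinuousAt u z := (hs.smooth.contDiffAt (hΩ.mem_nhds hz)).continuousAt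
    filter_upwards [hΩ.mem_nhds hz, hc.eventually_lt continuousAt_const hu] with w hw hw'
    exact hΦ0 w hw hw'
  have hΦa : ∀ z ∈ Ω, ContDiffAt ℝ ∞ Φ z := fun z hz => hΦ.contDiffAt (hΩ.mem_nhds hz)
  have hua : ∀ z ∈ Ω, ContDiffAt ℝ ∞ u z := fun z hz => hs.smooth.contDiffAt (hΩ.mem_nhds hz)
  -- the quotient
  have hW : ∀ z ∈ Ω, ContDiffAt ℝ ∞ (fun w => Φ w ^ 2 / u w) z := by
    intro z hz
    by_cases hu : u z < e
    · have h1 : (fun w => Φ w ^ 2 / u w) =ᶠ[𝓝 z] fun _ => 0 := by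
        filter_upwards [hnear z hz hu] with w hw
        rw [hw]
        simp
      exact contDiffAt_const.congr_of_eventuallyEq h1
    · exact ((hΦa z hz).pow 2).div (hua z hz) (by linarith [not_lt.1 hu])
  have hX : ∀ v : ℂ, ContDiff ℝ 1 (fun z => φ z * (Φ z ^ 2 / u z * fderiv ℝ u z v)) := by
    intro v
    rw [contDiff_iff_contDiffAt]
    intro z
    by_cases hz : z ∈ tsupport φ
    · have hzΩ := hsub hz
      have hu1 : ContDiffAt ℝ 1 (fderiv ℝ u) z := (hua z hzΩ).fderiv_right (by norm_cast)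
      exact (hφ.contDiffAt.of_le (by norm_cast)).mul
        (((hW z hzΩ).of_le (by norm_cast)).mul (hu1.clm_apply contDiffAt_const))
    · have h1 : (fun z => φ z * (Φ z ^ 2 / u z * fderiv ℝ u z v)) =ᶠ[𝓝 z] fun _ => 0 := by
        filter_upwards [notMem_tsupport_iff_eventuallyEq.1 hz] with w hw
        rw [hw]
        simp
      exact contDiffAt_const.congr_of_eventuallyEq h1
  have hXc : ∀ v : ℂ, HasCompactSupport (fun z => φ z * (Φ z ^ 2 / u z * fderiv ℝ u z v)) :=
    fun v => hφc.mul_right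
  set X1 : ℂ → ℝ := fun z => φ z * (Φ z ^ 2 / u z * fderiv ℝ u z 1) with hX1
  set X2 : ℂ → ℝ := fun z => φ z * (Φ z ^ 2 / u z * fderiv ℝ u z I) with hX2
  obtain ⟨i1, i1'⟩ := int_der (hX 1) (hXc 1) 1
  obtain ⟨i2, i2'⟩ := int_der (hX I) (hXc I) I
  -- integrability
  have hK : IsCompact (tsupport φ) := hφc
  have hint : ∀ F : ℂ → ℝ, ContinuousOn F (tsupport φ) → (∀ z, z ∉ tsupport φ → F z = 0) →
      Integrable F := by
    intro F hF h0
    have h2 : Function.support F ⊆ tsupport φ := by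
      intro z hz
      by_contra h
      exact hz (h0 z h)
    exact (integrableOn_iff_integrable_of_support_subset h2).1 (hF.integrableOn_compact hK)
  have cφ : ContinuousOn φ (tsupport φ) := hφ.continuous.continuousOn
  have cD : ∀ (F : ℂ → ℝ), ContDiffOn ℝ ∞ F Ω → ∀ v : ℂ,
      ContinuousOn (fun z => fderiv ℝ F z v) (tsupport φ) := fun F hF v =>
    ((((hF.fderiv_of_isOpen hΩ (m := ∞) (by simp)).continuousOn).clm_apply
        continuousOn_const).mono hsub)
  have cΦ : ContinuousOn Φ (tsupport φ) := hΦ.continuousOn.mono hsub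
  have cV : ContinuousOn V (tsupport φ) := hV.mono hsub
  have cW : ContinuousOn (fun w => Φ w ^ 2 / u w) (tsupport φ) := fun z hz =>
    (hW z (hsub hz)).continuousAt.continuousWithinAt
  have cφd : ∀ v : ℂ, Continuous (fun z => fderiv ℝ φ z v) := fun v =>
    (hφ.continuous_fderiv (by simp)).clm_apply continuous_const
  have hφd0 : ∀ z, z ∉ tsupport φ → fderiv ℝ φ z = 0 := fun z hz =>
    fderiv_of_notMem_tsupport (𝕜 := ℝ) hz
  have j1 : Integrable (fun z => φ z * (V z * Φ z ^ 2)) := by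
    refine hint _ (cφ.mul (cV.mul (cΦ.pow 2))) fun z hz => ?_
    rw [image_eq_zero_of_notMem_tsupport hz, zero_mul]
  have j2 : Integrable (fun z => φ z * (dx Φ z ^ 2 + dy Φ z ^ 2)) := by
    refine hint _ (cφ.mul (((cD Φ hΦ 1).pow 2).add ((cD Φ hΦ I).pow 2))) fun z hz => ?_
    rw [image_eq_zero_of_notMem_tsupport hz, zero_mul]
  have j3 : Integrable (fun z => Φ z ^ 2 / u z * (dx φ z * dx u z + dy φ z * dy u z)) := by
    refine hint _ (cW.mul (((cφd 1).continuousOn.mul (cD u hs.smooth 1)).add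
      ((cφd I).continuousOn.mul (cD u hs.smooth I)))) fun z hz => ?_
    simp [dx, dy, hφd0 z hz]
  refine ⟨j1, j2, j3, ?_⟩
  -- the pointwise inequality
  have hpt : ∀ z, φ z * (V z * Φ z ^ 2) ≤ φ z * (dx Φ z ^ 2 + dy Φ z ^ 2) +
      Φ z ^ 2 / u z * (dx φ z * dx u z + dy φ z * dy u z) -
        (fderiv ℝ X1 z 1 + fderiv ℝ X2 z I) := by
    intro z
    by_cases hz : z ∈ tsupport φ
    swap
    · have h0 : ∀ v : ℂ, fderiv ℝ (fun z => φ z * (Φ z ^ 2 / u z * fderiv ℝ u z v)) z = 0 := by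
        intro v
        have h1 : (fun z => φ z * (Φ z ^ 2 / u z * fderiv ℝ u z v)) =ᶠ[𝓝 z] fun _ => 0 := by
          filter_upwards [notMem_tsupport_iff_eventuallyEq.1 hz] with w hw
          rw [hw]
          simp
        rw [h1.fderiv_eq]
        simp
      rw [hX1, hX2, h0 1, h0 I, image_eq_zero_of_notMem_tsupport hz]
      simp [dx, dy, hφd0 z hz]
    have hzΩ := hsub hz
    by_cases hu : u z < e
    · have h1 := hnear z hzΩ hu
      have h0 : ∀ v : ℂ, fderiv ℝ (fun z => φ z * (Φ z ^ 2 / u z * fderiv ℝ u z v)) z = 0 := by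
        intro v
        have h2 : (fun z => φ z * (Φ z ^ 2 / u z * fderiv ℝ u z v)) =ᶠ[𝓝 z] fun _ => 0 := by
          filter_upwards [h1] with w hw
          rw [hw]
          simp
        rw [h2.fderiv_eq]
        simp
      have h3 : fderiv ℝ Φ z = 0 := by
        rw [h1.fderiv_eq]
        simp
      rw [hX1, hX2, h0 1, h0 I, h1.self_of_nhds]
      simp [dx, dy, h3]
    have hz0 : u z ≠ 0 := by linarith [not_lt.1 hu]
    have hu1 : ContDiffAt ℝ 1 (fderiv ℝ u) z := (hua z hzΩ).fderiv_right (by norm_cast)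
    have hdu : HasFDerivAt u (fderiv ℝ u z) z := ((hua z hzΩ).differentiableAt (by simp)).hasFDerivAt
    have hdΦ : HasFDerivAt Φ (fderiv ℝ Φ z) z := ((hΦa z hzΩ).differentiableAt (by simp)).hasFDerivAt
    have hdφ : HasFDerivAt φ (fderiv ℝ φ z) z :=
      (hφ.differentiable (by simp)).differentiableAt.hasFDerivAt
    have hddu : ∀ v : ℂ, HasFDerivAt (fun w => fderiv ℝ u w v)
        (fderiv ℝ (fun w => fderiv ℝ u w v) z) z := fun v =>
      ((hu1.differentiableAt (by simp)).clm_apply (differentiableAt_const _)).hasFDerivAt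
    have hXd : ∀ v : ℂ, fderiv ℝ (fun z => φ z * (Φ z ^ 2 / u z * fderiv ℝ u z v)) z v =
        fderiv ℝ φ z v * (Φ z ^ 2 / u z * fderiv ℝ u z v) +
        φ z * ((2 * Φ z * fderiv ℝ Φ z v / u z - Φ z ^ 2 / u z ^ 2 * fderiv ℝ u z v) *
          fderiv ℝ u z v + Φ z ^ 2 / u z * fderiv ℝ (fun w => fderiv ℝ u w v) z v) := by
      intro v
      have hz0' : u (z + (0 : ℝ) • v) ≠ 0 := by simpa using hz0
      have h1 := (lineDer v hdφ).mul ((((lineDer v hdΦ).pow 2).div (lineDer v hdu) hz0').mul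
        (lineDer v (hddu v)))
      have h2 := lineDer v ((hX v).differentiable one_ne_zero z).hasFDerivAt
      have h3 := h2.unique h1
      rw [h3]
      simp only [Pi.pow_apply, Pi.div_apply, Pi.mul_apply, zero_smul, add_zero, Nat.cast_ofNat]
      rw [show (2 : ℕ) - 1 = 1 from rfl, pow_one]
      field_simp
    have hl := hs.eq z hzΩ
    have hlap : lap u z = fderiv ℝ (fun w => fderiv ℝ u w 1) z 1 +
      fderiv ℝ (fun w => fderiv ℝ u w I) z I := rfl
    have e1 := hXd 1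
    have e2 := hXd I
    rw [← hX1] at e1
    rw [← hX2] at e2
    rw [e1, e2]
    have h3 : Φ z ^ 2 / u z * lap u z = -(V z * Φ z ^ 2) := by
      have h4 : lap u z = -(V z * u z) := by linarith
      rw [h4]
      field_simp
    have hkey : φ z * (dx Φ z ^ 2 + dy Φ z ^ 2) +
        Φ z ^ 2 / u z * (dx φ z * dx u z + dy φ z * dy u z) -
        (fderiv ℝ φ z 1 * (Φ z ^ 2 / u z * fderiv ℝ u z 1) +
        φ z * ((2 * Φ z * fderiv ℝ Φ z 1 / u z - Φ z ^ 2 / u z ^ 2 * fderiv ℝ u z 1) *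
          fderiv ℝ u z 1 + Φ z ^ 2 / u z * fderiv ℝ (fun w => fderiv ℝ u w 1) z 1) +
        (fderiv ℝ φ z I * (Φ z ^ 2 / u z * fderiv ℝ u z I) +
        φ z * ((2 * Φ z * fderiv ℝ Φ z I / u z - Φ z ^ 2 / u z ^ 2 * fderiv ℝ u z I) *
          fderiv ℝ u z I + Φ z ^ 2 / u z * fderiv ℝ (fun w => fderiv ℝ u w I) z I))) =
        φ z * ((fderiv ℝ Φ z 1 - Φ z / u z * fderiv ℝ u z 1) ^ 2 +
          (fderiv ℝ Φ z I - Φ z / u z * fderiv ℝ u z I) ^ 2) -
          φ z * (Φ z ^ 2 / u z * lap u z) := by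
      rw [hlap]
      simp only [dx, dy]
      field_simp
      ring
    rw [hkey, h3]
    have h5 : 0 ≤ φ z * ((fderiv ℝ Φ z 1 - Φ z / u z * fderiv ℝ u z 1) ^ 2 +
          (fderiv ℝ Φ z I - Φ z / u z * fderiv ℝ u z I) ^ 2) :=
      mul_nonneg (hφ0 z) (by positivity)
    linarith
  have i3 : Integrable fun z => fderiv ℝ X1 z 1 + fderiv ℝ X2 z I := i1.add i2
  have hmono := integral_mono j1 ((j2.add j3).sub i3) hpt
  have h1 : ∫ z, (fderiv ℝ X1 z 1 + fderiv ℝ X2 z I) = 0 := by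
    have := integral_add i1 i2
    rw [i1', i2', add_zero] at this
    exact this
  refine hmono.trans (le_of_eq ?_)
  have h2 := integral_sub (j2.add j3) i3
  have h3 := integral_add j2 j3
  simp only [Pi.add_apply, Pi.sub_apply] at h2 h3 ⊢
  rw [h2, h1, sub_zero, h3]

end Pool.Agent.H25.TI
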