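import Pool.Agent.H25.TI.Stm

/-!
# Module M10: real analysis of the limit law
-/

set_option autoImplicit false
set_option linter.unusedSectionVars false
open MeasureTheory Filter Topology Set
open scoped ENNReal NNReal
open Pool.Agent.E8helper19.EN (HH)

namespace Pool.Agent.H25.TI

namespace M10aux

lemma sin_sub_mul_cos_nonneg {x : ℝ} (h0 : 0 ≤ x) (h1 : x ≤ Real.pi / 2) :
    0 ≤ Real.sin x - x * Real.cos x := by
  have hm : MonotoneOn (fun x => Real.sin x - x * Real.cos x) (Icc 0 (Real.pi / 2)) := by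
    apply monotoneOn_of_deriv_nonneg (convex_Icc _ _)
    · fun_prop
    · intro y _
      exact (Real.differentiableAt_sin.sub
        (differentiableAt_id.mul Real.differentiableAt_cos)).differentiableWithinAt
    · intro y hy
      rw [interior_Icc] at hy
      have hd : HasDerivAt (fun x => Real.sin x - x * Real.cos x)
          (Real.cos y - (1 * Real.cos y + y * (-Real.sin y))) y :=
        (Real.hasDerivAt_sin y).sub ((hasDerivAt_id y).mul (Real.hasDerivAt_cos y))
      rw [hd.deriv]
      have : 0 ≤ Real.sin y := Real.sin_nonneg_of_nonneg_of_le_pi hy.1.le (by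
        linarith [hy.2, Real.pi_pos])
      nlinarith [hy.1]
  have := hm (left_mem_Icc.2 (by linarith [Real.pi_pos])) ⟨h0, h1⟩ h0
  simpa using this

lemma trig_ineq {x : ℝ} (h0 : 0 ≤ x) (h1 : x ≤ Real.pi / 2) :
    x ^ 2 / 3 * Real.sin x ≤ Real.sin x - x * Real.cos x := by
  have hm : MonotoneOn (fun x => Real.sin x - x * Real.cos x - x ^ 2 / 3 * Real.sin x)
      (Icc 0 (Real.pi / 2)) := by
    apply monotoneOn_of_deriv_nonneg (convex_Icc _ _)
    · fun_prop
    · intro y _
      have hd : HasDerivAt (fun x => Real.sin x - x * Real.cos x - x ^ 2 / 3 * Real.sin x)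
          (Real.cos y - (1 * Real.cos y + y * (-Real.sin y)) -
            ((2 : ℕ) * y ^ (2 - 1) / 3 * Real.sin y + y ^ 2 / 3 * Real.cos y)) y :=
        ((Real.hasDerivAt_sin y).sub ((hasDerivAt_id y).mul (Real.hasDerivAt_cos y))).sub
          (((hasDerivAt_pow 2 y).div_const 3).mul (Real.hasDerivAt_sin y))
      exact hd.differentiableAt.differentiableWithinAt
    · intro y hy
      rw [interior_Icc] at hy
      have hd : HasDerivAt (fun x => Real.sin x - x * Real.cos x - x ^ 2 / 3 * Real.sin x)
          (Real.cos y - (1 * Real.cos y + y * (-Real.sin y)) -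
            ((2 : ℕ) * y ^ (2 - 1) / 3 * Real.sin y + y ^ 2 / 3 * Real.cos y)) y :=
        ((Real.hasDerivAt_sin y).sub ((hasDerivAt_id y).mul (Real.hasDerivAt_cos y))).sub
          (((hasDerivAt_pow 2 y).div_const 3).mul (Real.hasDerivAt_sin y))
      rw [hd.deriv]
      have h2 := sin_sub_mul_cos_nonneg hy.1.le hy.2.le
      have h3 : Real.cos y - (1 * Real.cos y + y * (-Real.sin y)) -
            ((2 : ℕ) * y ^ (2 - 1) / 3 * Real.sin y + y ^ 2 / 3 * Real.cos y) =
          y / 3 * (Real.sin y - y * Real.cos y) := by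
        push_cast
        ring
      rw [h3]
      have := hy.1
      positivity
  have := hm (left_mem_Icc.2 (by linarith [Real.pi_pos])) ⟨h0, h1⟩ h0
  simp at this
  linarith

lemma sin_mul_cos_lt {x : ℝ} (h0 : 0 < x) : Real.sin x * Real.cos x < x := by
  have h := Real.sin_lt (show 0 < 2 * x by linarith)
  rw [Real.sin_two_mul] at h
  linarith

/-- the optimisation over the angle -/
lemma opt {m X t : ℝ} (hX : 0 ≤ X) (ht : 0 ≤ t) (htm : t ≤ m)
    (h : ∀ α : ℝ, 0 < α → α ≤ Real.pi / 2 →
      t ≤ Real.cos α ^ 2 * m + (α - Real.sin α * Real.cos α) * X) :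
    t ^ 2 * m ≤ 3 * X ^ 2 * (m - t) := by
  have hpi := Real.pi_pos
  rcases (ht.trans htm).eq_or_lt with hm | hm
  · have : t = 0 := by linarith
    rw [this, ← hm]
    simp
  · set y := (m - t) / m with hy
    have hy0 : 0 ≤ y := div_nonneg (by linarith) hm.le
    have hym : m * y = m - t := by rw [hy]; field_simp
    -- the main claim
    have key : ∀ y' : ℝ, 0 < y' → y ≤ y' → y' ≤ 1 → (m * (1 - y')) ^ 2 ≤ X ^ 2 * (3 * y') := by
      intro y' h0 h1 h2
      have hs : 0 < √(3 * y') := Real.sqrt_pos.2 (by linarith)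
      have hsq : √(3 * y') ^ 2 = 3 * y' := Real.sq_sqrt (by linarith)
      have hle : m * (1 - y') ≤ X * √(3 * y') := by
        by_cases hc : √(3 * y') ≤ Real.pi / 2
        · set α := √(3 * y') with hα
          have h3 := h α hs hc
          have h4 := trig_ineq hs.le hc
          have h5 : 0 ≤ Real.cos α := Real.cos_nonneg_of_neg_pi_div_two_le_of_le (by linarith) hc
          have h6 := sin_mul_cos_lt hs
          have h7 : Real.sin α ^ 2 = 1 - Real.cos α ^ 2 := by
            rw [← Real.sin_sq_add_cos_sq α]; ring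
          have h8 : y' = α ^ 2 / 3 := by rw [hsq]; ring
          have h9 : (1 - y') * (α - Real.sin α * Real.cos α) ≤ α * (Real.sin α ^ 2 - y') := by
            have : α * (Real.sin α ^ 2 - y') - (1 - y') * (α - Real.sin α * Real.cos α) =
                Real.cos α * (Real.sin α - α * Real.cos α - α ^ 2 / 3 * Real.sin α) := by
              rw [h7, h8]; ring
            have h10 : 0 ≤ Real.cos α * (Real.sin α - α * Real.cos α - α ^ 2 / 3 * Real.sin α) :=
              mul_nonneg h5 (by linarith)
            linarith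
          have h11 : m * (Real.sin α ^ 2 - y') ≤ (α - Real.sin α * Real.cos α) * X := by
            have : m * y ≤ m * y' := mul_le_mul_of_nonneg_left h1 hm.le
            rw [h7]
            nlinarith
          have h12 : (α - Real.sin α * Real.cos α) * (m * (1 - y')) ≤
              (α - Real.sin α * Real.cos α) * (X * α) := by
            calc (α - Real.sin α * Real.cos α) * (m * (1 - y'))
                = m * ((1 - y') * (α - Real.sin α * Real.cos α)) := by ring
              _ ≤ m * (α * (Real.sin α ^ 2 - y')) := by gcongr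
              _ = α * (m * (Real.sin α ^ 2 - y')) := by ring
              _ ≤ α * ((α - Real.sin α * Real.cos α) * X) := by gcongr
              _ = _ := by ring
          exact le_of_mul_le_mul_left h12 (by linarith)
        · push Not at hc
          have h3 := h (Real.pi / 2) (by linarith) le_rfl
          rw [Real.cos_pi_div_two, Real.sin_pi_div_two] at h3
          have h4 : m * y ≤ m * y' := mul_le_mul_of_nonneg_left h1 hm.le
          have h5 : X * (Real.pi / 2) ≤ X * √(3 * y') := mul_le_mul_of_nonneg_left hc.le hX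
          nlinarith
      have h0' : 0 ≤ m * (1 - y') := mul_nonneg hm.le (by linarith)
      calc (m * (1 - y')) ^ 2 ≤ (X * √(3 * y')) ^ 2 := pow_le_pow_left₀ h0' hle 2
        _ = X ^ 2 * (3 * y') := by rw [mul_pow, hsq]
    have hy1 : y ≤ 1 := by
      rw [hy, div_le_one hm]; linarith
    rcases hy0.eq_or_lt with h0 | h0
    · -- the case `t = m` is impossible
      exfalso
      have h2 : 0 < m ^ 2 / (24 * X ^ 2 + 1) := by positivity
      set z := min (1 / 2) (m ^ 2 / (24 * X ^ 2 + 1)) with hz
      have hz0 : 0 < z := lt_min (by norm_num) h2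
      have hz1 : z ≤ 1 / 2 := min_le_left _ _
      have hz2 : z ≤ m ^ 2 / (24 * X ^ 2 + 1) := min_le_right _ _
      have h3 := key z hz0 (by rw [← h0]; exact hz0.le) (by linarith)
      rw [le_div_iff₀ (by positivity)] at hz2
      have h4 : (1 / 2) ^ 2 ≤ (1 - z) ^ 2 := pow_le_pow_left₀ (by norm_num) (by linarith) 2
      have h5 : m ^ 2 * (1 / 2) ^ 2 ≤ m ^ 2 * (1 - z) ^ 2 := by gcongr
      have h6 : 0 < m ^ 2 := by positivity
      rw [mul_pow] at h3
      nlinarith
    · have h3 := key y h0 le_rfl hy1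
      have h4 : m * (1 - y) = t := by rw [mul_sub, hym]; ring
      rw [h4] at h3
      calc t ^ 2 * m ≤ X ^ 2 * (3 * y) * m := by gcongr
        _ = 3 * X ^ 2 * (m * y) := by ring
        _ = _ := by rw [hym]

section meas

variable (ν : Measure ℝ) [IsFiniteMeasure ν]

/-- the tail -/
noncomputable def T (s : ℝ) : ℝ := ν.real (Ioi s)

/-- the integrated tail -/
noncomputable def H (s : ℝ) : ℝ := ∫ x, max (x - s) 0 ∂ν

lemma T_nonneg (s : ℝ) : 0 ≤ T ν s := measureReal_nonneg

lemma T_anti : Antitone (T ν) := fun _ _ h => measureReal_mono (Ioi_subset_Ioi h)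

lemma T_sub {s s' : ℝ} (h : s ≤ s') : ν.real (Ioc s s') = T ν s - T ν s' := by
  have h1 : Ioi s = Ioc s s' ∪ Ioi s' := (Ioc_union_Ioi_eq_Ioi h).symm
  have h2 : Disjoint (Ioc s s') (Ioi s') := by
    rw [Set.disjoint_left]
    exact fun x hx hx' => not_lt.2 hx.2 hx'
  unfold T
  rw [h1, measureReal_union h2 measurableSet_Ioi]
  ring

lemma H_nonneg (s : ℝ) : 0 ≤ H ν s := integral_nonneg fun _ => le_max_right _ _

variable {ν}

lemma int_max (hν : Integrable (fun x => x) ν) (s : ℝ) :
    Integrable (fun x => max (x - s) 0) ν :=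
  (hν.sub (integrable_const s)).pos_part

lemma H_anti (hν : Integrable (fun x => x) ν) : Antitone (H ν) := by
  intro s s' h
  refine integral_mono (int_max hν s') (int_max hν s) fun x => ?_
  exact max_le_max (by linarith) le_rfl

/-- `M - s T = H` -/
lemma HH_eq (hν : Integrable (fun x => x) ν) (s : ℝ) : HH ν s = s * T ν s + H ν s := by
  have h1 : H ν s = ∫ x in Ioi s, (x - s) ∂ν := by
    unfold H
    rw [← integral_indicator measurableSet_Ioi]
    refine integral_congr_ae (Eventually.of_forall fun x => ?_)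
    by_cases hx : x ∈ Ioi s
    · simp only [indicator_of_mem hx]
      exact max_eq_left (by have := mem_Ioi.1 hx; linarith)
    · simp only [indicator_of_notMem hx]
      exact max_eq_right (by have := not_lt.1 (fun h => hx (mem_Ioi.2 h)); linarith)
  rw [h1, integral_sub hν.integrableOn (integrable_const s).integrableOn, setIntegral_const,
    smul_eq_mul]
  unfold HH T
  ring

lemma HH_nonneg (hν : Integrable (fun x => x) ν) {s : ℝ} (hs : 0 ≤ s) : 0 ≤ HH ν s := by
  rw [HH_eq hν]
  have := T_nonneg ν s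
  have := H_nonneg ν s
  positivity

lemma HH_anti (hν : Integrable (fun x => x) ν) : AntitoneOn (HH ν) (Ici 0) := by
  intro s hs s' hs' h
  unfold HH
  refine setIntegral_mono_set hν.integrableOn ?_ (Ioi_subset_Ioi h).eventuallyLE
  filter_upwards [ae_restrict_mem measurableSet_Ioi] with x hx
  exact le_trans hs (le_of_lt hx)

lemma HH_int (hν : Integrable (fun x => x) ν) {a b : ℝ} (ha : 0 ≤ a) (hab : a ≤ b) :
    IntervalIntegrable (HH ν) volume a b := by
  apply AntitoneOn.intervalIntegrable
  rw [uIcc_of_le hab]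
  exact (HH_anti hν).mono fun x hx => ha.trans hx.1

lemma HHd_int (hν : Integrable (fun x => x) ν) {a b : ℝ} (ha : 0 < a) (hab : a ≤ b) :
    IntervalIntegrable (fun s => HH ν s / s) volume a b := by
  have h1 := HH_int hν ha.le hab
  simp only [div_eq_mul_inv]
  apply h1.mul_continuousOn
  apply continuousOn_inv₀.mono
  intro x hx
  rw [uIcc_of_le hab] at hx
  exact (lt_of_lt_of_le ha hx.1).ne'

lemma T_int (a b : ℝ) : IntervalIntegrable (T ν) volume a b :=
  (T_anti ν).intervalIntegrable

lemma H_int (hν : Integrable (fun x => x) ν) (a b : ℝ) : IntervalIntegrable (H ν) volume a b :=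
  (H_anti hν).intervalIntegrable

variable {κ : ℝ} (hκ : 0 < κ) (hν : Integrable (fun x => x) ν)
  (hyp : ∀ a b α : ℝ, 0 < a → a < b → 0 < α → α ≤ Real.pi / 2 →
    ∫ s in a..b, ν.real (Ioi s) ≤ Real.cos α ^ 2 * (∫ s in a..b, HH ν s / s) +
      κ * (α - Real.sin α * Real.cos α) * √(ν.real (Icc a b) * ∫ s in a..b, HH ν s))

include hκ hν hyp

/-- step (1) -/
lemma step1 {a b α : ℝ} (ha : 0 < a) (hab : a < b) (hα : 0 < α) (hα' : α ≤ Real.pi / 2) :
    ∫ s in a..b, T ν s ≤ Real.cos α ^ 2 * (∫ s in a..b, HH ν s / s) +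
      κ * (α - Real.sin α * Real.cos α) * √(ν.real (Ioo a b) * ∫ s in a..b, HH ν s) := by
  have hsc := sin_mul_cos_lt hα
  have hcont : Tendsto (fun d : ℝ => ∫ s in (a + d)..(b - d), T ν s) (𝓝[>] 0)
      (𝓝 (∫ s in a..b, T ν s)) := by
    have e : ∀ d : ℝ, ∫ s in (a + d)..(b - d), T ν s =
        (∫ s in a..(b - d), T ν s) - ∫ s in a..(a + d), T ν s := by
      intro d
      rw [intervalIntegral.integral_interval_sub_left (T_int _ _) (T_int _ _)]
    have h1 : Continuous fun x : ℝ => ∫ s in a..x, T ν s :=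
      intervalIntegral.continuous_primitive (fun a b => T_int a b) a
    have h2 : Continuous fun d : ℝ => (∫ s in a..(b - d), T ν s) - ∫ s in a..(a + d), T ν s :=
      (h1.comp (continuous_const.sub continuous_id)).sub
        (h1.comp (continuous_const.add continuous_id))
    have h3 := h2.tendsto 0
    simp only [sub_zero, add_zero, intervalIntegral.integral_same] at h3
    simp only [e]
    exact h3.mono_left nhdsWithin_le_nhds
  refine le_of_tendsto hcont ?_
  have hd : ∀ᶠ d in 𝓝[>] (0 : ℝ), d < (b - a) / 2 :=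
    nhdsWithin_le_nhds (gt_mem_nhds (by linarith))
  filter_upwards [hd, self_mem_nhdsWithin] with d h1 h2
  have h2' : 0 < d := h2
  have h3 := hyp (a + d) (b - d) α (by linarith) (by linarith) hα hα'
  have hnn : ∀ x ∈ Ioc a b, 0 ≤ HH ν x := fun x hx => HH_nonneg hν (ha.trans hx.1).le
  have e1 : ∫ s in (a + d)..(b - d), HH ν s ≤ ∫ s in a..b, HH ν s := by
    apply intervalIntegral.integral_mono_interval (by linarith) (by linarith) (by linarith)
    · filter_upwards [ae_restrict_mem measurableSet_Ioc] with x hx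
      exact hnn x hx
    · exact HH_int hν ha.le hab.le
  have e2 : ∫ s in (a + d)..(b - d), HH ν s / s ≤ ∫ s in a..b, HH ν s / s := by
    apply intervalIntegral.integral_mono_interval (by linarith) (by linarith) (by linarith)
    · filter_upwards [ae_restrict_mem measurableSet_Ioc] with x hx
      exact div_nonneg (hnn x hx) (ha.trans hx.1).le
    · exact HHd_int hν ha hab.le
  have e3 : ν.real (Icc (a + d) (b - d)) ≤ ν.real (Ioo a b) :=
    measureReal_mono (Icc_subset_Ioo (by linarith) (by linarith))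
  have e4 : 0 ≤ ∫ s in (a + d)..(b - d), HH ν s :=
    intervalIntegral.integral_nonneg (by linarith) fun x hx => HH_nonneg hν (by linarith [hx.1])
  refine h3.trans ?_
  gcongr

/-- step (2) -/
lemma step2 {s s' : ℝ} (hs : 0 < s) (hss : s < s') :
    T ν s' ^ 2 * (s' - s) ≤ 3 * κ ^ 2 * (ν.real (Ioo s s') * (HH ν s - s * T ν s')) := by
  set D := s' - s with hD
  have hD0 : 0 < D := by rw [hD]; linarith
  have hM0 : 0 ≤ HH ν s := HH_nonneg hν hs.le
  set X := κ * √(ν.real (Ioo s s') * HH ν s / D) with hX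
  have hX0 : 0 ≤ X := by positivity
  have hTM : T ν s' ≤ HH ν s / s := by
    rw [le_div_iff₀ hs, HH_eq hν]
    have := T_anti ν hss.le
    have := H_nonneg ν s
    nlinarith
  have h := opt (m := HH ν s / s) (X := X) (t := T ν s') hX0 (T_nonneg ν s') hTM (by
    intro α h0 h1
    have hsc := sin_mul_cos_lt h0
    have h2 := step1 hκ hν hyp hs hss h0 h1
    have e1 : T ν s' * D ≤ ∫ x in s..s', T ν x := by
      have := intervalIntegral.integral_mono_on hss.le (intervalIntegrable_const (c := T ν s'))
        (T_int s s') (fun x hx => T_anti ν hx.2)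
      rw [intervalIntegral.integral_const, smul_eq_mul] at this
      linarith
    have e2 : ∫ x in s..s', HH ν x ≤ HH ν s * D := by
      have := intervalIntegral.integral_mono_on hss.le (HH_int hν hs.le hss.le)
        (intervalIntegrable_const (c := HH ν s))
        (fun x hx => HH_anti hν (mem_Ici.2 hs.le) (mem_Ici.2 (hs.le.trans hx.1)) hx.1)
      rw [intervalIntegral.integral_const, smul_eq_mul] at this
      linarith
    have e3 : ∫ x in s..s', HH ν x / x ≤ HH ν s / s * D := by
      have := intervalIntegral.integral_mono_on hss.le (HHd_int hν hs hss.le)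
        (intervalIntegrable_const (c := HH ν s / s))
        (fun x hx => div_le_div₀ hM0
          (HH_anti hν (mem_Ici.2 hs.le) (mem_Ici.2 (hs.le.trans hx.1)) hx.1) hs hx.1)
      rw [intervalIntegral.integral_const, smul_eq_mul] at this
      linarith
    have e4 : √(ν.real (Ioo s s') * ∫ x in s..s', HH ν x) ≤
        √(ν.real (Ioo s s') * HH ν s / D) * D := by
      have h5 : √(ν.real (Ioo s s') * HH ν s / D) * D =
          √(ν.real (Ioo s s') * (HH ν s * D)) := by
        rw [← Real.sqrt_sq hD0.le, ← Real.sqrt_mul (by positivity), Real.sqrt_sq hD0.le]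
        congr 1
        field_simp
      rw [h5]
      gcongr
    have e5 : T ν s' * D ≤ (Real.cos α ^ 2 * (HH ν s / s) +
        (α - Real.sin α * Real.cos α) * X) * D := by
      calc T ν s' * D ≤ _ := e1
        _ ≤ _ := h2
        _ ≤ Real.cos α ^ 2 * (HH ν s / s * D) +
            κ * (α - Real.sin α * Real.cos α) * (√(ν.real (Ioo s s') * HH ν s / D) * D) := by
            gcongr
        _ = _ := by rw [hX]; ring
    exact le_of_mul_le_mul_right e5 hD0)
  have hX2 : X ^ 2 = κ ^ 2 * (ν.real (Ioo s s') * HH ν s / D) := by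
    rw [hX, mul_pow, Real.sq_sqrt (by positivity)]
  rw [hX2] at h
  rcases hM0.eq_or_lt with h0 | h0
  · have h1 : T ν s' = 0 := by
      rw [← h0, zero_div] at hTM
      exact le_antisymm hTM (T_nonneg ν s')
    rw [h1, ← h0]
    simp
  · have h3 : T ν s' ^ 2 * D * (HH ν s / (s * D)) ≤
        3 * κ ^ 2 * (ν.real (Ioo s s') * (HH ν s - s * T ν s')) * (HH ν s / (s * D)) := by
      have e1 : T ν s' ^ 2 * D * (HH ν s / (s * D)) = T ν s' ^ 2 * (HH ν s / s) := by
        field_simp
      have e2 : 3 * κ ^ 2 * (ν.real (Ioo s s') * (HH ν s - s * T ν s')) * (HH ν s / (s * D)) =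
          3 * (κ ^ 2 * (ν.real (Ioo s s') * HH ν s / D)) * (HH ν s / s - T ν s') := by
        field_simp
      rw [e1, e2]
      exact h
    exact le_of_mul_le_mul_right h3 (by positivity)

omit hκ hν hyp in
/-- the masses of disjoint intervals -/
lemma sum_Ioo (x : ℕ → ℝ) (hx : ∀ i, x i < x (i + 1)) (n : ℕ) :
    ∑ i ∈ Finset.range n, ν.real (Ioo (x i) (x (i + 1))) ≤ ν.real (Ioo (x 0) (x n)) := by
  have hmono : ∀ k, x 0 ≤ x k := by
    intro k
    induction k with
    | zero => exact le_rfl
    | succ k ih => exact ih.trans (hx k).le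
  induction n with
  | zero => simp
  | succ n ih =>
    rw [Finset.sum_range_succ]
    have h1 : Disjoint (Ioo (x 0) (x n)) (Ioo (x n) (x (n + 1))) := by
      rw [Set.disjoint_left]
      exact fun y hy hy' => not_lt.2 hy.2.le hy'.1
    calc _ ≤ ν.real (Ioo (x 0) (x n)) + ν.real (Ioo (x n) (x (n + 1))) := by gcongr
      _ = ν.real (Ioo (x 0) (x n) ∪ Ioo (x n) (x (n + 1))) :=
          (measureReal_union h1 measurableSet_Ioo).symm
      _ ≤ ν.real (Ioo (x 0) (x (n + 1))) := by
          refine measureReal_mono ?_ (measure_ne_top _ _)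
          rintro y (hy | hy)
          · exact ⟨hy.1, hy.2.trans (hx n)⟩
          · exact ⟨lt_of_le_of_lt (hmono n) hy.1, hy.2⟩

/-- step (3), finite version -/
lemma step3a {a b : ℝ} (ha : 0 < a) (hab : a < b) (n : ℕ) (hn : 0 < n) :
    (∫ s in a..b, T ν s) - (b - a) / n * T ν a ≤ √(3 * κ ^ 2 * (ν.real (Ioo a b) *
      ((∫ s in a..b, H ν s) + (b - a) / n * (H ν a + b * T ν a)))) := by
  have hn' : (0 : ℝ) < n := by exact_mod_cast hn
  set D := (b - a) / n with hD
  have hD0 : 0 < D := div_pos (by linarith) hn'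
  have hnD : n * D = b - a := by rw [hD]; field_simp
  set x : ℕ → ℝ := fun i => a + i * D with hx
  have hx0 : x 0 = a := by simp [hx]
  have hxn : x n = b := by simp [hx, hnD]
  have hstep : ∀ i, x (i + 1) - x i = D := by
    intro i
    simp only [hx]
    push_cast
    ring
  have hlt : ∀ i, x i < x (i + 1) := fun i => by linarith [hstep i]
  have hge : ∀ i, a ≤ x i := fun i => by
    simp only [hx]
    have : 0 ≤ (i : ℝ) * D := by positivity
    linarith
  have hle : ∀ i, i < n → x i ≤ b := fun i hi => by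
    simp only [hx]
    have : (i : ℝ) * D ≤ n * D := by
      gcongr
    linarith
  -- comparison of integrals and sums
  have hadj : ∀ f : ℝ → ℝ, (∀ c d, IntervalIntegrable f volume c d) →
      ∑ i ∈ Finset.range n, ∫ s in (x i)..(x (i + 1)), f s = ∫ s in a..b, f s := by
    intro f hf
    rw [intervalIntegral.sum_integral_adjacent_intervals (fun k _ => hf _ _), hx0, hxn]
  have hup : ∀ f : ℝ → ℝ, Antitone f → ∫ s in a..b, f s ≤ ∑ i ∈ Finset.range n, D * f (x i) := by
    intro f hf
    rw [← hadj f (fun c d => hf.intervalIntegrable)]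
    refine Finset.sum_le_sum fun i _ => ?_
    have := intervalIntegral.integral_mono_on (hlt i).le
      (hf.intervalIntegrable (μ := volume) (a := x i) (b := x (i + 1)))
      (intervalIntegrable_const (c := f (x i))) (fun y hy => hf hy.1)
    rw [intervalIntegral.integral_const, smul_eq_mul, hstep i] at this
    exact this
  have hlo : ∀ f : ℝ → ℝ, Antitone f → ∑ i ∈ Finset.range n, D * f (x (i + 1)) ≤
      ∫ s in a..b, f s := by
    intro f hf
    rw [← hadj f (fun c d => hf.intervalIntegrable)]
    refine Finset.sum_le_sum fun i _ => ?_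
    have := intervalIntegral.integral_mono_on (hlt i).le
      (intervalIntegrable_const (c := f (x (i + 1))))
      (hf.intervalIntegrable (μ := volume) (a := x i) (b := x (i + 1))) (fun y hy => hf hy.2)
    rw [intervalIntegral.integral_const, smul_eq_mul, hstep i] at this
    exact this
  have hshift : ∀ f : ℝ → ℝ, ∑ i ∈ Finset.range n, D * f (x (i + 1)) =
      ∑ i ∈ Finset.range n, D * f (x i) + D * f b - D * f a := by
    intro f
    have h1 := Finset.sum_range_succ (fun i => D * f (x i)) n
    have h2 := Finset.sum_range_succ' (fun i => D * f (x i)) n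
    rw [h1] at h2
    rw [hx0, hxn] at h2
    linarith
  -- Cauchy-Schwarz
  set p : ℕ → ℝ := fun i => 3 * κ ^ 2 * ν.real (Ioo (x i) (x (i + 1))) with hp
  set q : ℕ → ℝ := fun i => D * H ν (x i) + D * b * (T ν (x i) - T ν (x (i + 1))) with hq
  have hTd : ∀ i, 0 ≤ T ν (x i) - T ν (x (i + 1)) := fun i => by
    have := T_anti ν (hlt i).le
    linarith
  have hb : 0 < b := by linarith
  have hp0 : ∀ i, 0 ≤ p i := fun i => by
    simp only [hp]
    positivity
  have hq0 : ∀ i, 0 ≤ q i := fun i => by
    simp only [hq]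
    have h1 := H_nonneg ν (x i)
    have h2 := hTd i
    positivity
  have hpq : ∀ i ∈ Finset.range n, (D * T ν (x (i + 1))) ^ 2 ≤ p i * q i := by
    intro i hi
    have h1 := step2 hκ hν hyp (s := x i) (s' := x (i + 1)) (lt_of_lt_of_le ha (hge i)) (hlt i)
    rw [hstep i] at h1
    have h2 : HH ν (x i) - x i * T ν (x (i + 1)) ≤ H ν (x i) + b * (T ν (x i) - T ν (x (i + 1))) := by
      rw [HH_eq hν]
      have h3 := hle i (Finset.mem_range.1 hi)
      have h4 := hTd i
      nlinarith
    calc (D * T ν (x (i + 1))) ^ 2 = D * (T ν (x (i + 1)) ^ 2 * D) := by ring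
      _ ≤ D * (3 * κ ^ 2 * (ν.real (Ioo (x i) (x (i + 1))) *
          (HH ν (x i) - x i * T ν (x (i + 1))))) := by gcongr
      _ ≤ D * (3 * κ ^ 2 * (ν.real (Ioo (x i) (x (i + 1))) *
          (H ν (x i) + b * (T ν (x i) - T ν (x (i + 1)))))) := by gcongr
      _ = p i * q i := by simp only [hp, hq]; ring
  have hCS := Finset.sum_sq_le_sum_mul_sum_of_sq_le_mul (Finset.range n)
    (r := fun i => D * T ν (x (i + 1))) (f := p) (g := q) (fun i _ => hp0 i) (fun i _ => hq0 i) hpq
  have hpS : ∑ i ∈ Finset.range n, p i ≤ 3 * κ ^ 2 * ν.real (Ioo a b) := by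
    simp only [hp]
    rw [← Finset.mul_sum]
    have := sum_Ioo (ν := ν) x hlt n
    rw [hx0, hxn] at this
    gcongr
  have hqS : ∑ i ∈ Finset.range n, q i ≤ (∫ s in a..b, H ν s) + D * (H ν a + b * T ν a) := by
    simp only [hq]
    rw [Finset.sum_add_distrib]
    have h1 := hlo (H ν) (H_anti hν)
    have h2 := hshift (H ν)
    have h3 := hshift (T ν)
    have h4 := H_nonneg ν b
    have h5 := T_nonneg ν b
    have h7 : ∑ i ∈ Finset.range n, D * b * (T ν (x i) - T ν (x (i + 1))) =
        b * (D * T ν a - D * T ν b) := by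
      have e1 : ∑ i ∈ Finset.range n, D * b * (T ν (x i) - T ν (x (i + 1))) =
          b * (∑ i ∈ Finset.range n, D * T ν (x i) - ∑ i ∈ Finset.range n, D * T ν (x (i + 1))) := by
        rw [← Finset.sum_sub_distrib, Finset.mul_sum]
        exact Finset.sum_congr rfl fun i _ => by ring
      rw [e1]
      congr 1
      linarith
    rw [h7]
    have h8 : 0 ≤ D * H ν b := by positivity
    have h9 : 0 ≤ b * (D * T ν b) := by positivity
    linarith
  have hfin : (∑ i ∈ Finset.range n, D * T ν (x (i + 1))) ^ 2 ≤ 3 * κ ^ 2 * (ν.real (Ioo a b) *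
      ((∫ s in a..b, H ν s) + D * (H ν a + b * T ν a))) := by
    refine hCS.trans ?_
    calc (∑ i ∈ Finset.range n, p i) * ∑ i ∈ Finset.range n, q i
        ≤ (3 * κ ^ 2 * ν.real (Ioo a b)) * ((∫ s in a..b, H ν s) + D * (H ν a + b * T ν a)) := by
          apply mul_le_mul hpS hqS (Finset.sum_nonneg fun i _ => hq0 i)
          positivity
      _ = _ := by ring
  have h10 := Real.abs_le_sqrt hfin
  refine le_trans ?_ (le_trans (le_abs_self _) h10)
  rw [hshift]
  have h11 := hup (T ν) (T_anti ν)
  have h12 : 0 ≤ D * T ν b := mul_nonneg hD0.le (T_nonneg ν b)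
  linarith

/-- step (3) -/
lemma step3 {a b : ℝ} (ha : 0 < a) (hab : a < b) :
    (∫ s in a..b, T ν s) ^ 2 ≤ 3 * κ ^ 2 * (ν.real (Ioo a b) * ∫ s in a..b, H ν s) := by
  have hD : Tendsto (fun n : ℕ => (b - a) / n) atTop (𝓝 0) :=
    tendsto_const_div_atTop_nhds_zero_nat _
  have h1 : Tendsto (fun n : ℕ => (∫ s in a..b, T ν s) - (b - a) / n * T ν a) atTop
      (𝓝 ((∫ s in a..b, T ν s) - 0 * T ν a)) := tendsto_const_nhds.sub (hD.mul_const _)
  have h2 : Tendsto (fun n : ℕ => √(3 * κ ^ 2 * (ν.real (Ioo a b) *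
      ((∫ s in a..b, H ν s) + (b - a) / n * (H ν a + b * T ν a))))) atTop
      (𝓝 (√(3 * κ ^ 2 * (ν.real (Ioo a b) *
      ((∫ s in a..b, H ν s) + 0 * (H ν a + b * T ν a)))))) :=
    (Real.continuous_sqrt.tendsto _).comp
      ((((hD.mul_const _).const_add _).const_mul _).const_mul _)
  have h3 := le_of_tendsto_of_tendsto h1 h2 (by
    filter_upwards [eventually_gt_atTop 0] with n hn
    exact step3a hκ hν hyp ha hab n hn)
  rw [zero_mul, sub_zero, zero_mul, add_zero] at h3
  have h4 : 0 ≤ ∫ s in a..b, T ν s :=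
    intervalIntegral.integral_nonneg hab.le fun s _ => T_nonneg ν s
  have h5 : 0 ≤ ∫ s in a..b, H ν s :=
    intervalIntegral.integral_nonneg hab.le fun s _ => H_nonneg ν s
  calc (∫ s in a..b, T ν s) ^ 2 ≤ (√(3 * κ ^ 2 * (ν.real (Ioo a b) * ∫ s in a..b, H ν s))) ^ 2 :=
        pow_le_pow_left₀ h4 h3 2
    _ = _ := Real.sq_sqrt (by positivity)

end meas

end M10aux

/-- MODULE M10 -/
theorem m10 : M10 := by
  intro ν κ hfin hκ hν hyp a b ha hab
  change (∫ s in a..b, M10aux.T ν s) ^ 2 ≤
    3 * κ ^ 2 * (ν.real (Ioo a b) * ∫ s in a..b, M10aux.H ν s)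
  rcases ha.eq_or_lt with h0 | h0
  · subst h0
    have hc : Continuous fun x : ℝ => ∫ s in x..b, M10aux.T ν s := by
      have h1 : Continuous fun x : ℝ => ∫ s in b..x, M10aux.T ν s :=
        intervalIntegral.continuous_primitive (fun a b => M10aux.T_int a b) b
      have h2 : (fun x : ℝ => ∫ s in x..b, M10aux.T ν s) =
          fun x => -∫ s in b..x, M10aux.T ν s := by
        funext x
        exact intervalIntegral.integral_symm b x
      rw [h2]
      exact h1.neg
    have h3 : Tendsto (fun x : ℝ => (∫ s in x..b, M10aux.T ν s) ^ 2) (𝓝[>] 0)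
        (𝓝 ((∫ s in (0 : ℝ)..b, M10aux.T ν s) ^ 2)) :=
      ((hc.pow 2).tendsto 0).mono_left nhdsWithin_le_nhds
    refine le_of_tendsto h3 ?_
    have hb : ∀ᶠ x in 𝓝[>] (0 : ℝ), x < b := nhdsWithin_le_nhds (gt_mem_nhds hab)
    filter_upwards [hb, self_mem_nhdsWithin] with x h1 h2
    have h2' : 0 < x := h2
    refine (M10aux.step3 hκ hν hyp h2' h1).trans ?_
    have e1 : ∫ s in x..b, M10aux.H ν s ≤ ∫ s in (0 : ℝ)..b, M10aux.H ν s := by
      apply intervalIntegral.integral_mono_interval h2'.le h1.le le_rfl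
      · exact Eventually.of_forall fun x => M10aux.H_nonneg ν x
      · exact M10aux.H_int hν _ _
    have e2 : 0 ≤ ∫ s in x..b, M10aux.H ν s :=
      intervalIntegral.integral_nonneg h1.le fun s _ => M10aux.H_nonneg ν s
    have e3 : ν.real (Ioo x b) ≤ ν.real (Ioo 0 b) :=
      measureReal_mono (Ioo_subset_Ioo_left h2'.le)
    gcongr
  · exact M10aux.step3 hκ hν hyp h0 hab

end Pool.Agent.H25.TI
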