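import Pool.Agent.H25.TI.M10
import Mathlib.Analysis.Real.Pi.Bounds

/-!
# M11: the density and the mean excess
-/

set_option autoImplicit false
open MeasureTheory Filter Topology Set
open scoped ENNReal NNReal

namespace Pool.Agent.H25.TI

open M10aux

variable {ν : Measure ℝ} [IsFiniteMeasure ν]

theorem const_le : 12 * (1 + 1 / Real.pi) ^ 2 ≤ 21 := by
  have h1 : (3.14 : ℝ) < Real.pi := Real.pi_gt_d2
  have h2 : 1 / Real.pi ≤ 1 / 3.14 := one_div_le_one_div_of_le (by norm_num) h1.le
  have h3 : 0 < 1 / Real.pi := by positivity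
  have h4 : 1 + 1 / Real.pi ≤ 1 + 1 / 3.14 := by linarith
  have h5 : (1 + 1 / Real.pi) ^ 2 ≤ (1 + 1 / 3.14) ^ 2 := pow_le_pow_left₀ (by linarith) h4 2
  have h6 : (12 : ℝ) * (1 + 1 / 3.14) ^ 2 ≤ 21 := by norm_num
  linarith

theorem H_step (ix : Integrable (fun x => x) ν) {s s' : ℝ} (h : s ≤ s') :
    H ν s - H ν s' ≤ (s' - s) * T ν s := by
  have e : (s' - s) * T ν s = ∫ x, (Ioi s).indicator (fun _ => s' - s) x ∂ν := by
    rw [integral_indicator measurableSet_Ioi, setIntegral_const, smul_eq_mul]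
    unfold T
    ring
  unfold H
  rw [e, ← integral_sub (int_max ix s) (int_max ix s')]
  refine integral_mono ((int_max ix s).sub (int_max ix s'))
    ((integrable_const _).indicator measurableSet_Ioi) fun x => ?_
  simp only
  by_cases hx : x ∈ Ioi s
  · rw [indicator_of_mem hx]
    have h1 : x - s' ≤ max (x - s') 0 := le_max_left _ _
    rw [max_eq_left (sub_nonneg.2 (le_of_lt hx))]
    linarith
  · rw [indicator_of_notMem hx, max_eq_right (sub_nonpos.2 (not_lt.1 hx))]
    have h1 : 0 ≤ max (x - s') 0 := le_max_right _ _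
    linarith

theorem H_pos {s : ℝ} (ix : Integrable (fun x => x) ν) (hT : 0 < T ν s) : 0 < H ν s := by
  rcases (H_nonneg ν s).lt_or_eq with h1 | h1
  · exact h1
  exfalso
  have h2 := (integral_eq_zero_iff_of_nonneg (fun x => le_max_right (x - s) 0)
    (int_max ix s)).1 h1.symm
  have h3 : ν (Ioi s) = 0 := by
    refine measure_mono_null ?_ h2
    intro x hx h4
    have h5 : max (x - s) 0 = 0 := h4
    have h6 : x - s ≤ max (x - s) 0 := le_max_left _ _
    have h7 : s < x := hx
    linarith
  have h4 : T ν s = 0 := by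
    unfold T
    rw [measureReal_def, h3]
    rfl
  linarith

theorem dens_of {C : ℝ} (hC : 0 ≤ C) (ix : Integrable (fun x => x) ν)
    (h : ∀ a b : ℝ, 0 ≤ a → a < b → (∫ s in a..b, T ν s) ^ 2 ≤
      C * (ν.real (Ioo a b) * ∫ s in a..b, H ν s)) {a b : ℝ} (ha : 0 ≤ a) (hab : a < b) :
    (b - a) * ν.real (Ici b) ^ 2 ≤ C * (ν.real (Ioo a b) * H ν a) := by
  have h0 := h a b ha hab
  have h1 : (b - a) * ν.real (Ici b) ≤ ∫ s in a..b, T ν s := by
    have e : (b - a) * ν.real (Ici b) = ∫ _ in a..b, ν.real (Ici b) := by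
      rw [intervalIntegral.integral_const, smul_eq_mul]
    rw [e]
    refine intervalIntegral.integral_mono_on_of_le_Ioo hab.le (by simp) (T_int a b)
      fun s hs => ?_
    exact measureReal_mono fun x hx => lt_of_lt_of_le hs.2 hx
  have h2 : ∫ s in a..b, H ν s ≤ (b - a) * H ν a := by
    have e : (b - a) * H ν a = ∫ _ in a..b, H ν a := by
      rw [intervalIntegral.integral_const, smul_eq_mul]
    rw [e]
    refine intervalIntegral.integral_mono_on hab.le (H_int ix a b) (by simp) fun s hs => ?_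
    exact H_anti ix hs.1
  have h3 : 0 ≤ ν.real (Ici b) := measureReal_nonneg
  have h4 : 0 ≤ ν.real (Ioo a b) := measureReal_nonneg
  have hba : 0 < b - a := by linarith
  have h5 : ((b - a) * ν.real (Ici b)) ^ 2 ≤ C * (ν.real (Ioo a b) * ((b - a) * H ν a)) :=
    (pow_le_pow_left₀ (by positivity) h1 2).trans (h0.trans
      (mul_le_mul_of_nonneg_left (mul_le_mul_of_nonneg_left h2 h4) hC))
  have h6 : (b - a) * ((b - a) * ν.real (Ici b) ^ 2) ≤
      (b - a) * (C * (ν.real (Ioo a b) * H ν a)) := by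
    calc (b - a) * ((b - a) * ν.real (Ici b) ^ 2) = ((b - a) * ν.real (Ici b)) ^ 2 := by ring
      _ ≤ _ := h5
      _ = _ := by ring
  exact le_of_mul_le_mul_left h6 hba

/-- one step -/
theorem excess_step (ix : Integrable (fun x => x) ν)
    (h : ∀ a b : ℝ, 0 ≤ a → a < b → (∫ s in a..b, T ν s) ^ 2 ≤
      21 * (ν.real (Ioo a b) * ∫ s in a..b, H ν s)) {s s' : ℝ} (hs : 0 ≤ s) (hss : s < s')
    (hT : 0 < T ν s') :
    H ν s / T ν s - (s' - s) / 21 * Real.log (H ν s * T ν s) + 20 / 21 * s ≤
      H ν s' / T ν s' - (s' - s) / 21 * Real.log (H ν s' * T ν s') + 20 / 21 * s' := by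
  have d1 := dens_of (by norm_num) ix h hs hss
  have hT0 : 0 < T ν s := hT.trans_le (T_anti ν hss.le)
  have hH := H_pos ix hT
  have hH0 := H_pos ix hT0
  have st := H_step ix hss.le
  have p1 : ν.real (Ioo s s') ≤ T ν s - T ν s' := by
    rw [← T_sub ν hss.le]
    exact measureReal_mono Ioo_subset_Ioc_self
  have c1 : T ν s' ≤ ν.real (Ici s') := measureReal_mono Ioi_subset_Ici_self
  set δ := s' - s with hδ
  have hδ0 : 0 < δ := by linarith
  set A := H ν s
  set A' := H ν s'
  set B := T ν s
  set B' := T ν s'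
  have d2 : δ * B' ^ 2 ≤ 21 * ((B - B') * A) := by
    have : δ * B' ^ 2 ≤ δ * ν.real (Ici s') ^ 2 :=
      mul_le_mul_of_nonneg_left (pow_le_pow_left₀ hT.le c1 2) hδ0.le
    refine this.trans (d1.trans ?_)
    exact mul_le_mul_of_nonneg_left (mul_le_mul_of_nonneg_right p1 hH0.le) (by norm_num)
  set r := A' * B' / (A * B) with hr
  have hr0 : 0 < r := by positivity
  have lg : Real.log (A' * B') - Real.log (A * B) = Real.log r := by
    rw [hr, Real.log_div (by positivity) (by positivity)]
  have l1 : Real.log r ≤ r - 1 := Real.log_le_sub_one_of_pos hr0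
  -- main
  have m1 : A' / B' - A / B ≥ -δ + δ * r / 21 := by
    have e1 : A' / B' - A / B = (A' - A) / B + A' * (B - B') / (B * B') := by
      field_simp
      ring
    have e2 : (A' - A) / B ≥ -δ := by
      rw [ge_iff_le, le_div_iff₀ hT0]
      linarith
    have e3 : A' * (B - B') / (B * B') ≥ δ * r / 21 := by
      rw [ge_iff_le, le_div_iff₀ (by positivity), hr]
      have e4 : δ * (A' * B' / (A * B)) / 21 * (B * B') = A' * (δ * B' ^ 2) / (21 * A) := by
        field_simp
      rw [e4, div_le_iff₀ (by positivity)]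
      have := mul_le_mul_of_nonneg_left d2 hH.le
      nlinarith
    linarith
  have m2 : δ / 21 * Real.log r ≤ δ / 21 * (r - 1) :=
    mul_le_mul_of_nonneg_left l1 (by positivity)
  have m3 : δ / 21 * Real.log (A' * B') - δ / 21 * Real.log (A * B) = δ / 21 * Real.log r := by
    rw [← mul_sub, lg]
  have m4 : 20 / 21 * s' - 20 / 21 * s = 20 / 21 * δ := by
    rw [hδ]
    ring
  linarith

/-- the mean excess -/
theorem excess (ix : Integrable (fun x => x) ν)
    (h : ∀ a b : ℝ, 0 ≤ a → a < b → (∫ s in a..b, T ν s) ^ 2 ≤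
      21 * (ν.real (Ioo a b) * ∫ s in a..b, H ν s)) {a b : ℝ} (ha : 0 ≤ a) (hab : a < b)
    (hT : 0 < T ν b) : H ν a / T ν a - 20 / 21 * (b - a) ≤ H ν b / T ν b := by
  have key : ∀ n : ℕ, 0 < n → H ν a / T ν a - 20 / 21 * (b - a) ≤ H ν b / T ν b -
      (b - a) / n / 21 * (Real.log (H ν b * T ν b) - Real.log (H ν a * T ν a)) := by
    intro n hn
    have hn' : (0 : ℝ) < n := Nat.cast_pos.2 hn
    set δ := (b - a) / n with hδ
    have hδ0 : 0 < δ := div_pos (by linarith) hn'
    have ind : ∀ i : ℕ, i ≤ n → H ν a / T ν a - δ / 21 * Real.log (H ν a * T ν a) + 20 / 21 * a ≤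
        H ν (a + i * δ) / T ν (a + i * δ) -
          δ / 21 * Real.log (H ν (a + i * δ) * T ν (a + i * δ)) + 20 / 21 * (a + i * δ) := by
      intro i
      induction i with
      | zero =>
        intro _
        simp
      | succ i ih =>
        intro hi
        refine (ih (by omega)).trans ?_
        have h1 : a + ((i + 1 : ℕ) : ℝ) * δ - (a + i * δ) = δ := by
          push_cast
          ring
        have h2 : a + ((i + 1 : ℕ) : ℝ) * δ ≤ b := by
          have h3 : ((i + 1 : ℕ) : ℝ) ≤ n := Nat.cast_le.2 hi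
          have h4 : (n : ℝ) * δ = b - a := by
            rw [hδ]
            field_simp
          have h5 := mul_le_mul_of_nonneg_right h3 hδ0.le
          linarith
        have h3 := excess_step ix h (s := a + i * δ) (s' := a + ((i + 1 : ℕ) : ℝ) * δ)
          (by positivity) (by linarith) (hT.trans_le (T_anti ν h2))
        rw [h1] at h3
        exact h3
    have h1 := ind n le_rfl
    have h2 : a + (n : ℝ) * δ = b := by
      rw [hδ]
      field_simp
      ring
    rw [h2] at h1
    linarith
  have lim : Tendsto (fun n : ℕ => H ν b / T ν b -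
      (b - a) / n / 21 * (Real.log (H ν b * T ν b) - Real.log (H ν a * T ν a))) atTop
      (𝓝 (H ν b / T ν b)) := by
    have h1 : Tendsto (fun n : ℕ => (b - a) / n) atTop (𝓝 0) :=
      tendsto_const_div_atTop_nhds_zero_nat (b - a)
    have h2 := ((h1.div_const 21).mul_const
      (Real.log (H ν b * T ν b) - Real.log (H ν a * T ν a))).const_sub (H ν b / T ν b)
    simpa using h2
  refine ge_of_tendsto lim ?_
  filter_upwards [eventually_gt_atTop 0] with n hn
  exact key n hn

end Pool.Agent.H25.TI
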