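import Pool.Agent.H25.TI.M9
import Pool.Agent.H25.TI.M11

/-!
# M12: both signs
-/

set_option autoImplicit false
open MeasureTheory Filter Topology Complex Set
open scoped ContDiff ENNReal NNReal
open Pool.Agent.E8helper19.EN (Hy gsq lapl S_IBP S_VAG S_FUB HH VV EE En)

namespace Pool.Agent.H25.TI

noncomputable section

theorem lapl_neg (f : ℂ → ℝ) (z : ℂ) : lapl (fun w => -f w) z = -lapl f z := by
  unfold lapl
  have e : ∀ v : ℂ, (fun w => fderiv ℝ (fun w => -f w) w v) = fun w => -(fderiv ℝ f w v) := by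
    intro v
    funext w
    rw [fderiv_fun_neg]
    rfl
  rw [e 1, e I, fderiv_fun_neg, fderiv_fun_neg]
  simp only [neg_apply]
  ring

theorem Hy_neg {Ω : Set ℂ} {ρ : ℂ → ℝ} {lam : ℕ → ℝ} {u : ℕ → ℂ → ℝ} {φ : ℂ → ℝ}
    (H : Hy Ω ρ lam u φ) : Hy Ω ρ lam (fun n z => -u n z) φ where
  oΩ := H.oΩ
  sρ := H.sρ
  pρ := H.pρ
  ll := H.ll
  su := fun n => (H.su n).neg
  eq := fun n z hz => by
    have h1 := H.eq n z hz
    have h2 := lapl_neg (u n) z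
    rw [h2]
    linarith
  bd := fun K hK hKΩ => by
    obtain ⟨C, hC⟩ := H.bd K hK hKΩ
    refine ⟨C, hC.mono fun n hn => ?_⟩
    simpa only [neg_sq] using hn
  sφ := H.sφ
  cφ := H.cφ
  tφ := H.tφ
  φ0 := H.φ0

variable {ι : Type} [Fintype ι] {Ω : ι → Set ℂ} {ρ φ : ι → ℂ → ℝ} {lam : ℕ → ℝ}
  {u : ι → ℕ → ℂ → ℝ}

theorem VV_neg (n : ℕ) (g : ℝ → ℝ) :
    VV ρ φ (fun i n z => -u i n z) n g = VV ρ φ u n (fun x => g (-x)) := rfl

/-- the conclusion for a law -/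
def Cl (ν : Measure ℝ) : Prop := ∀ a b : ℝ, 0 ≤ a → a < b →
  (∫ s in a..b, ν.real (Ioi s)) ^ 2 ≤ 12 * (1 + 1 / Real.pi) ^ 2 *
    (ν.real (Ioo a b) * ∫ s in a..b, ∫ x, max (x - s) 0 ∂ν) ∧
  (0 < ν.real (Ioi b) → (∫ x, max (x - a) 0 ∂ν) / ν.real (Ioi a) - 20 / 21 * (b - a) ≤
    (∫ x, max (x - b) 0 ∂ν) / ν.real (Ioi b))

theorem cl_of [Nonempty ι] (h1 : S_IBP) (hv : S_VAG) (hf : S_FUB) (h2 : M2) (h5 : M5)
    (h6 : M6) (H : ∀ i, Hy (Ω i) (ρ i) lam (u i) (φ i)) {ν : Measure ℝ} (hν : IsFiniteMeasure ν)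
    (hlim : ∀ g : ℝ → ℝ, Continuous g → HasCompactSupport g →
      Tendsto (fun n => VV ρ φ u n g) atTop (𝓝 (∫ x, g x ∂ν))) : Cl ν := by
  obtain ⟨ix, h⟩ := tail h1 hv hf h2 h5 h6 H hν hlim
  intro a b ha hab
  refine ⟨h a b ha hab, fun hT => ?_⟩
  refine excess ix (fun a b ha hab => ?_) ha hab hT
  refine (h a b ha hab).trans ?_
  refine mul_le_mul_of_nonneg_right const_le ?_
  refine mul_nonneg measureReal_nonneg ?_
  exact intervalIntegral.integral_nonneg hab.le fun s _ => M10aux.H_nonneg ν s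

theorem cl_both [Nonempty ι] (h1 : S_IBP) (hv : S_VAG) (hf : S_FUB) (h2 : M2) (h5 : M5)
    (h6 : M6) (H : ∀ i, Hy (Ω i) (ρ i) lam (u i) (φ i)) {ν : Measure ℝ} (hν : IsFiniteMeasure ν)
    (hlim : ∀ g : ℝ → ℝ, Continuous g → HasCompactSupport g →
      Tendsto (fun n => VV ρ φ u n g) atTop (𝓝 (∫ x, g x ∂ν))) :
    Cl ν ∧ Cl (ν.map fun x => -x) := by
  refine ⟨cl_of h1 hv hf h2 h5 h6 H hν hlim, ?_⟩
  have hν' : IsFiniteMeasure (ν.map fun x => -x) := by infer_instance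
  refine cl_of h1 hv hf h2 h5 h6 (u := fun i n z => -u i n z) (fun i => Hy_neg (H i)) hν' ?_
  intro g hg hgc
  have hc : HasCompactSupport (fun x => g (-x)) := hgc.comp_homeomorph (Homeomorph.neg ℝ)
  have h := hlim (fun x => g (-x)) (hg.comp continuous_neg) hc
  have e : ∫ x, g x ∂(ν.map fun x => -x) = ∫ x, g (-x) ∂ν :=
    integral_map (by fun_prop) hg.aestronglyMeasurable
  rw [e]
  exact h

end

end Pool.Agent.H25.TI
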