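import Pool.Agent.H25.TI.Stm
import Pool.Graph.R_pool_sql_team_seeded_3997aac3.Q73.NL.T8

/-!
Smooth approximation of the test function `cos (α - min (k δ) α) - cos α`.
-/

set_option autoImplicit false
open MeasureTheory Filter Topology Complex Set
open scoped ContDiff ENNReal ComplexConjugate Convolution
open Pool.Agent.Q73.NL (dx dy grad_le bmp infDist_lip)

namespace Pool.Agent.H25.TI

noncomputable section

theorem th_mem {α k s : ℝ} (hα : 0 < α) (hk : 0 < k) (hs : 0 ≤ s) :
    0 ≤ α - min (k * s) α ∧ α - min (k * s) α ≤ α := by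
  have h1 := min_le_right (k * s) α
  have h2 : 0 ≤ min (k * s) α := le_min (by positivity) hα.le
  constructor <;> linarith

theorem th_lip {α k : ℝ} (hk : 0 < k) (s s' : ℝ) :
    |(α - min (k * s) α) - (α - min (k * s') α)| ≤ k * |s - s'| := by
  rw [sub_sub_sub_cancel_left]
  refine (abs_min_sub_min_le_max _ _ _ _).trans ?_
  rw [sub_self, abs_zero, ← mul_sub, abs_mul, abs_of_pos hk, max_eq_left (by positivity), abs_sub_comm]

/-- the profile -/
def Gs (α k s : ℝ) : ℝ := Real.cos (α - min (k * max s 0) α) - Real.cos α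

theorem Gs_zero {α k s : ℝ} (hα : 0 < α) (hs : s ≤ 0) : Gs α k s = 0 := by
  unfold Gs
  rw [max_eq_right hs, mul_zero, min_eq_left hα.le, sub_zero, sub_self]

theorem Gs_cont {α k : ℝ} : Continuous (Gs α k) := by
  unfold Gs
  fun_prop

theorem Gs_mem {α k : ℝ} (hα : 0 < α) (hα' : α ≤ Real.pi / 2) (hk : 0 < k) (s : ℝ) :
    0 ≤ Gs α k s ∧ Gs α k s ≤ 1 - Real.cos α := by
  have h1 := th_mem hα hk (le_max_right s 0)
  unfold Gs
  have h2 := Real.cos_le_cos_of_nonneg_of_le_pi h1.1 (by linarith [Real.pi_pos]) h1.2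
  have h3 := Real.cos_le_one (α - min (k * max s 0) α)
  constructor <;> linarith

theorem cos_lip {φ x y : ℝ} (h0 : φ ≤ Real.pi / 2) (hx : 0 ≤ x) (hx' : x ≤ φ) (hy : 0 ≤ y)
    (hy' : y ≤ φ) : |Real.cos x - Real.cos y| ≤ Real.sin φ * |x - y| := by
  have h1 : ∀ z ∈ Icc 0 φ, ‖deriv Real.cos z‖ ≤ Real.sin φ := by
    intro z hz
    rw [Real.deriv_cos, norm_neg, Real.norm_eq_abs, abs_of_nonneg]
    · exact Real.sin_le_sin_of_le_of_le_pi_div_two (by linarith [hz.1, Real.pi_pos]) h0 hz.2
    · exact Real.sin_nonneg_of_nonneg_of_le_pi hz.1 (by linarith [hz.2, Real.pi_pos])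
  exact (convex_Icc 0 φ).norm_image_sub_le_of_norm_deriv_le
    (fun z _ => Real.differentiableAt_cos) h1 ⟨hy, hy'⟩ ⟨hx, hx'⟩

theorem Gs_lip {α k m s s' : ℝ} (hα : 0 < α) (hα' : α ≤ Real.pi / 2) (hk : 0 < k) (hs : m ≤ s)
    (hs' : m ≤ s') :
    |Gs α k s - Gs α k s'| ≤ k * Real.sin (α - min (k * max m 0) α) * |s - s'| := by
  have h1 := th_mem hα hk (le_max_right m 0)
  have h2 : ∀ x, m ≤ x → α - min (k * max x 0) α ≤ α - min (k * max m 0) α := by
    intro x hx
    have : min (k * max m 0) α ≤ min (k * max x 0) α :=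
      min_le_min (mul_le_mul_of_nonneg_left (max_le_max hx le_rfl) hk.le) le_rfl
    linarith
  have hc : 0 ≤ Real.sin (α - min (k * max m 0) α) :=
    Real.sin_nonneg_of_nonneg_of_le_pi h1.1 (by linarith [Real.pi_pos, h1.2])
  unfold Gs
  rw [sub_sub_sub_cancel_right]
  refine (cos_lip (by linarith [h1.2]) (th_mem hα hk (le_max_right s 0)).1 (h2 s hs)
    (th_mem hα hk (le_max_right s' 0)).1 (h2 s' hs')).trans ?_
  have h3 : |(α - min (k * max s 0) α) - (α - min (k * max s' 0) α)| ≤ k * |s - s'| := by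
    refine (th_lip hk _ _).trans (mul_le_mul_of_nonneg_left ?_ hk.le)
    refine (abs_max_sub_max_le_max _ _ _ _).trans ?_
    rw [sub_self, abs_zero, max_eq_left (abs_nonneg _)]
  calc _ ≤ Real.sin (α - min (k * max m 0) α) * (k * |s - s'|) :=
        mul_le_mul_of_nonneg_left h3 hc
    _ = _ := by ring

theorem Gs_lip' {α k : ℝ} (hα : 0 < α) (hα' : α ≤ Real.pi / 2) (hk : 0 < k) (s s' : ℝ) :
    |Gs α k s - Gs α k s'| ≤ k * |s - s'| := by
  refine (Gs_lip hα hα' hk (min_le_left s s') (min_le_right s s')).trans ?_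
  have := Real.sin_le_one (α - min (k * max (min s s') 0) α)
  have h2 : k * Real.sin (α - min (k * max (min s s') 0) α) ≤ k := by nlinarith
  exact mul_le_mul_of_nonneg_right h2 (abs_nonneg _)

theorem abs_sin_sub_sin_le' (x y : ℝ) : |Real.sin x - Real.sin y| ≤ |x - y| := by
  have h := Real.abs_cos_sub_cos_le (Real.pi / 2 - x) (Real.pi / 2 - y)
  rw [Real.cos_pi_div_two_sub, Real.cos_pi_div_two_sub, sub_sub_sub_cancel_left, abs_sub_comm y x] at h
  exact h

theorem sin_sq_lip (x y : ℝ) : Real.sin x ^ 2 ≤ Real.sin y ^ 2 + 2 * |x - y| := by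
  have h1 : |Real.sin x - Real.sin y| ≤ |x - y| := abs_sin_sub_sin_le' x y
  have h2 : |Real.sin x + Real.sin y| ≤ 2 := by
    refine (abs_add_le _ _).trans ?_
    linarith [Real.abs_sin_le_one x, Real.abs_sin_le_one y]
  have h3 : Real.sin x ^ 2 - Real.sin y ^ 2 = (Real.sin x - Real.sin y) * (Real.sin x + Real.sin y) := by
    ring
  have h4 : Real.sin x ^ 2 - Real.sin y ^ 2 ≤ |x - y| * 2 := by
    rw [h3]
    refine (le_abs_self _).trans ?_
    rw [abs_mul]
    exact mul_le_mul h1 h2 (abs_nonneg _) (abs_nonneg _)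
  linarith

/-- the approximation -/
def gb (α k b : ℝ) (hb : 0 < b) (A : Set ℂ) : ℂ → ℝ :=
  (bmp b hb).normed volume ⋆[ContinuousLinearMap.lsmul ℝ ℝ, volume]
    (fun z => Gs α k (Metric.infDist z A - 2 * b))

theorem g0_cont (α k b : ℝ) (A : Set ℂ) :
    Continuous fun z : ℂ => Gs α k (Metric.infDist z A - 2 * b) :=
  Gs_cont.comp ((Metric.continuous_infDist_pt A).sub continuous_const)

theorem gb_smooth (α k b : ℝ) (hb : 0 < b) (A : Set ℂ) : ContDiff ℝ ∞ (gb α k b hb A) :=
  HasCompactSupport.contDiff_convolution_left (ContinuousLinearMap.lsmul ℝ ℝ)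
    (bmp b hb).hasCompactSupport_normed (bmp b hb).contDiff_normed
    (g0_cont α k b A).locallyIntegrable

theorem gb_apply (α k b : ℝ) (hb : 0 < b) (A : Set ℂ) (z : ℂ) : gb α k b hb A z =
    ∫ t, (bmp b hb).normed volume t * Gs α k (Metric.infDist (z - t) A - 2 * b) := rfl

theorem gb_int (α k b : ℝ) (hb : 0 < b) (A : Set ℂ) (w : ℂ) : Integrable fun t : ℂ =>
    (bmp b hb).normed volume t * Gs α k (Metric.infDist (w - t) A - 2 * b) := by
  have h2 : Continuous fun t : ℂ => (bmp b hb).normed volume t *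
      Gs α k (Metric.infDist (w - t) A - 2 * b) :=
    (bmp b hb).continuous_normed.mul ((g0_cont α k b A).comp (continuous_const.sub continuous_id))
  exact h2.integrable_of_hasCompactSupport ((bmp b hb).hasCompactSupport_normed.mul_right)

theorem gb_mem {α k b : ℝ} (hα : 0 < α) (hα' : α ≤ Real.pi / 2) (hk : 0 < k) (hb : 0 < b)
    (A : Set ℂ) (z : ℂ) : 0 ≤ gb α k b hb A z ∧ gb α k b hb A z ≤ 1 - Real.cos α := by
  rw [gb_apply]
  constructor
  · exact integral_nonneg fun t =>
      mul_nonneg ((bmp b hb).nonneg_normed t) (Gs_mem hα hα' hk _).1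
  · have h1 : ∫ t : ℂ, (bmp b hb).normed volume t * (1 - Real.cos α) = 1 - Real.cos α := by
      rw [integral_mul_const, (bmp b hb).integral_normed, one_mul]
    rw [← h1]
    refine integral_mono (gb_int α k b hb A z) ?_ fun t => ?_
    · exact ((bmp b hb).continuous_normed.integrable_of_hasCompactSupport
        (bmp b hb).hasCompactSupport_normed).mul_const _
    · exact mul_le_mul_of_nonneg_left (Gs_mem hα hα' hk _).2 ((bmp b hb).nonneg_normed t)

theorem gb_zero {α k b : ℝ} (hα : 0 < α) (hb : 0 < b) {A : Set ℂ} {z : ℂ}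
    (hz : Metric.infDist z A < b) : gb α k b hb A z = 0 := by
  rw [gb_apply]
  refine integral_eq_zero_of_ae (Eventually.of_forall fun t => ?_)
  simp only [Pi.zero_apply]
  by_cases ht : ‖t‖ < b
  · have h1 := abs_le.1 (infDist_lip A (z - t) z)
    have h2 : ‖z - t - z‖ = ‖t‖ := by rw [sub_sub_cancel_left, norm_neg]
    rw [h2] at h1
    rw [Gs_zero hα (by linarith [h1.2]), mul_zero]
  · have h1 : t ∉ Function.support ((bmp b hb).normed (volume : Measure ℂ)) := by
      rw [(bmp b hb).support_normed_eq, mem_ball_zero_iff]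
      exact ht
    rw [Function.notMem_support.1 h1, zero_mul]

theorem gb_approx {α k b : ℝ} (hα : 0 < α) (hα' : α ≤ Real.pi / 2) (hk : 0 < k) (hb : 0 < b)
    (A : Set ℂ) (z : ℂ) :
    |gb α k b hb A z - (Real.cos (ang α k A z) - Real.cos α)| ≤ 3 * k * b := by
  have h1 : dist (gb α k b hb A z) (Gs α k (Metric.infDist z A - 2 * b)) ≤ k * b := by
    refine ContDiffBump.dist_normed_convolution_le (φ := bmp b hb) (x₀ := z)
      (g := fun z => Gs α k (Metric.infDist z A - 2 * b))
      (g0_cont α k b A).aestronglyMeasurable ?_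
    intro x hx
    rw [Real.dist_eq]
    refine (Gs_lip' hα hα' hk _ _).trans (mul_le_mul_of_nonneg_left ?_ hk.le)
    rw [sub_sub_sub_cancel_right]
    refine (infDist_lip A x z).trans ?_
    rw [← dist_eq_norm]
    exact (Metric.mem_ball.1 hx).le
  have h3 : Real.cos (ang α k A z) - Real.cos α = Gs α k (Metric.infDist z A) := by
    unfold ang Gs
    rw [max_eq_left Metric.infDist_nonneg]
  have h2 : |Gs α k (Metric.infDist z A - 2 * b) - Gs α k (Metric.infDist z A)| ≤
      k * (2 * b) := by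
    refine (Gs_lip' hα hα' hk _ _).trans ?_
    rw [sub_sub_cancel_left, abs_neg, abs_of_pos (by positivity)]
  rw [h3]
  rw [Real.dist_eq] at h1
  have h4 := abs_sub_le (gb α k b hb A z) (Gs α k (Metric.infDist z A - 2 * b))
    (Gs α k (Metric.infDist z A))
  linarith

theorem gb_grad {α k b : ℝ} (hα : 0 < α) (hα' : α ≤ Real.pi / 2) (hk : 0 < k) (hb : 0 < b)
    (A : Set ℂ) (z : ℂ) :
    ‖fderiv ℝ (gb α k b hb A) z‖ ≤
      k * Real.sin (α - min (k * max (Metric.infDist z A - 4 * b) 0) α) := by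
  set K := k * Real.sin (α - min (k * max (Metric.infDist z A - 4 * b) 0) α) with hK
  have h1 := th_mem hα hk (le_max_right (Metric.infDist z A - 4 * b) 0)
  have hk0 : 0 ≤ K := mul_nonneg hk.le
    (Real.sin_nonneg_of_nonneg_of_le_pi h1.1 (by linarith [Real.pi_pos, h1.2]))
  refine norm_fderiv_le_of_lip' ℝ hk0 ?_
  filter_upwards [Metric.ball_mem_nhds z hb] with z' hz'
  have hz : ‖z' - z‖ < b := by rwa [Metric.mem_ball, dist_eq_norm] at hz'
  rw [gb_apply, gb_apply, ← integral_sub (gb_int α k b hb A z') (gb_int α k b hb A z)]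
  have hb2 : Integrable fun t : ℂ => (bmp b hb).normed volume t * (K * ‖z' - z‖) :=
    ((bmp b hb).continuous_normed.integrable_of_hasCompactSupport
      (bmp b hb).hasCompactSupport_normed).mul_const _
  have h3 : ∫ t : ℂ, (bmp b hb).normed volume t * (K * ‖z' - z‖) = K * ‖z' - z‖ := by
    rw [integral_mul_const, (bmp b hb).integral_normed, one_mul]
  rw [← h3]
  refine norm_integral_le_of_norm_le hb2 (Eventually.of_forall fun t => ?_)
  rw [← mul_sub, norm_mul, Real.norm_eq_abs, Real.norm_eq_abs,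
    abs_of_nonneg ((bmp b hb).nonneg_normed t)]
  by_cases ht : ‖t‖ < b
  · refine mul_le_mul_of_nonneg_left ?_ ((bmp b hb).nonneg_normed t)
    have h4 : ∀ w : ℂ, ‖w - z‖ < b →
        Metric.infDist z A - 4 * b ≤ Metric.infDist (w - t) A - 2 * b := by
      intro w hw
      have h5 := abs_le.1 (infDist_lip A z (w - t))
      have h6 : ‖z - (w - t)‖ ≤ ‖w - z‖ + ‖t‖ := by
        have h7 : z - (w - t) = t - (w - z) := by ring
        rw [h7]
        refine (norm_sub_le _ _).trans ?_
        linarith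
      linarith [h5.2]
    refine (Gs_lip hα hα' hk (h4 z' hz) (h4 z (by simpa using hb))).trans ?_
    refine mul_le_mul_of_nonneg_left ?_ hk0
    rw [sub_sub_sub_cancel_right]
    refine (infDist_lip A _ _).trans ?_
    rw [sub_sub_sub_cancel_right]
  · have h5 : t ∉ Function.support ((bmp b hb).normed (volume : Measure ℂ)) := by
      rw [(bmp b hb).support_normed_eq, mem_ball_zero_iff]
      exact ht
    rw [Function.notMem_support.1 h5, zero_mul, zero_mul]

theorem m2 : M2 := by
  intro A α k ε hA hne hbd hα hα' hk hε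
  obtain ⟨b, hb, hb1, hb2⟩ : ∃ b : ℝ, 0 < b ∧ 3 * k * b ≤ ε ∧ 8 * k ^ 3 * b ≤ ε := by
    refine ⟨min (ε / (3 * k)) (ε / (8 * k ^ 3)), by positivity, ?_, ?_⟩
    · rw [mul_comm, ← le_div_iff₀ (by positivity)]
      exact min_le_left _ _
    · rw [mul_comm, ← le_div_iff₀ (by positivity)]
      exact min_le_right _ _
  have hsup : tsupport (gb α k b hb A) ⊆ {z | b ≤ Metric.infDist z A} := by
    refine closure_minimal ?_ (isClosed_le continuous_const (Metric.continuous_infDist_pt A))
    intro z hz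
    by_contra h
    exact hz (gb_zero hα hb (not_le.1 h))
  have hsup2 : tsupport (gb α k b hb A) ⊆ Aᶜ := by
    intro z hz hzA
    have h1 := hsup hz
    rw [mem_ofPred_eq, Metric.infDist_zero_of_mem hzA] at h1
    linarith
  refine ⟨gb α k b hb A, gb_smooth α k b hb A, ?_, hsup2, ?_⟩
  · exact Metric.isCompact_of_isClosed_isBounded (isClosed_tsupport _) (hbd.subset hsup2)
  · intro z
    refine ⟨(gb_mem hα hα' hk hb A z).1, (gb_mem hα hα' hk hb A z).2,
      (gb_approx hα hα' hk hb A z).trans hb1, ?_⟩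
    refine (grad_le _ z).trans ?_
    have h1 := gb_grad hα hα' hk hb A z
    have h2 := pow_le_pow_left₀ (norm_nonneg _) h1 2
    refine h2.trans ?_
    rw [mul_pow]
    have h3 := sin_sq_lip (α - min (k * max (Metric.infDist z A - 4 * b) 0) α)
      (α - min (k * Metric.infDist z A) α)
    have h4 : |(α - min (k * max (Metric.infDist z A - 4 * b) 0) α) -
        (α - min (k * Metric.infDist z A) α)| ≤ k * (4 * b) := by
      refine (th_lip hk _ _).trans (mul_le_mul_of_nonneg_left ?_ hk.le)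
      have h5 : 0 ≤ Metric.infDist z A := Metric.infDist_nonneg
      rw [abs_le]
      rcases le_total (Metric.infDist z A - 4 * b) 0 with h6 | h6
      · rw [max_eq_right h6]
        constructor <;> linarith
      · rw [max_eq_left h6]
        constructor <;> linarith
    unfold ang
    nlinarith [sq_nonneg k, mul_pos hk hk]

end

end Pool.Agent.H25.TI
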