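import Pool.Agent.H25.TI.Stm

/-!
# M3: a smooth cut-off of the identity
-/

set_option autoImplicit false
open MeasureTheory Filter Topology Set
open scoped ContDiff

namespace Pool.Agent.H25.TI

/-- a smooth function `Θ` with `Θ' = θ`, near `min t s` for `t ≥ 0` -/
theorem m3 (s ε : ℝ) (hs : 0 < s) (hε : 0 < ε) : ∃ (θ Θ : ℝ → ℝ) (e : ℝ), 0 < e ∧ e ≤ s ∧
    ContDiff ℝ ∞ θ ∧ ContDiff ℝ ∞ Θ ∧ (∀ t, HasDerivAt Θ (θ t) t) ∧ (∀ t, 0 ≤ θ t) ∧
    (∀ t, θ t ≤ 1) ∧ (∀ t, s ≤ t → θ t = 0) ∧ (∀ t, t ≤ e → Θ t = 0) ∧ (∀ t, 0 ≤ Θ t) ∧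
    (∀ t, Θ t ≤ s) ∧ (∀ t, 0 ≤ t → Θ t ≤ t) ∧ (∀ t, 0 ≤ t → t ≤ s → t - ε ≤ Θ t) ∧
    (∀ t, s ≤ t → s - ε ≤ Θ t) := by
  set e : ℝ := min (s / 8) (ε / 4) with he
  have he0 : 0 < e := lt_min (by positivity) (by positivity)
  have he1 : e ≤ s / 8 := min_le_left _ _
  have he2 : e ≤ ε / 4 := min_le_right _ _
  let B : ContDiffBump (s / 2) := ⟨s / 2 - 2 * e, s / 2 - e, by linarith, by linarith⟩
  set θ : ℝ → ℝ := fun t => B t with hθ
  have hθs : ContDiff ℝ ∞ θ := B.contDiff
  have hθc : Continuous θ := hθs.continuous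
  have h0 : ∀ t, 0 ≤ θ t := fun t => B.nonneg
  have h1 : ∀ t, θ t ≤ 1 := fun t => B.le_one
  have hz : ∀ t, s / 2 - e ≤ |t - s / 2| → θ t = 0 := fun t ht => B.zero_of_le_dist (by
    rw [Real.dist_eq]
    exact ht)
  have ho : ∀ t, |t - s / 2| ≤ s / 2 - 2 * e → θ t = 1 := fun t ht => B.one_of_mem_closedBall (by
    rw [Metric.mem_closedBall, Real.dist_eq]
    exact ht)
  set Θ : ℝ → ℝ := fun t => ∫ x in (0 : ℝ)..t, θ x with hΘ
  have hi : ∀ a b : ℝ, IntervalIntegrable θ volume a b := fun a b => hθc.intervalIntegrable _ _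
  have hd : ∀ t, HasDerivAt Θ (θ t) t := fun t =>
    intervalIntegral.integral_hasDerivAt_right (hi _ _) (hθc.stronglyMeasurableAtFilter _ _)
      hθc.continuousAt
  have hdd : deriv Θ = θ := funext fun t => (hd t).deriv
  have hΘs : ContDiff ℝ ∞ Θ := by
    rw [contDiff_infty_iff_deriv]
    exact ⟨fun t => (hd t).differentiableAt, by rw [hdd]; exact hθs⟩
  have zero1 : ∀ t, t ≤ e → θ t = 0 := fun t ht => hz t (by
    rw [abs_of_nonpos (by linarith)]
    linarith)
  have zero2 : ∀ t, s ≤ t → θ t = 0 := fun t ht => hz t (by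
    rw [abs_of_nonneg (by linarith)]
    linarith)
  have T0 : ∀ t, t ≤ e → Θ t = 0 := by
    intro t ht
    rw [hΘ]
    simp only
    rw [intervalIntegral.integral_congr (g := fun _ => (0 : ℝ)), intervalIntegral.integral_zero]
    intro x hx
    refine zero1 x ?_
    rcases le_total 0 t with h | h
    · rw [uIcc_of_le h] at hx
      linarith [hx.2]
    · rw [uIcc_of_ge h] at hx
      linarith [hx.2]
  have Tmono : Monotone Θ := monotone_of_deriv_nonneg (hΘs.differentiable (by simp)) (fun t => by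
    rw [hdd]
    exact h0 t)
  have Tn : ∀ t, 0 ≤ Θ t := by
    intro t
    rcases le_total t 0 with h | h
    · rw [T0 t (h.trans he0.le)]
    · have := Tmono h
      rwa [T0 0 he0.le] at this
  have Tle : ∀ t, 0 ≤ t → Θ t ≤ t := by
    intro t ht
    have := intervalIntegral.integral_mono_on ht (hi 0 t) (intervalIntegrable_const (c := (1 : ℝ)))
      (fun x _ => h1 x)
    simpa [hΘ] using this
  have Tconst : ∀ t, s ≤ t → Θ t = Θ s := by
    intro t ht
    have e1 : Θ t = Θ s + ∫ x in s..t, θ x := by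
      rw [hΘ]
      exact (intervalIntegral.integral_add_adjacent_intervals (hi _ _) (hi _ _)).symm
    rw [e1, intervalIntegral.integral_congr (g := fun _ => (0 : ℝ)), intervalIntegral.integral_zero,
      add_zero]
    intro x hx
    rw [uIcc_of_le ht] at hx
    exact zero2 x hx.1
  have Tb : ∀ t, Θ t ≤ s := by
    intro t
    rcases le_total s t with h | h
    · rw [Tconst t h]
      exact Tle s hs.le
    · rcases le_total 0 t with h' | h'
      · exact (Tle t h').trans h
      · rw [T0 t (h'.trans he0.le)]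
        exact hs.le
  -- lower bound
  have low1 : ∀ t, 2 * e ≤ t → t ≤ s - 2 * e → Θ t ≥ t - 2 * e := by
    intro t h2 h3
    have e1 : Θ t = Θ (2 * e) + ∫ x in (2 * e)..t, θ x := by
      rw [hΘ]
      exact (intervalIntegral.integral_add_adjacent_intervals (hi _ _) (hi _ _)).symm
    have e2 : ∫ x in (2 * e)..t, θ x = ∫ x in (2 * e)..t, (1 : ℝ) := by
      refine intervalIntegral.integral_congr fun x hx => ?_
      rw [uIcc_of_le h2] at hx
      refine ho x ?_
      rw [abs_le]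
      constructor <;> linarith [hx.1, hx.2]
    rw [e1, e2, intervalIntegral.integral_const, smul_eq_mul, mul_one]
    linarith [Tn (2 * e)]
  have low2 : ∀ t, 0 ≤ t → t ≤ s → t - ε ≤ Θ t := by
    intro t ht hts
    rcases le_total t (2 * e) with h | h
    · linarith [Tn t]
    rcases le_total t (s - 2 * e) with h' | h'
    · linarith [low1 t h h']
    · have h3 := low1 (s - 2 * e) (by linarith) le_rfl
      have h4 := Tmono h'
      linarith
  refine ⟨θ, Θ, e, he0, by linarith, hθs, hΘs, hd, h0, h1, zero2, T0, Tn, Tb, Tle, low2,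
    fun t ht => ?_⟩
  rw [Tconst t ht]
  exact low2 s hs.le le_rfl

end Pool.Agent.H25.TI
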