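import Pool.Agent.H25.TI.M1
import Pool.Agent.H25.TI.M3
import Pool.Graph.R_pool_sql_team_seeded_b677cdb8.E8helper33.EN.Ibp

/-!
# M4: the inequality at a level
-/

set_option autoImplicit false
open MeasureTheory Filter Topology Complex Set
open scoped ContDiff ENNReal NNReal
open Pool.Agent.Q73.NL (dx dy lap Sol)

namespace Pool.Agent.H25.TI

/-- the part where `u > s` -/
def up (Ω : Set ℂ) (u : ℂ → ℝ) (s : ℝ) : Set ℂ := {z | z ∈ Ω ∧ s < u z}

theorem up_open {Ω : Set ℂ} {u : ℂ → ℝ} (hΩ : IsOpen Ω) (hu : ContinuousOn u Ω) (s : ℝ) :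
    IsOpen (up Ω u s) := by
  have := hu.isOpen_inter_preimage hΩ (isOpen_Ioi (a := s))
  exact this

theorem low_compl (Ω : Set ℂ) (u : ℂ → ℝ) (s : ℝ) : (low Ω u s)ᶜ = up Ω u s := by
  ext z
  simp only [low, up, mem_compl_iff, mem_ofPred_eq]
  constructor
  · intro h
    by_contra h'
    push Not at h'
    exact h h'
  · rintro ⟨h1, h2⟩ h3
    linarith [h3 h1]

theorem ang_mem {α k : ℝ} (A : Set ℂ) (z : ℂ) (hα : 0 < α) (hk : 0 < k) :
    0 ≤ ang α k A z ∧ ang α k A z ≤ α := by
  unfold ang
  have h1 : 0 ≤ k * Metric.infDist z A := mul_nonneg hk.le Metric.infDist_nonneg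
  constructor
  · linarith [min_le_right (k * Metric.infDist z A) α]
  · linarith [le_min h1 hα.le]

theorem ang_cont (α k : ℝ) (A : Set ℂ) : Continuous (ang α k A) := by
  unfold ang
  exact continuous_const.sub ((continuous_const.mul (Metric.continuous_infDist_pt A)).min
    continuous_const)

/-- The inequality at the level `s`. -/
theorem m4 (h2 : M2) (Ω : Set ℂ) (V u φ : ℂ → ℝ) (α k s : ℝ) (hΩ : IsOpen Ω)
    (hb : Bornology.IsBounded Ω) (hs : Sol Ω V u) (hV : ContDiffOn ℝ ∞ V Ω)
    (hV0 : ∀ z ∈ Ω, 0 ≤ V z) (hφ : ContDiff ℝ ∞ φ) (hφc : HasCompactSupport φ)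
    (hsub : tsupport φ ⊆ Ω) (hφ0 : ∀ z, 0 ≤ φ z) (hα : 0 < α) (hα' : α ≤ Real.pi / 2) (hk : 0 < k)
    (hs0 : 0 < s) :
    (∫ z in up Ω u s, φ z * (V z * Real.cos (ang α k (low Ω u s) z) ^ 2 -
        k ^ 2 * Real.sin (ang α k (low Ω u s) z) ^ 2)) ≤
      Real.cos α ^ 2 / s * (∫ z in up Ω u s, φ z * (V z * u z)) +
      (1 / s) * (∫ z, (|dx φ z| * |dx u z| + |dy φ z| * |dy u z|)) +
      (1 / s) * (∫ z, |lap φ z| * |u z|) := by
  set A := low Ω u s with hA
  have huo : IsOpen (up Ω u s) := up_open hΩ hs.smooth.continuousOn s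
  have hAc : Aᶜ = up Ω u s := low_compl Ω u s
  have hAcl : IsClosed A := by
    rw [← isOpen_compl_iff, hAc]
    exact huo
  have hAb : Bornology.IsBounded Aᶜ := by
    rw [hAc]
    exact hb.subset fun z hz => hz.1
  have hAne : A.Nonempty := by
    by_contra h
    rw [not_nonempty_iff_eq_empty] at h
    rw [h, compl_empty] at hAb
    exact NoncompactSpace.noncompact_univ (X := ℂ)
      (Metric.isCompact_of_isClosed_isBounded isClosed_univ hAb)
  -- constants
  set c : ℝ := Real.cos α / s with hc
  have hcos0 : 0 ≤ Real.cos α := Real.cos_nonneg_of_mem_Icc ⟨by linarith [Real.pi_pos], hα'⟩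
  have hcos1 : Real.cos α ≤ 1 := Real.cos_le_one α
  have hc0 : 0 ≤ c := div_nonneg hcos0 hs0.le
  have hcs : c * s = Real.cos α := by
    rw [hc]
    field_simp
  have hccs : c ^ 2 * s = Real.cos α ^ 2 / s := by
    rw [hc]
    field_simp
  have hccs1 : c ^ 2 * s ≤ 1 / s := by
    rw [hccs]
    exact div_le_div_of_nonneg_right (by nlinarith) hs0.le
  -- integrability
  have hK : IsCompact (tsupport φ) := hφc
  have hint : ∀ F : ℂ → ℝ, ContinuousOn F (tsupport φ) → (∀ z, z ∉ tsupport φ → F z = 0) →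
      Integrable F := by
    intro F hF h0
    have h2 : Function.support F ⊆ tsupport φ := by
      intro z hz
      by_contra h
      exact hz (h0 z h)
    exact (integrableOn_iff_integrable_of_support_subset h2).1 (hF.integrableOn_compact hK)
  have cφ : ContinuousOn φ (tsupport φ) := hφ.continuous.continuousOn
  have cu : ContinuousOn u (tsupport φ) := hs.smooth.continuousOn.mono hsub
  have cV : ContinuousOn V (tsupport φ) := hV.continuousOn.mono hsub
  have cD : ∀ v : ℂ, ContinuousOn (fun z => fderiv ℝ u z v) (tsupport φ) := fun v =>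
    ((((hs.smooth.fderiv_of_isOpen hΩ (m := ∞) (by simp)).continuousOn).clm_apply
        continuousOn_const).mono hsub)
  have cφd : ∀ v : ℂ, ContDiff ℝ ∞ (fun z => fderiv ℝ φ z v) := fun v =>
    (contDiff_infty_iff_fderiv.1 hφ).2.clm_apply contDiff_const
  have cφdd : ∀ v : ℂ, Continuous (fun z => fderiv ℝ (fun w => fderiv ℝ φ w v) z v) := fun v =>
    ((contDiff_infty_iff_fderiv.1 (cφd v)).2.clm_apply contDiff_const).continuous
  have hφd0 : ∀ z, z ∉ tsupport φ → fderiv ℝ φ z = 0 := fun z hz =>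
    fderiv_of_notMem_tsupport (𝕜 := ℝ) hz
  have hφdd0 : ∀ z, z ∉ tsupport φ → ∀ v : ℂ, fderiv ℝ (fun w => fderiv ℝ φ w v) z = 0 := by
    intro z hz v
    have h : (fun w => fderiv ℝ φ w v) =ᶠ[𝓝 z] fun _ => 0 := by
      filter_upwards [(isClosed_tsupport φ).isOpen_compl.mem_nhds hz] with w hw
      rw [hφd0 w hw]
      simp
    rw [h.fderiv_eq]
    simp
  have iφV : Integrable (fun z => φ z * V z) := hint _ (cφ.mul cV) fun z hz => by
    rw [image_eq_zero_of_notMem_tsupport hz, zero_mul]
  have iφ : Integrable φ := hint _ cφ fun z hz => image_eq_zero_of_notMem_tsupport hz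
  have iφVu : Integrable (fun z => φ z * (V z * u z)) := hint _ (cφ.mul (cV.mul cu)) fun z hz => by
    rw [image_eq_zero_of_notMem_tsupport hz, zero_mul]
  have iang : Integrable (fun z => φ z * (V z * Real.cos (ang α k A z) ^ 2 -
      k ^ 2 * Real.sin (ang α k A z) ^ 2)) := by
    refine hint _ (cφ.mul ((cV.mul ((Real.continuous_cos.comp
      (ang_cont α k A)).continuousOn.pow 2)).sub (continuousOn_const.mul ((Real.continuous_sin.comp
      (ang_cont α k A)).continuousOn.pow 2)))) fun z hz => ?_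
    rw [image_eq_zero_of_notMem_tsupport hz, zero_mul]
  have iR1 : Integrable (fun z => |dx φ z| * |dx u z| + |dy φ z| * |dy u z|) := by
    refine hint _ (((cφd 1).continuous.continuousOn.abs.mul (cD 1).abs).add
      ((cφd I).continuous.continuousOn.abs.mul (cD I).abs)) fun z hz => ?_
    simp [dx, dy, hφd0 z hz]
  have iR2 : Integrable (fun z => |lap φ z| * |u z|) := by
    refine hint _ ((((cφdd 1).add (cφdd I)).continuousOn).abs.mul cu.abs) fun z hz => ?_
    have h1 := hφdd0 z hz 1
    have h2 := hφdd0 z hz I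
    have h3 : lap φ z = fderiv ℝ (fun w => fderiv ℝ φ w 1) z 1 +
      fderiv ℝ (fun w => fderiv ℝ φ w I) z I := rfl
    rw [h3, h1, h2]
    simp
  -- the claim up to `ε`
  have key : ∀ ε : ℝ, 0 < ε → ε ≤ 1 →
      (∫ z in up Ω u s, φ z * (V z * Real.cos (ang α k A z) ^ 2 -
        k ^ 2 * Real.sin (ang α k A z) ^ 2)) ≤
      Real.cos α ^ 2 / s * (∫ z in up Ω u s, φ z * (V z * u z)) +
      (1 / s) * (∫ z, (|dx φ z| * |dx u z| + |dy φ z| * |dy u z|)) +
      (1 / s) * (∫ z, |lap φ z| * |u z|) +
      ε * ((2 * (c + 1) + c ^ 2 * s) * (∫ z, φ z * V z) + ∫ z, φ z) := by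
    intro ε hε hε1
    obtain ⟨f, fs, fc, fsub, fp⟩ := h2 A α k ε hAcl hAne hAb hα hα' hk hε
    obtain ⟨θ, Θ, e, he, hes, θs, Θs, Θd, θ0, θ1, θz, Θz, Θn, Θs1, Θt, Θl, Θl'⟩ := m3 s ε hs0 hε
    have hdΘ : deriv Θ = θ := funext fun t => (Θd t).deriv
    set Φ : ℂ → ℝ := fun z => c * Θ (u z) + f z with hΦ
    have fA : ∀ z, z ∈ A → f =ᶠ[𝓝 z] fun _ => 0 := by
      intro z hz
      exact notMem_tsupport_iff_eventuallyEq.1 fun h => fsub h hz
    have memA : ∀ z ∈ Ω, u z ≤ s → z ∈ A := fun z _ hu _ => hu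
    have memU : ∀ z, z ∈ A → z ∉ up Ω u s := fun z hz h => by
      have := hz h.1
      linarith [h.2]
    have Φs : ContDiffOn ℝ ∞ Φ Ω :=
      (contDiffOn_const.mul (Θs.comp_contDiffOn hs.smooth)).add fs.contDiffOn
    have Φ0 : ∀ z ∈ Ω, u z < e → Φ z = 0 := by
      intro z hz hu
      have h1 := (fA z (memA z hz (hu.le.trans hes))).self_of_nhds
      rw [hΦ]
      simp only
      rw [h1, Θz _ hu.le, mul_zero, add_zero]
    obtain ⟨j1, j2, j3, j4⟩ := m1 Ω V u φ Φ e hΩ hs he hV.continuousOn hφ hφc hsub hφ0 Φs Φ0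
    obtain ⟨k1, k2, k3, k4⟩ := Pool.Agent.E8helper33.EN.t_IBP Ω V u φ 1 hΩ hV hs.smooth
      (fun z hz => by
        have := hs.eq z hz
        have h3 : Pool.Agent.E8helper19.EN.lapl u z = lap u z := rfl
        rw [h3, one_mul]
        exact this) hφ hφc hsub Θ Θs
    rw [hdΘ] at k1 k4
    rw [one_mul] at k4
    -- bounds for `Φ`
    have Φn : ∀ z, 0 ≤ Φ z := fun z => add_nonneg (mul_nonneg hc0 (Θn _)) (fp z).1
    have Φ1 : ∀ z, Φ z ≤ 1 := by
      intro z
      have h1 : c * Θ (u z) ≤ Real.cos α := by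
        rw [← hcs]
        exact mul_le_mul_of_nonneg_left (Θs1 _) hc0
      linarith [(fp z).2.1]
    -- gradient of `Φ`
    have hgrad : ∀ z ∈ Ω, ∀ v : ℂ, fderiv ℝ Φ z v = c * (θ (u z) * fderiv ℝ u z v) +
        fderiv ℝ f z v := by
      intro z hz v
      have hua : HasFDerivAt u (fderiv ℝ u z) z :=
        ((hs.smooth.contDiffAt (hΩ.mem_nhds hz)).differentiableAt (by simp)).hasFDerivAt
      have hfa : HasFDerivAt f (fderiv ℝ f z) z := (fs.differentiable (by simp) z).hasFDerivAt
      have hl := ((((Θd (u z)).comp_hasFDerivAt z hua).const_mul c).add hfa).fderiv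
      have hl' : fderiv ℝ Φ z = c • (θ (u z) • fderiv ℝ u z) + fderiv ℝ f z := hl
      rw [hl']
      simp
    -- pointwise inequality
    have hpt : ∀ z, (up Ω u s).indicator (fun z => φ z * (V z * Real.cos (ang α k A z) ^ 2 -
        k ^ 2 * Real.sin (ang α k A z) ^ 2)) z -
        c ^ 2 * s * (up Ω u s).indicator (fun z => φ z * (V z * u z)) z ≤
        (φ z * (V z * Φ z ^ 2) - φ z * (dx Φ z ^ 2 + dy Φ z ^ 2)) +
        c ^ 2 * (φ z * (θ (u z) * Pool.Agent.E8helper19.EN.gsq u z) -
          φ z * (V z * (u z * Θ (u z)))) +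
        ε * ((2 * (c + 1) + c ^ 2 * s) * (φ z * V z) + φ z) := by
      intro z
      by_cases hz : z ∈ tsupport φ
      swap
      · have h0 : φ z = 0 := image_eq_zero_of_notMem_tsupport hz
        simp [Set.indicator, h0]
      have hzΩ := hsub hz
      have hp := hφ0 z
      have hVz := hV0 z hzΩ
      have hpV : 0 ≤ φ z * V z := mul_nonneg hp hVz
      by_cases hu : z ∈ up Ω u s
      · rw [indicator_of_mem hu, indicator_of_mem hu]
        have hus : s < u z := hu.2
        have t0 : θ (u z) = 0 := θz _ hus.le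
        obtain ⟨f0, f1, f2, f3⟩ := fp z
        have hg : dx Φ z ^ 2 + dy Φ z ^ 2 = dx f z ^ 2 + dy f z ^ 2 := by
          simp only [dx, dy]
          rw [hgrad z hzΩ, hgrad z hzΩ, t0]
          ring
        rw [hg, t0]
        have hm := ang_mem A z hα hk
        have hcz : 0 ≤ Real.cos (ang α k A z) :=
          Real.cos_nonneg_of_mem_Icc ⟨by linarith [Real.pi_pos, hm.1], hm.2.trans hα'⟩
        have hcz1 := Real.cos_le_one (ang α k A z)
        have hT := Θl' (u z) hus.le
        have h4 : Real.cos (ang α k A z) - (c + 1) * ε ≤ Φ z := by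
          have h5 : c * (s - ε) ≤ c * Θ (u z) := mul_le_mul_of_nonneg_left hT hc0
          have h6 := (abs_le.1 f2).1
          have h7 : c * (s - ε) = Real.cos α - c * ε := by rw [mul_sub, hcs]
          have h8 : Φ z = c * Θ (u z) + f z := rfl
          rw [h8]
          linarith
        have h9 : Real.cos (ang α k A z) ^ 2 - 2 * (c + 1) * ε ≤ Φ z ^ 2 := by
          have h10 := Φn z
          have hce : 0 ≤ (c + 1) * ε := by positivity
          rcases le_total (Real.cos (ang α k A z)) ((c + 1) * ε) with h11 | h11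
          · nlinarith
          · have h12 := pow_le_pow_left₀ (by linarith) h4 2
            nlinarith [sq_nonneg ((c + 1) * ε)]
        have h13 : V z * (Real.cos (ang α k A z) ^ 2 - 2 * (c + 1) * ε) ≤ V z * Φ z ^ 2 :=
          mul_le_mul_of_nonneg_left h9 hVz
        have h14 : c ^ 2 * (V z * (u z * Θ (u z))) ≤ c ^ 2 * s * (V z * u z) := by
          have h15 : u z * Θ (u z) ≤ u z * s :=
            mul_le_mul_of_nonneg_left (Θs1 _) (by linarith)
          have h16 := mul_le_mul_of_nonneg_left h15 hVz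
          have h17 := mul_le_mul_of_nonneg_left h16 (sq_nonneg c)
          linarith
        have h18 := mul_le_mul_of_nonneg_left h13 hp
        have h19 := mul_le_mul_of_nonneg_left h14 hp
        have h20 := mul_le_mul_of_nonneg_left f3 hp
        have h21 : 0 ≤ ε * (c ^ 2 * s) * (φ z * V z) := by positivity
        nlinarith
      · rw [indicator_of_notMem hu, indicator_of_notMem hu]
        have hus : u z ≤ s := by
          by_contra h
          exact hu ⟨hzΩ, not_le.1 h⟩
        have hzA := memA z hzΩ hus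
        have hf0 := (fA z hzA).self_of_nhds
        have hfd : fderiv ℝ f z = 0 := by
          rw [(fA z hzA).fderiv_eq]
          simp
        have hg : dx Φ z ^ 2 + dy Φ z ^ 2 =
            c ^ 2 * (θ (u z) ^ 2 * Pool.Agent.E8helper19.EN.gsq u z) := by
          simp only [dx, dy, Pool.Agent.E8helper19.EN.gsq]
          rw [hgrad z hzΩ, hgrad z hzΩ, hfd]
          simp only [ContinuousLinearMap.zero_apply, add_zero]
          ring
        have hg0 : 0 ≤ Pool.Agent.E8helper19.EN.gsq u z := by
          unfold Pool.Agent.E8helper19.EN.gsq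
          positivity
        have hΦz : Φ z = c * Θ (u z) := by
          have : Φ z = c * Θ (u z) + f z := rfl
          rw [this, hf0, add_zero]
        rw [hg, hΦz]
        have h1 : θ (u z) ^ 2 ≤ θ (u z) := by nlinarith [θ0 (u z), θ1 (u z)]
        have h2 : θ (u z) ^ 2 * Pool.Agent.E8helper19.EN.gsq u z ≤
            θ (u z) * Pool.Agent.E8helper19.EN.gsq u z := mul_le_mul_of_nonneg_right h1 hg0
        have h3 : u z * Θ (u z) ≤ Θ (u z) ^ 2 + s * ε := by
          rcases le_total (u z) 0 with h | h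
          · rw [Θz _ (h.trans he.le)]
            have : 0 < s * ε := by positivity
            linarith
          · have h4 := Θl _ h hus
            have h5 := Θn (u z)
            have h6 := Θs1 (u z)
            nlinarith
        have h7 := mul_le_mul_of_nonneg_left h2 (mul_nonneg hp (sq_nonneg c))
        have h8 := mul_le_mul_of_nonneg_left h3 (mul_nonneg hpV (sq_nonneg c))
        have h9 : 0 ≤ ε * (2 * (c + 1)) * (φ z * V z) := by positivity
        have h10 : 0 ≤ ε * φ z := by positivity
        nlinarith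
    -- the third term
    have ht : ∀ z, Φ z ^ 2 / u z * (dx φ z * dx u z + dy φ z * dy u z) ≤
        (1 / s) * (|dx φ z| * |dx u z| + |dy φ z| * |dy u z|) := by
      intro z
      by_cases hz : z ∈ tsupport φ
      swap
      · simp [dx, dy, hφd0 z hz]
      have hzΩ := hsub hz
      have h1 : |Φ z ^ 2 / u z| ≤ 1 / s := by
        by_cases h2 : u z < e
        · rw [Φ0 z hzΩ h2]
          simp only [ne_eq, OfNat.ofNat_ne_zero, not_false_eq_true, zero_pow, zero_div, abs_zero]
          positivity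
        have hu0 : 0 < u z := he.trans_le (not_lt.1 h2)
        rw [abs_of_nonneg (div_nonneg (sq_nonneg _) hu0.le)]
        rcases le_total (u z) s with h3 | h3
        · have hzA := memA z hzΩ h3
          have hΦz : Φ z = c * Θ (u z) := by
            have : Φ z = c * Θ (u z) + f z := rfl
            rw [this, (fA z hzA).self_of_nhds, add_zero]
          rw [hΦz, div_le_div_iff₀ hu0 hs0]
          have h4 := Θt (u z) hu0.le
          have h5 := Θn (u z)
          have h6 : (c * Θ (u z)) ^ 2 ≤ (c * u z) ^ 2 :=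
            pow_le_pow_left₀ (mul_nonneg hc0 h5) (mul_le_mul_of_nonneg_left h4 hc0) 2
          have h7 : (c * u z) ^ 2 * s ≤ u z := by
            have h8 : (c * u z) ^ 2 * s = (c * s) ^ 2 * (u z / s) * u z := by
              field_simp
            rw [h8, hcs]
            have h9 : u z / s ≤ 1 := (div_le_one hs0).2 h3
            have h10 : 0 ≤ u z / s := by positivity
            have h11 : Real.cos α ^ 2 * (u z / s) ≤ 1 := by nlinarith
            nlinarith
          nlinarith
        · have h4 : Φ z ^ 2 ≤ 1 := by nlinarith [Φn z, Φ1 z]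
          calc Φ z ^ 2 / u z ≤ 1 / u z := div_le_div_of_nonneg_right h4 hu0.le
            _ ≤ 1 / s := one_div_le_one_div_of_le hs0 h3
      refine (le_abs_self _).trans ?_
      rw [abs_mul]
      refine mul_le_mul h1 ?_ (abs_nonneg _) (by positivity)
      refine (abs_add_le _ _).trans (le_of_eq ?_)
      rw [abs_mul, abs_mul]
    -- the remainder of the integration by parts
    have hr : ∀ z, Pool.Agent.E8helper19.EN.lapl φ z * ∫ t in (0 : ℝ)..u z, Θ t ≤
        s * (|lap φ z| * |u z|) := by
      intro z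
      have h1 : |∫ t in (0 : ℝ)..u z, Θ t| ≤ s * |u z| := by
        have h := intervalIntegral.norm_integral_le_of_norm_le_const (a := 0) (b := u z) (f := Θ)
          (C := s) (fun t _ => by
            rw [Real.norm_eq_abs, abs_of_nonneg (Θn t)]
            exact Θs1 t)
        rwa [Real.norm_eq_abs, sub_zero] at h
      refine (le_abs_self _).trans ?_
      rw [abs_mul]
      have h3 : Pool.Agent.E8helper19.EN.lapl φ z = lap φ z := rfl
      rw [h3]
      calc |lap φ z| * |∫ t in (0 : ℝ)..u z, Θ t| ≤ |lap φ z| * (s * |u z|) :=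
            mul_le_mul_of_nonneg_left h1 (abs_nonneg _)
        _ = s * (|lap φ z| * |u z|) := by ring
    -- integrate
    have hm : MeasurableSet (up Ω u s) := huo.measurableSet
    have q1 := integral_mono j3 (iR1.const_mul (1 / s)) ht
    have q2 := integral_mono k3 (iR2.const_mul s) hr
    rw [integral_const_mul] at q1 q2
    have q3 := integral_mono ((iang.indicator hm).sub ((iφVu.indicator hm).const_mul (c ^ 2 * s)))
      (((j1.sub j2).add ((k1.sub k2).const_mul (c ^ 2))).add
        (((iφV.const_mul (2 * (c + 1) + c ^ 2 * s)).add iφ).const_mul ε)) hpt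
    have q4 := integral_sub (iang.indicator hm) ((iφVu.indicator hm).const_mul (c ^ 2 * s))
    have q5 := integral_add ((j1.sub j2).add ((k1.sub k2).const_mul (c ^ 2)))
      (((iφV.const_mul (2 * (c + 1) + c ^ 2 * s)).add iφ).const_mul ε)
    have q6 := integral_add (j1.sub j2) ((k1.sub k2).const_mul (c ^ 2))
    have q7 := integral_sub j1 j2
    have q8 := integral_sub k1 k2
    have q9 := integral_add (iφV.const_mul (2 * (c + 1) + c ^ 2 * s)) iφ
    simp only [Pi.add_apply, Pi.sub_apply] at q3 q4 q5 q6 q7 q8 q9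
    rw [q4, q5, q6, q7, integral_const_mul, integral_const_mul, integral_const_mul, q8, q9,
      integral_const_mul, integral_indicator hm, integral_indicator hm] at q3
    have q10 : c ^ 2 * ∫ z, Pool.Agent.E8helper19.EN.lapl φ z * ∫ t in (0 : ℝ)..u z, Θ t ≤
        (1 / s) * ∫ z, |lap φ z| * |u z| := by
      have h0 : 0 ≤ ∫ z, |lap φ z| * |u z| := integral_nonneg fun z => by positivity
      calc _ ≤ c ^ 2 * (s * ∫ z, |lap φ z| * |u z|) :=
            mul_le_mul_of_nonneg_left q2 (sq_nonneg c)
        _ = (c ^ 2 * s) * ∫ z, |lap φ z| * |u z| := by ring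
        _ ≤ _ := mul_le_mul_of_nonneg_right hccs1 h0
    rw [← hccs]
    rw [k4] at q3
    linarith
  -- let `ε → 0`
  refine le_of_forall_pos_le_add fun δ hδ => ?_
  set B : ℝ := (2 * (c + 1) + c ^ 2 * s) * (∫ z, φ z * V z) + ∫ z, φ z with hB
  have hB0 : 0 ≤ B := by
    refine add_nonneg (mul_nonneg (by positivity) (integral_nonneg fun z => ?_))
      (integral_nonneg hφ0)
    by_cases hz : z ∈ tsupport φ
    · exact mul_nonneg (hφ0 z) (hV0 z (hsub hz))
    · show (0 : ℝ) ≤ φ z * V z
      rw [image_eq_zero_of_notMem_tsupport hz, zero_mul]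
  have h1 := key (min 1 (δ / (B + 1))) (by positivity) (min_le_left _ _)
  have h2 : min 1 (δ / (B + 1)) * B ≤ δ := by
    calc min 1 (δ / (B + 1)) * B ≤ δ / (B + 1) * B :=
          mul_le_mul_of_nonneg_right (min_le_right _ _) hB0
      _ ≤ δ := by
          rw [div_mul_eq_mul_div, div_le_iff₀ (by positivity)]
          nlinarith
  linarith

end Pool.Agent.H25.TI
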