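import Pool.Agent.H25.TI.Stm
import Pool.Graph.R_pool_sql_team_seeded_3997aac3.Q73.NL.T4

/-!
# M5: the value at the centre of a small disc
-/

set_option autoImplicit false
open MeasureTheory Filter Topology Complex Set
open scoped ContDiff ENNReal NNReal
open Pool.Agent.Q73.NL (dx dy lap Sol t4)

namespace Pool.Agent.H25.TI

theorem cut_mono {a b s t : ℝ} (h : s ≤ t) : cut a b s ≤ cut a b t :=
  max_le_max le_rfl (min_le_min le_rfl h)

theorem cut_ge (a b t : ℝ) : a ≤ cut a b t := le_max_left _ _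

theorem cut_le {a b : ℝ} (hab : a ≤ b) (t : ℝ) : cut a b t ≤ b := max_le hab (min_le_left _ _)

theorem cut_neg {a b : ℝ} (hab : a ≤ b) (t : ℝ) : cut (-b) (-a) (-t) = -cut a b t := by
  unfold cut
  rcases le_total b t with h | h
  · rw [min_eq_left h, max_eq_right hab, min_eq_right (by linarith : -t ≤ -a),
      max_eq_left (by linarith : -t ≤ -b)]
  · rw [min_eq_right h]
    rcases le_total a t with h' | h'
    · rw [max_eq_right h', min_eq_right (by linarith : -t ≤ -a), max_eq_right (by linarith : -b ≤ -t)]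
    · rw [max_eq_left h', min_eq_left (by linarith : -a ≤ -t), max_eq_right (by linarith : -b ≤ -a)]

/-- the variation in the band -/
theorem var_band {v v' : ℝ → ℝ} {t1 t2 a b : ℝ} (h12 : t1 ≤ t2) (hab : a ≤ b)
    (hd : ∀ t ∈ Icc t1 t2, HasDerivAt v (v' t) t) (hc : ContinuousOn v' (Icc t1 t2)) :
    ENNReal.ofReal (cut a b (v t2) - cut a b (v t1)) ≤
      ∫⁻ t in Ioc t1 t2, if a < v t ∧ v t < b then ENNReal.ofReal |v' t| else 0 := by
  rcases le_or_gt (cut a b (v t2)) (cut a b (v t1)) with h | h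
  · rw [ENNReal.ofReal_of_nonpos (by linarith)]; exact zero_le
  obtain ⟨α, hα⟩ : ∃ α, α = cut a b (v t1) := ⟨_, rfl⟩
  obtain ⟨β, hβ⟩ : ∃ β, β = cut a b (v t2) := ⟨_, rfl⟩
  rw [← hα, ← hβ] at h
  rw [← hα, ← hβ]
  have haα : a ≤ α := by rw [hα]; exact cut_ge _ _ _
  have hβb : β ≤ b := by rw [hβ]; exact cut_le hab _
  have hv2 : β ≤ v t2 := by
    have : β = max a (min b (v t2)) := hβ
    rcases max_cases a (min b (v t2)) with ⟨h1, h2⟩ | ⟨h1, h2⟩
    · rw [h1] at this; linarith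
    · rw [h1] at this; rw [this]; exact min_le_right _ _
  have hv1 : v t1 ≤ α := by
    have h3 : α = max a (min b (v t1)) := hα
    have h4 : min b (v t1) ≤ α := by rw [h3]; exact le_max_right _ _
    rcases min_cases b (v t1) with ⟨h1, h2⟩ | ⟨h1, h2⟩
    · rw [h1] at h4; linarith
    · rw [h1] at h4; exact h4
  have hcont : ContinuousOn v (Icc t1 t2) := fun t ht => (hd t ht).continuousAt.continuousWithinAt
  -- the first time after `t1` with `v ≥ β`
  obtain ⟨τ2, hτ2, hτ2m⟩ : ∃ τ2 ∈ {t | t ∈ Icc t1 t2 ∧ β ≤ v t}, ∀ t ∈ {t | t ∈ Icc t1 t2 ∧ β ≤ v t}, τ2 ≤ t := by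
    have hK : IsCompact {t | t ∈ Icc t1 t2 ∧ β ≤ v t} := by
      have : {t | t ∈ Icc t1 t2 ∧ β ≤ v t} = Icc t1 t2 ∩ v ⁻¹' (Ici β) := rfl
      rw [this]
      exact isCompact_Icc.of_isClosed_subset (hcont.preimage_isClosed_of_isClosed isClosed_Icc isClosed_Ici)
        inter_subset_left
    obtain ⟨z, hz, hz2⟩ := hK.exists_isLeast ⟨t2, ⟨⟨h12, le_rfl⟩, hv2⟩⟩
    exact ⟨z, hz, hz2⟩
  obtain ⟨τ1, hτ1, hτ1m⟩ : ∃ τ1 ∈ {t | t ∈ Icc t1 τ2 ∧ v t ≤ α}, ∀ t ∈ {t | t ∈ Icc t1 τ2 ∧ v t ≤ α}, t ≤ τ1 := by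
    have hsub : Icc t1 τ2 ⊆ Icc t1 t2 := Icc_subset_Icc le_rfl hτ2.1.2
    have hK : IsCompact {t | t ∈ Icc t1 τ2 ∧ v t ≤ α} := by
      have : {t | t ∈ Icc t1 τ2 ∧ v t ≤ α} = Icc t1 τ2 ∩ v ⁻¹' (Iic α) := rfl
      rw [this]
      exact isCompact_Icc.of_isClosed_subset
        ((hcont.mono hsub).preimage_isClosed_of_isClosed isClosed_Icc isClosed_Iic) inter_subset_left
    obtain ⟨z, hz, hz2⟩ := hK.exists_isGreatest ⟨t1, ⟨⟨le_rfl, hτ2.1.1⟩, hv1⟩⟩
    exact ⟨z, hz, hz2⟩
  have h12' : τ1 ≤ τ2 := hτ1.1.2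
  have hsub : Icc τ1 τ2 ⊆ Icc t1 t2 := Icc_subset_Icc hτ1.1.1 hτ2.1.2
  have hband : ∀ t ∈ Ioo τ1 τ2, a < v t ∧ v t < b := by
    intro t ht
    constructor
    · by_contra hcon
      push Not at hcon
      have := hτ1m t ⟨⟨hτ1.1.1.trans ht.1.le, ht.2.le⟩, hcon.trans haα⟩
      exact absurd ht.1 (not_lt.2 this)
    · by_contra hcon
      push Not at hcon
      have := hτ2m t ⟨⟨hτ1.1.1.trans ht.1.le, ht.2.le.trans hτ2.1.2⟩, hβb.trans hcon⟩
      exact absurd ht.2 (not_lt.2 this)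
  have hint : ∫ t in τ1..τ2, v' t = v τ2 - v τ1 := by
    refine intervalIntegral.integral_eq_sub_of_hasDerivAt (fun t ht => ?_) ?_
    · rw [uIcc_of_le h12'] at ht
      exact hd t (hsub ht)
    · refine ContinuousOn.intervalIntegrable ?_
      rw [uIcc_of_le h12']
      exact hc.mono hsub
  have h1 : β - α ≤ ∫ t in τ1..τ2, v' t := by
    rw [hint]
    have := hτ2.2
    have := hτ1.2
    linarith
  have h2 : ENNReal.ofReal (∫ t in τ1..τ2, v' t) ≤ ∫⁻ t in Ioc τ1 τ2, ENNReal.ofReal |v' t| := by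
    rw [intervalIntegral.integral_of_le h12']
    have h3 := enorm_integral_le_lintegral_enorm (μ := volume.restrict (Ioc τ1 τ2)) v'
    have h4 : ∀ t, ‖v' t‖ₑ = ENNReal.ofReal |v' t| := fun t => by
      rw [← ofReal_norm, Real.norm_eq_abs]
    simp only [h4] at h3
    refine le_trans ?_ h3
    rw [← ofReal_norm]
    exact ENNReal.ofReal_le_ofReal (le_abs_self _)
  refine (ENNReal.ofReal_le_ofReal h1).trans (h2.trans ?_)
  rw [← setLIntegral_congr (Ioo_ae_eq_Ioc (a := τ1) (b := τ2))]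
  have h5 : ∫⁻ t in Ioo τ1 τ2, ENNReal.ofReal |v' t| =
      ∫⁻ t in Ioo τ1 τ2, if a < v t ∧ v t < b then ENNReal.ofReal |v' t| else 0 := by
    refine setLIntegral_congr_fun measurableSet_Ioo fun t ht => ?_
    rw [if_pos (hband t ht)]
  rw [h5]
  exact lintegral_mono_set (Ioo_subset_Ioc_self.trans (Ioc_subset_Ioc hτ1.1.1 hτ2.1.2))

theorem var_abs {v v' : ℝ → ℝ} {t1 t2 a b : ℝ} (h12 : t1 ≤ t2) (hab : a ≤ b)
    (hd : ∀ t ∈ Icc t1 t2, HasDerivAt v (v' t) t) (hc : ContinuousOn v' (Icc t1 t2)) :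
    ENNReal.ofReal |cut a b (v t2) - cut a b (v t1)| ≤
      ∫⁻ t in Ioc t1 t2, if a < v t ∧ v t < b then ENNReal.ofReal |v' t| else 0 := by
  rcases abs_cases (cut a b (v t2) - cut a b (v t1)) with ⟨h, _⟩ | ⟨h, _⟩
  · rw [h]; exact var_band h12 hab hd hc
  · rw [h]
    have h1 := var_band (v := fun t => -v t) (v' := fun t => -v' t) (a := -b) (b := -a) h12 (by linarith)
      (fun t ht => (hd t ht).neg) hc.neg
    rw [cut_neg hab, cut_neg hab] at h1
    have h2 : -(cut a b (v t2) - cut a b (v t1)) = -cut a b (v t2) - -cut a b (v t1) := by ring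
    rw [h2]
    refine h1.trans (le_of_eq ?_)
    refine lintegral_congr fun t => ?_
    rw [abs_neg]
    by_cases h3 : a < v t ∧ v t < b
    · rw [if_pos h3, if_pos ⟨by linarith [h3.2], by linarith [h3.1]⟩]
    · rw [if_neg h3, if_neg fun h4 => h3 ⟨by linarith [h4.2], by linarith [h4.1]⟩]

/-- two arcs -/
theorem two_arcs {W : ℝ → ℝ} {g : ℝ → ℝ≥0∞} {T : ℝ}
    (h : ∀ s t, 0 ≤ s → s ≤ t → t ≤ T → ENNReal.ofReal |W t - W s| ≤ ∫⁻ x in Ioc s t, g x)
    (h0 : W 0 = W T) {s t : ℝ} (hs : 0 ≤ s) (hst : s ≤ t) (ht : t ≤ T) :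
    2 * ENNReal.ofReal |W t - W s| ≤ ∫⁻ x in Ioc 0 T, g x := by
  have h1 := h s t hs hst ht
  have h2 := h 0 s le_rfl hs (hst.trans ht)
  have h3 := h t T (hs.trans hst) ht le_rfl
  have e1 : ∫⁻ x in Ioc 0 T, g x = (∫⁻ x in Ioc 0 s, g x) + (∫⁻ x in Ioc s t, g x) + ∫⁻ x in Ioc t T, g x := by
    rw [← Ioc_union_Ioc_eq_Ioc (hs.trans hst) ht, lintegral_union measurableSet_Ioc (Ioc_disjoint_Ioc_of_le le_rfl),
      ← Ioc_union_Ioc_eq_Ioc hs hst, lintegral_union measurableSet_Ioc (Ioc_disjoint_Ioc_of_le le_rfl)]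
  rw [e1, two_mul]
  have h4 : ENNReal.ofReal |W t - W s| ≤ (∫⁻ x in Ioc 0 s, g x) + ∫⁻ x in Ioc t T, g x := by
    have h5 : |W t - W s| ≤ |W s - W 0| + |W T - W t| := by
      have : W t - W s = -(W s - W 0) - (W T - W t) := by rw [h0]; ring
      rw [this]
      refine (abs_sub _ _).trans ?_
      rw [abs_neg]
    refine (ENNReal.ofReal_le_ofReal h5).trans ?_
    rw [ENNReal.ofReal_add (abs_nonneg _) (abs_nonneg _)]
    exact add_le_add h2 h3
  calc _ ≤ (∫⁻ x in Ioc s t, g x) + ((∫⁻ x in Ioc 0 s, g x) + ∫⁻ x in Ioc t T, g x) := add_le_add h1 h4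
    _ = _ := by ring

theorem cis_norm (θ : ℝ) : ‖cis θ‖ = 1 := by unfold cis; exact Complex.norm_exp_ofReal_mul_I θ

theorem cis_deriv (x : ℂ) (r θ : ℝ) : HasDerivAt (fun θ : ℝ => x + r * cis θ) (r * (I * cis θ)) θ := by
  have h1 : HasDerivAt (fun θ : ℝ => ((θ : ℂ) * I)) (1 * I) θ :=
    (Complex.ofRealCLM.hasDerivAt (x := θ)).mul_const I
  have h2 := (h1.cexp.const_mul (r : ℂ)).const_add x
  refine h2.congr_deriv ?_
  unfold cis
  ring

theorem ray_deriv (x w : ℂ) (t : ℝ) : HasDerivAt (fun t : ℝ => x + t * w) w t := by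
  have h2 := ((Complex.ofRealCLM.hasDerivAt (x := t)).mul_const w).const_add x
  simpa using h2

theorem circle_pt {x z : ℂ} {r : ℝ} (hz : ‖z - x‖ = r) :
    ∃ θ ∈ Icc (0 : ℝ) (2 * Real.pi), z = x + r * cis θ := by
  have h1 : z = x + r * cis (arg (z - x)) := by
    have := Complex.norm_mul_exp_arg_mul_I (z - x)
    unfold cis
    rw [hz] at this
    rw [this]; ring
  have hp := Real.pi_pos
  rcases le_or_gt 0 (arg (z - x)) with h | h
  · exact ⟨arg (z - x), ⟨h, by linarith [Complex.arg_le_pi (z - x)]⟩, h1⟩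
  · refine ⟨arg (z - x) + 2 * Real.pi, ⟨by linarith [Complex.neg_pi_lt_arg (z - x)], by linarith⟩, ?_⟩
    have h2 : cis (arg (z - x) + 2 * Real.pi) = cis (arg (z - x)) := by
      unfold cis
      push_cast
      rw [add_mul]
      exact Complex.exp_periodic _
    rw [h2]
    exact h1

theorem m5 : M5 := by
  intro Ω V u x y r M a b hΩ hu hr hV hM hball ha hab hy
  have hmem : ∀ z ∈ Metric.closedBall x r, z ∈ Ω := fun z hz => hball hz
  have hxΩ : x ∈ Ω := hmem x (Metric.mem_closedBall_self hr.le)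
  have hM0 : 0 ≤ M := (hV x hxΩ).1.trans (hV x hxΩ).2
  have hpi := Real.pi_pos
  have hcd : ∀ z ∈ Ω, ContDiffAt ℝ ∞ u z := fun z hz => hu.smooth.contDiffAt (hΩ.mem_nhds hz)
  have hfd : ∀ z ∈ Ω, HasFDerivAt u (fderiv ℝ u z) z := fun z hz =>
    ((hcd z hz).differentiableAt (by simp)).hasFDerivAt
  have hfc : ContinuousOn (fderiv ℝ u) Ω := by
    exact hu.smooth.continuousOn_fderiv_of_isOpen hΩ (by simp)
  have hcirc : ∀ θ : ℝ, x + r * cis θ ∈ Metric.closedBall x r := by
    intro θ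
    rw [mem_closedBall_iff_norm, add_sub_cancel_left, norm_mul, cis_norm, mul_one, Complex.norm_real,
      Real.norm_eq_abs, abs_of_pos hr]
  have hray : ∀ θ : ℝ, ∀ t ∈ Icc 0 r, x + t * cis θ ∈ Metric.closedBall x r := by
    intro θ t ht
    rw [mem_closedBall_iff_norm, add_sub_cancel_left, norm_mul, cis_norm, mul_one, Complex.norm_real,
      Real.norm_eq_abs, abs_of_nonneg ht.1]
    exact ht.2
  have hccont : Continuous fun θ : ℝ => x + r * cis θ := by
    unfold cis; fun_prop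
  have hcisc : Continuous cis := by unfold cis; fun_prop
  -- the function on the circle
  obtain ⟨v, hv⟩ : ∃ v : ℝ → ℝ, v = fun θ => u (x + r * cis θ) := ⟨_, rfl⟩
  have hvd : ∀ θ, HasDerivAt v (fderiv ℝ u (x + r * cis θ) (r * (I * cis θ))) θ := by
    intro θ
    rw [hv]
    exact (hfd _ (hmem _ (hcirc θ))).comp_hasDerivAt θ (cis_deriv x r θ)
  have hvc : Continuous v := continuous_iff_continuousAt.2 fun θ => (hvd θ).continuousAt
  have hv'c : Continuous fun θ : ℝ => fderiv ℝ u (x + r * cis θ) (r * (I * cis θ)) := by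
    have h1 : Continuous fun θ : ℝ => fderiv ℝ u (x + r * cis θ) := by
      rw [← continuousOn_univ]
      exact hfc.comp hccont.continuousOn fun θ _ => hmem _ (hcirc θ)
    exact h1.clm_apply (by fun_prop)
  have hne : (Icc (0 : ℝ) (2 * Real.pi)).Nonempty := ⟨0, le_rfl, by positivity⟩
  obtain ⟨θ0, hθ0, hmin⟩ := isCompact_Icc.exists_isMinOn hne hvc.continuousOn
  obtain ⟨θ1, hθ1, hmax⟩ := isCompact_Icc.exists_isMaxOn hne hvc.continuousOn
  have hmin' : ∀ θ ∈ Icc (0 : ℝ) (2 * Real.pi), v θ0 ≤ v θ := fun θ hθ => hmin hθ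
  have hmax' : ∀ θ ∈ Icc (0 : ℝ) (2 * Real.pi), v θ ≤ v θ1 := fun θ hθ => hmax hθ
  -- the minimum principle
  have hA : cut a b (v θ0) ≤ cut a b (u y) := by
    rcases lt_or_ge (v θ0) 0 with h | h
    · have h1 : cut a b (v θ0) = a := by
        unfold cut
        rw [min_eq_right (by linarith), max_eq_left (by linarith)]
      rw [h1]; exact cut_ge _ _ _
    · refine cut_mono ?_
      obtain ⟨c, hc⟩ : ∃ c, c = Real.sqrt ((M / 2 + Real.pi ^ 2 / (4 * r ^ 2)) / 2) := ⟨_, rfl⟩
      have hlt : M / 2 < Real.pi ^ 2 / (4 * r ^ 2) := by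
        rw [lt_div_iff₀ (by positivity)]
        nlinarith
      have hc2 : c ^ 2 = (M / 2 + Real.pi ^ 2 / (4 * r ^ 2)) / 2 := by
        rw [hc, Real.sq_sqrt (by positivity)]
      have hc0 : 0 < c := by rw [hc]; exact Real.sqrt_pos.2 (by positivity)
      have hcr : c * r < Real.pi / 2 := by
        have h1 : (c * r) ^ 2 < (Real.pi / 2) ^ 2 := by
          rw [mul_pow, hc2]
          have h2 : (M / 2 + Real.pi ^ 2 / (4 * r ^ 2)) / 2 < Real.pi ^ 2 / (4 * r ^ 2) := by linarith
          have h3 := mul_lt_mul_of_pos_right h2 (by positivity : 0 < r ^ 2)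
          refine h3.trans_le (le_of_eq ?_)
          field_simp
          norm_num
        exact lt_of_pow_lt_pow_left₀ 2 (by positivity) h1
      have hlap : ∀ z, lap (fun z => u z - v θ0) z = lap u z := by
        intro z
        have h1 : dx (fun z => u z - v θ0) = dx u := by
          funext z; unfold Pool.Agent.Q73.NL.dx; rw [fderiv_sub_const]
        have h2 : dy (fun z => u z - v θ0) = dy u := by
          funext z; unfold Pool.Agent.Q73.NL.dy; rw [fderiv_sub_const]
        unfold Pool.Agent.Q73.NL.lap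
        rw [h1, h2]
      have hint : ∀ z ∈ interior (Metric.closedBall x r), z ∈ Ω := fun z hz => hmem z (interior_subset hz)
      have key := t4 (Metric.closedBall x r) V (fun z => u z - v θ0) x c (isCompact_closedBall x r) hc0
        (fun z hz => by
          rw [mem_closedBall_iff_norm] at hz
          constructor
          · exact (mul_le_mul_of_nonneg_left ((Complex.abs_re_le_norm _).trans hz) hc0.le).trans_lt hcr
          · exact (mul_le_mul_of_nonneg_left ((Complex.abs_im_le_norm _).trans hz) hc0.le).trans_lt hcr)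
        (fun z hz => ((hcd z (hmem z hz)).continuousAt.sub continuousAt_const).continuousWithinAt)
        (fun z hz => ((hcd z (hint z hz)).of_le (WithTop.coe_le_coe.2 le_top)).sub contDiffAt_const)
        (fun z hz => by
          have := (hV z (hint z hz)).2
          rw [hc2]; linarith)
        (fun z hz => by
          rw [hlap]
          have h1 := hu.eq z (hint z hz)
          have h2 := mul_nonneg (hV z (hint z hz)).1 h
          have h3 : lap u z + V z * (u z - v θ0) = (lap u z + V z * u z) - V z * v θ0 := by ring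
          rw [h3, h1]; linarith)
        (fun z hz => by
          have h1 : ‖z - x‖ = r := by
            have := Metric.frontier_closedBall_subset_sphere hz
            exact mem_sphere_iff_norm.1 this
          obtain ⟨θ, hθ, rfl⟩ := circle_pt h1
          have := hmin' θ hθ
          rw [hv] at this ⊢
          simp only at this ⊢
          linarith) y hy
      linarith
  -- the circle
  have hB : ENNReal.ofReal (cut a b (v θ1) - cut a b (v θ0)) ≤
      ENNReal.ofReal (r / 2) * (∫⁻ θ in Ioc 0 (2 * Real.pi), bd u a b (x + r * cis θ) (I * cis θ)) := by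
    have harc : ∀ s t, 0 ≤ s → s ≤ t → t ≤ 2 * Real.pi →
        ENNReal.ofReal |cut a b (v t) - cut a b (v s)| ≤
          ∫⁻ θ in Ioc s t, ENNReal.ofReal r * bd u a b (x + r * cis θ) (I * cis θ) := by
      intro s t _ hst _
      refine (var_abs hst hab (fun θ _ => hvd θ) hv'c.continuousOn).trans (le_of_eq ?_)
      refine lintegral_congr fun θ => ?_
      unfold bd
      rw [hv]
      simp only
      split_ifs
      · have h1 : ((r : ℂ) * (I * cis θ)) = r • (I * cis θ) := by rw [Complex.real_smul]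
        rw [h1, map_smul, smul_eq_mul, abs_mul, abs_of_pos hr, ENNReal.ofReal_mul hr.le]
      · rw [mul_zero]
    have hper : cut a b (v 0) = cut a b (v (2 * Real.pi)) := by
      have h1 : cis (2 * Real.pi) = cis 0 := by
        unfold cis
        push_cast
        rw [Complex.exp_two_pi_mul_I]
        simp
      rw [hv]
      simp only
      rw [h1]
    have h2 : 2 * ENNReal.ofReal |cut a b (v θ1) - cut a b (v θ0)| ≤
        ∫⁻ θ in Ioc 0 (2 * Real.pi), ENNReal.ofReal r * bd u a b (x + r * cis θ) (I * cis θ) := by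
      rcases le_total θ0 θ1 with h | h
      · exact two_arcs (W := fun θ => cut a b (v θ)) harc hper hθ0.1 h hθ1.2
      · rw [abs_sub_comm]
        exact two_arcs (W := fun θ => cut a b (v θ)) harc hper hθ1.1 h hθ0.2
    rw [lintegral_const_mul' _ _ ENNReal.ofReal_ne_top] at h2
    have h3 : ENNReal.ofReal (r / 2) = ENNReal.ofReal (1 / 2) * ENNReal.ofReal r := by
      rw [← ENNReal.ofReal_mul (by norm_num)]; congr 1; ring
    rw [h3, mul_assoc]
    have h4 : ENNReal.ofReal (cut a b (v θ1) - cut a b (v θ0)) ≤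
        ENNReal.ofReal (1 / 2) * (2 * ENNReal.ofReal |cut a b (v θ1) - cut a b (v θ0)|) := by
      have h5 : ENNReal.ofReal (1 / 2) * (2 * ENNReal.ofReal |cut a b (v θ1) - cut a b (v θ0)|) =
          ENNReal.ofReal |cut a b (v θ1) - cut a b (v θ0)| := by
        have h6 : (2 : ℝ≥0∞) = ENNReal.ofReal 2 := by simp
        rw [← mul_assoc, h6, ← ENNReal.ofReal_mul (by norm_num)]
        norm_num
      rw [h5]
      exact ENNReal.ofReal_le_ofReal (le_abs_self _)
    exact h4.trans (mul_le_mul_right h2 _)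
  -- the radii
  have hC : ENNReal.ofReal (cut a b (u x) - cut a b (v θ1)) ≤ ENNReal.ofReal (1 / (2 * Real.pi)) *
      ∫⁻ θ in Ioc 0 (2 * Real.pi), ∫⁻ t in Ioc 0 r, bd u a b (x + t * cis θ) (cis θ) := by
    have h1 : ∀ θ ∈ Ioc (0 : ℝ) (2 * Real.pi), ENNReal.ofReal (cut a b (u x) - cut a b (v θ1)) ≤
        ∫⁻ t in Ioc 0 r, bd u a b (x + t * cis θ) (cis θ) := by
      intro θ hθ
      have h2 : cut a b (u x) - cut a b (v θ1) ≤ |cut a b (u (x + (r : ℝ) * cis θ)) - cut a b (u (x + (0 : ℝ) * cis θ))| := by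
        have h3 := hmax' θ ⟨hθ.1.le, hθ.2⟩
        have h4 : cut a b (u (x + r * cis θ)) ≤ cut a b (v θ1) := by
          refine cut_mono ?_
          rw [hv] at h3 ⊢
          exact h3
        have h5 : x + ((0 : ℝ) : ℂ) * cis θ = x := by simp
        rw [h5, abs_sub_comm]
        have := le_abs_self (cut a b (u x) - cut a b (u (x + r * cis θ)))
        linarith
      refine (ENNReal.ofReal_le_ofReal h2).trans ?_
      have hrc : Continuous fun t : ℝ => x + t * cis θ := by fun_prop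
      have h6 := var_abs (v := fun t : ℝ => u (x + t * cis θ))
        (v' := fun t : ℝ => fderiv ℝ u (x + t * cis θ) (cis θ)) (a := a) (b := b) hr.le hab
        (fun t ht => (hfd _ (hmem _ (hray θ t ht))).comp_hasDerivAt t (ray_deriv x (cis θ) t))
        ((hfc.comp hrc.continuousOn fun t ht => hmem _ (hray θ t ht)).clm_apply continuousOn_const)
      exact h6
    have h7 : ∫⁻ _θ in Ioc (0 : ℝ) (2 * Real.pi), ENNReal.ofReal (cut a b (u x) - cut a b (v θ1)) ≤
        ∫⁻ θ in Ioc 0 (2 * Real.pi), ∫⁻ t in Ioc 0 r, bd u a b (x + t * cis θ) (cis θ) :=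
      setLIntegral_mono' measurableSet_Ioc h1
    rw [setLIntegral_const, Real.volume_Ioc, sub_zero] at h7
    refine le_trans (le_of_eq ?_) (mul_le_mul_right h7 _)
    rw [mul_comm, mul_assoc, ← ENNReal.ofReal_mul (by positivity)]
    have : 2 * Real.pi * (1 / (2 * Real.pi)) = 1 := by field_simp
    rw [this, ENNReal.ofReal_one, mul_one]
  have hfin : cut a b (u x) - cut a b (u y) ≤ (cut a b (v θ1) - cut a b (v θ0)) +
      (cut a b (u x) - cut a b (v θ1)) := by linarith
  unfold NN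
  refine (ENNReal.ofReal_le_ofReal hfin).trans (ENNReal.ofReal_add_le.trans (add_le_add hB hC))

end Pool.Agent.H25.TI
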