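import Pool.Agent.H25.TI.Stm

/-!
# M6: the mean of `NN`
-/

set_option autoImplicit false
open MeasureTheory Filter Topology Complex Set
open scoped ContDiff ENNReal NNReal
open Pool.Agent.Q73.NL (dx dy lap Sol)

namespace Pool.Agent.H25.TI

noncomputable section

namespace M6aux

theorem cis_cont : Continuous cis := by unfold cis; fun_prop

theorem cis_re (θ : ℝ) : (cis θ).re = Real.cos θ := by
  unfold cis; rw [Complex.exp_ofReal_mul_I_re]

theorem cis_im (θ : ℝ) : (cis θ).im = Real.sin θ := by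
  unfold cis; rw [Complex.exp_ofReal_mul_I_im]

theorem cis_norm (θ : ℝ) : ‖cis θ‖ = 1 := by unfold cis; exact Complex.norm_exp_ofReal_mul_I θ

theorem int_abs_cos (c : ℝ) : ∫ θ in (0 : ℝ)..(2 * Real.pi), |Real.cos (θ + c)| = 4 := by
  rw [intervalIntegral.integral_comp_add_right (fun x => |Real.cos x|) c]
  have hper : Function.Periodic (fun x => |Real.cos x|) (2 * Real.pi) := by
    intro x; simp [Real.cos_add_two_pi]
  have h1 : ∫ x in (0 + c)..(2 * Real.pi + c), |Real.cos x| =
      ∫ x in (-(Real.pi / 2))..(-(Real.pi / 2) + 2 * Real.pi), |Real.cos x| := by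
    have := hper.intervalIntegral_add_eq (0 + c) (-(Real.pi / 2))
    rw [← this]
    congr 1
    ring
  rw [h1]
  have hc : ∀ a b : ℝ, IntervalIntegrable (fun x => |Real.cos x|) volume a b := fun a b =>
    (Real.continuous_cos.abs).intervalIntegrable a b
  rw [← intervalIntegral.integral_add_adjacent_intervals (hc _ (Real.pi / 2)) (hc _ _)]
  have h2 : ∫ x in (-(Real.pi / 2))..(Real.pi / 2), |Real.cos x| =
      ∫ x in (-(Real.pi / 2))..(Real.pi / 2), Real.cos x := by
    apply intervalIntegral.integral_congr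
    intro x hx
    rw [uIcc_of_le (by linarith [Real.pi_pos])] at hx
    exact abs_of_nonneg (Real.cos_nonneg_of_neg_pi_div_two_le_of_le hx.1 hx.2)
  have h3 : ∫ x in (Real.pi / 2)..(-(Real.pi / 2) + 2 * Real.pi), |Real.cos x| =
      ∫ x in (Real.pi / 2)..(-(Real.pi / 2) + 2 * Real.pi), -Real.cos x := by
    apply intervalIntegral.integral_congr
    intro x hx
    rw [uIcc_of_le (by linarith [Real.pi_pos])] at hx
    exact abs_of_nonpos (Real.cos_nonpos_of_pi_div_two_le_of_le hx.1 (by linarith [hx.2]))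
  rw [h2, h3, intervalIntegral.integral_neg, integral_cos, integral_cos]
  have e : Real.sin (-(Real.pi / 2) + 2 * Real.pi) = -1 := by
    rw [Real.sin_add_two_pi, Real.sin_neg, Real.sin_pi_div_two]
  rw [e, Real.sin_neg, Real.sin_pi_div_two]
  norm_num

/-- the mean of a linear function over the directions -/
theorem lint_dir (p q : ℝ) (w : ℂ) (hw : ‖w‖ = 1) :
    ∫⁻ θ in Ioc (0 : ℝ) (2 * Real.pi),
      ENNReal.ofReal |p * (w * cis θ).re + q * (w * cis θ).im| =
      ENNReal.ofReal (4 * √(p ^ 2 + q ^ 2)) := by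
  set z : ℂ := ⟨p, -q⟩ with hz
  -- `p Re v + q Im v = Re (z * v)`
  have key : ∀ θ : ℝ, p * (w * cis θ).re + q * (w * cis θ).im =
      √(p ^ 2 + q ^ 2) * Real.cos (θ + Complex.arg (z * w)) := by
    intro θ
    have h1 : p * (w * cis θ).re + q * (w * cis θ).im = (z * w * cis θ).re := by
      rw [mul_assoc z w, Complex.mul_re z]
      simp [hz]
    have h2 : ‖z * w‖ = √(p ^ 2 + q ^ 2) := by
      rw [norm_mul, hw, mul_one, Complex.norm_def, Complex.normSq_apply]
      congr 1
      simp [hz]; ring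
    have h3 : z * w * cis θ = (‖z * w‖ : ℂ) * cis (θ + Complex.arg (z * w)) := by
      conv_lhs => rw [← Complex.norm_mul_exp_arg_mul_I (z * w)]
      unfold cis
      rw [mul_assoc, ← Complex.exp_add]
      push_cast
      congr 2
      ring
    rw [h1, h3, Complex.re_ofReal_mul, cis_re, h2]
  simp_rw [key, abs_mul, abs_of_nonneg (Real.sqrt_nonneg _)]
  have hcont : Continuous fun θ : ℝ => √(p ^ 2 + q ^ 2) * |Real.cos (θ + Complex.arg (z * w))| := by
    fun_prop
  rw [← ofReal_integral_eq_lintegral_ofReal]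
  · rw [← intervalIntegral.integral_of_le (by positivity), intervalIntegral.integral_const_mul,
      int_abs_cos]
    congr 1; ring
  · exact (hcont.integrableOn_Icc).mono_set Ioc_subset_Icc_self
  · exact Eventually.of_forall fun θ => by positivity

/-- the part of the band in the big disc -/
def SS (u : ℂ → ℝ) (B : Set ℂ) (a b : ℝ) : Set ℂ := {z | z ∈ B ∧ a < u z ∧ u z < b}

/-- `bd` cut off outside `B`, in coordinates -/
def G (u : ℂ → ℝ) (B : Set ℂ) (a b : ℝ) (z v : ℂ) : ℝ≥0∞ :=
  (SS u B a b).indicator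
    (fun z => ENNReal.ofReal |fderiv ℝ u z 1 * v.re + fderiv ℝ u z I * v.im|) z

/-- `bg` cut off outside `B` -/
def gg (u : ℂ → ℝ) (B : Set ℂ) (a b : ℝ) (z : ℂ) : ℝ≥0∞ :=
  (SS u B a b).indicator (fun z => ENNReal.ofReal (gn u z)) z

theorem SS_meas {u : ℂ → ℝ} {B : Set ℂ} {a b : ℝ} (hB : IsClosed B) (hu : ContinuousOn u B) :
    MeasurableSet (SS u B a b) := by
  obtain ⟨U, hU, hUB⟩ := continuousOn_iff'.1 hu (Ioo a b) isOpen_Ioo
  have : SS u B a b = U ∩ B := by
    rw [← hUB]; ext z
    constructor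
    · exact fun h => ⟨h.2, h.1⟩
    · exact fun h => ⟨h.2, h.1⟩
  rw [this]
  exact hU.measurableSet.inter hB.measurableSet

theorem G_meas {u : ℂ → ℝ} {B : Set ℂ} {a b : ℝ} (hB : IsClosed B) (hu : ContinuousOn u B)
    {X : Type*} [MeasurableSpace X] {f g : X → ℂ} (hf : Measurable f) (hg : Measurable g) :
    Measurable fun x => G u B a b (f x) (g x) := by
  have hp : Measurable fun z => fderiv ℝ u z 1 := measurable_fderiv_apply_const ℝ u 1
  have hq : Measurable fun z => fderiv ℝ u z I := measurable_fderiv_apply_const ℝ u I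
  have e : (fun x => G u B a b (f x) (g x)) = (f ⁻¹' (SS u B a b)).indicator
      (fun x => ENNReal.ofReal |fderiv ℝ u (f x) 1 * (g x).re + fderiv ℝ u (f x) I * (g x).im|) := by
    funext x
    by_cases h : f x ∈ SS u B a b
    · rw [indicator_of_mem (mem_preimage.2 h)]
      simp only [G]; rw [indicator_of_mem h]
    · rw [indicator_of_notMem (fun h' => h (mem_preimage.1 h'))]
      simp only [G]; rw [indicator_of_notMem h]
  rw [e]
  refine Measurable.indicator ?_ (hf (SS_meas hB hu))
  refine ENNReal.measurable_ofReal.comp ?_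
  refine (((hp.comp hf).mul (Complex.measurable_re.comp hg)).add
    ((hq.comp hf).mul (Complex.measurable_im.comp hg))).norm

theorem gg_meas {u : ℂ → ℝ} {B : Set ℂ} {a b : ℝ} (hB : IsClosed B) (hu : ContinuousOn u B) :
    Measurable (gg u B a b) := by
  have hp : Measurable fun z => fderiv ℝ u z 1 := measurable_fderiv_apply_const ℝ u 1
  have hq : Measurable fun z => fderiv ℝ u z I := measurable_fderiv_apply_const ℝ u I
  refine Measurable.indicator ?_ (SS_meas hB hu)
  refine ENNReal.measurable_ofReal.comp ?_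
  unfold gn Pool.Agent.Q73.NL.dx Pool.Agent.Q73.NL.dy
  exact ((hp.pow_const 2).add (hq.pow_const 2)).sqrt

theorem lin_eq (D : ℂ →L[ℝ] ℝ) (v : ℂ) : D v = D 1 * v.re + D I * v.im := by
  have : v = v.re • (1 : ℂ) + v.im • I := by
    apply Complex.ext <;> simp
  conv_lhs => rw [this, map_add, map_smul, map_smul]
  simp only [smul_eq_mul]; ring

theorem G_lint {u : ℂ → ℝ} {B : Set ℂ} {a b : ℝ} (w : ℂ) (hw : ‖w‖ = 1) (y : ℂ) :
    ∫⁻ θ in Ioc (0 : ℝ) (2 * Real.pi), G u B a b y (w * cis θ) = 4 * gg u B a b y := by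
  by_cases h : y ∈ SS u B a b
  · simp only [G, gg]
    simp only [indicator_of_mem h]
    rw [lint_dir _ _ w hw, ENNReal.ofReal_mul (by norm_num)]
    congr 1
    simp
  · simp only [G, gg]
    simp only [indicator_of_notMem h]
    simp

set_option maxHeartbeats 1000000 in
/-- the mean on circles of radius `t` -/
theorem circ_mean {u φ : ℂ → ℝ} {x₀ : ℂ} {h r L a b t : ℝ} (w : ℂ) (hw : ‖w‖ = 1)
    (hu : ContinuousOn u (Metric.closedBall x₀ (2 * h)))
    (hL : 0 ≤ L) (ht0 : 0 ≤ t) (htr : t ≤ r) (hφc : Continuous φ) (hφ0 : ∀ z, 0 ≤ φ z)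
    (hlip : ∀ z w, |φ z - φ w| ≤ L * ‖z - w‖) :
    ∫⁻ x, ENNReal.ofReal (φ x) * ∫⁻ θ in Ioc (0 : ℝ) (2 * Real.pi),
      G u (Metric.closedBall x₀ (2 * h)) a b (x + t * cis θ) (w * cis θ) ≤
    4 * ((∫⁻ z, ENNReal.ofReal (φ z) * bg u a b z) +
      ENNReal.ofReal (L * r) * ∫⁻ z in Metric.closedBall x₀ (2 * h), ENNReal.ofReal (gn u z)) := by
  set B := Metric.closedBall x₀ (2 * h) with hBdef
  have hB : IsClosed B := Metric.isClosed_closedBall
  have hΦ : Measurable fun x => ENNReal.ofReal (φ x) :=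
    ENNReal.measurable_ofReal.comp hφc.measurable
  have hcm : Measurable cis := cis_cont.measurable
  -- joint measurability
  have hm1 : Measurable fun p : ℂ × ℝ => G u B a b (p.1 + t * cis p.2) (w * cis p.2) :=
    G_meas hB hu (measurable_fst.add ((hcm.comp measurable_snd).const_mul _))
      ((hcm.comp measurable_snd).const_mul _)
  have hm2 : Measurable fun p : ℂ × ℝ => G u B a b p.1 (w * cis p.2) :=
    G_meas hB hu measurable_fst ((hcm.comp measurable_snd).const_mul _)
  calc ∫⁻ x, ENNReal.ofReal (φ x) * ∫⁻ θ in Ioc (0 : ℝ) (2 * Real.pi),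
        G u B a b (x + t * cis θ) (w * cis θ)
      = ∫⁻ x, ∫⁻ θ in Ioc (0 : ℝ) (2 * Real.pi),
        ENNReal.ofReal (φ x) * G u B a b (x + t * cis θ) (w * cis θ) := by
        refine lintegral_congr fun x => ?_
        have hmx : Measurable fun θ : ℝ => G u B a b (x + t * cis θ) (w * cis θ) :=
          G_meas hB hu (measurable_const.add (hcm.const_mul _)) (hcm.const_mul _)
        exact (lintegral_const_mul _ hmx).symm
    _ = ∫⁻ θ in Ioc (0 : ℝ) (2 * Real.pi), ∫⁻ x,
        ENNReal.ofReal (φ x) * G u B a b (x + t * cis θ) (w * cis θ) := by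
        rw [lintegral_lintegral_swap]
        exact ((hΦ.comp measurable_fst).mul hm1).aemeasurable
    _ = ∫⁻ θ in Ioc (0 : ℝ) (2 * Real.pi), ∫⁻ y,
        ENNReal.ofReal (φ (y - t * cis θ)) * G u B a b y (w * cis θ) := by
        refine lintegral_congr fun θ => ?_
        have := lintegral_add_right_eq_self (μ := (volume : Measure ℂ))
          (fun y => ENNReal.ofReal (φ (y - t * cis θ)) * G u B a b y (w * cis θ)) (t * cis θ)
        rw [← this]
        simp only [add_sub_cancel_right]
    _ ≤ ∫⁻ θ in Ioc (0 : ℝ) (2 * Real.pi), ∫⁻ y,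
        (ENNReal.ofReal (φ y) + ENNReal.ofReal (L * r)) * G u B a b y (w * cis θ) := by
        refine lintegral_mono fun θ => lintegral_mono fun y => ?_
        refine mul_le_mul_left ?_ _
        rw [← ENNReal.ofReal_add (hφ0 y) (mul_nonneg hL (ht0.trans htr))]
        refine ENNReal.ofReal_le_ofReal ?_
        have h1 := hlip (y - t * cis θ) y
        have h2 : ‖y - t * cis θ - y‖ = t := by
          rw [sub_sub_cancel_left, norm_neg, norm_mul, cis_norm, mul_one, Complex.norm_real,
            Real.norm_of_nonneg ht0]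
        rw [h2] at h1
        have h3 := (abs_le.1 h1).2
        have h4 : L * t ≤ L * r := mul_le_mul_of_nonneg_left htr hL
        linarith
    _ = ∫⁻ y, ∫⁻ θ in Ioc (0 : ℝ) (2 * Real.pi),
        (ENNReal.ofReal (φ y) + ENNReal.ofReal (L * r)) * G u B a b y (w * cis θ) := by
        rw [lintegral_lintegral_swap]
        refine Measurable.aemeasurable ?_
        have : Measurable fun p : ℂ × ℝ =>
            (ENNReal.ofReal (φ p.1) + ENNReal.ofReal (L * r)) * G u B a b p.1 (w * cis p.2) :=
          ((hΦ.comp measurable_fst).add_const _).mul hm2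
        exact this.comp measurable_swap
    _ = ∫⁻ y, ((ENNReal.ofReal (φ y) * (4 * gg u B a b y)) +
        ENNReal.ofReal (L * r) * (4 * gg u B a b y)) := by
        refine lintegral_congr fun y => ?_
        have hmy : Measurable fun θ : ℝ => G u B a b y (w * cis θ) :=
          G_meas hB hu measurable_const (hcm.const_mul _)
        rw [lintegral_const_mul _ hmy, G_lint w hw y, add_mul]
    _ = (∫⁻ y, ENNReal.ofReal (φ y) * (4 * gg u B a b y)) +
        ∫⁻ y, ENNReal.ofReal (L * r) * (4 * gg u B a b y) := by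
        rw [lintegral_add_left]
        exact hΦ.mul ((gg_meas hB hu).const_mul _)
    _ ≤ _ := by
        rw [mul_add]
        refine add_le_add ?_ ?_
        · have : ∫⁻ y, ENNReal.ofReal (φ y) * (4 * gg u B a b y) =
              4 * ∫⁻ y, ENNReal.ofReal (φ y) * gg u B a b y := by
            have hmz : Measurable fun y => ENNReal.ofReal (φ y) * gg u B a b y :=
              hΦ.mul (gg_meas hB hu)
            rw [← lintegral_const_mul _ hmz]
            refine lintegral_congr fun y => ?_
            ring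
          rw [this]
          refine mul_le_mul_right (lintegral_mono fun y => ?_) _
          refine mul_le_mul_right ?_ _
          simp only [gg, bg]
          by_cases h : y ∈ SS u B a b
          · rw [indicator_of_mem h, if_pos h.2]
          · rw [indicator_of_notMem h]; exact bot_le
        · have : ∫⁻ y, ENNReal.ofReal (L * r) * (4 * gg u B a b y) =
              4 * (ENNReal.ofReal (L * r) * ∫⁻ y, gg u B a b y) := by
            rw [← lintegral_const_mul _ (gg_meas hB hu), ← lintegral_const_mul]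
            · refine lintegral_congr fun y => ?_
              ring
            · exact (gg_meas hB hu).const_mul _
          rw [this]
          refine mul_le_mul_right (mul_le_mul_right ?_ _) _
          rw [← lintegral_indicator hB.measurableSet]
          refine lintegral_mono fun y => ?_
          simp only [gg]
          by_cases h : y ∈ SS u B a b
          · rw [indicator_of_mem h, indicator_of_mem h.1]
          · rw [indicator_of_notMem h]; exact bot_le

theorem tri {H : ℂ → ℝ → ℝ → ℝ≥0∞} (hH : Measurable fun p : (ℂ × ℝ) × ℝ => H p.1.1 p.1.2 p.2)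
    {Φ : ℂ → ℝ≥0∞} (hΦ : Measurable Φ) (S T : Set ℝ) :
    ∫⁻ x, Φ x * ∫⁻ θ in S, ∫⁻ t in T, H x t θ = ∫⁻ t in T, ∫⁻ x, Φ x * ∫⁻ θ in S, H x t θ := by
  have hm4 : Measurable fun p : ℂ × ℝ => ∫⁻ θ in S, H p.1 p.2 θ := hH.lintegral_prod_right'
  have e : ∀ x, Φ x * ∫⁻ θ in S, ∫⁻ t in T, H x t θ = ∫⁻ t in T, Φ x * ∫⁻ θ in S, H x t θ := by
    intro x
    have h8 : Measurable fun t : ℝ => ((x, t) : ℂ × ℝ) := measurable_prodMk_left
    have hmx : Measurable fun t : ℝ => ∫⁻ θ in S, H x t θ := hm4.comp h8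
    rw [lintegral_const_mul _ hmx]
    congr 1
    have h5 : Measurable fun q : ℝ × ℝ => (((x, q.2), q.1) : (ℂ × ℝ) × ℝ) :=
      (measurable_const.prodMk measurable_snd).prodMk measurable_fst
    have h6 : Measurable (Function.uncurry fun (θ t : ℝ) => H x t θ) := hH.comp h5
    exact lintegral_lintegral_swap h6.aemeasurable
  rw [lintegral_congr e, lintegral_lintegral_swap]
  exact ((hΦ.comp measurable_fst).mul hm4).aemeasurable

end M6aux

open M6aux

set_option maxHeartbeats 2000000 in
theorem m6 : M6 := by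
  intro Ω u φ x₀ h r L a b hΩ hu hr hrh hL hBΩ hφc hφ0 hφs hlip
  set B := Metric.closedBall x₀ (2 * h) with hBdef
  have hB : IsClosed B := Metric.isClosed_closedBall
  have huB : ContinuousOn u B := hu.continuousOn.mono hBΩ
  have hΦ : Measurable fun x => ENNReal.ofReal (φ x) :=
    ENNReal.measurable_ofReal.comp hφc.measurable
  have hcm : Measurable cis := cis_cont.measurable
  set T := (∫⁻ z, ENNReal.ofReal (φ z) * bg u a b z) +
      ENNReal.ofReal (L * r) * ∫⁻ z in B, ENNReal.ofReal (gn u z) with hT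
  -- `bd` agrees with `G` near the support
  have hbd : ∀ (x : ℂ) (t θ : ℝ) (v : ℂ), x ∈ Metric.ball x₀ h → 0 ≤ t → t ≤ r →
      bd u a b (x + t * cis θ) v = G u B a b (x + t * cis θ) v := by
    intro x t θ v hx ht0 htr
    have hmem : x + t * cis θ ∈ B := by
      rw [hBdef, Metric.mem_closedBall, dist_eq_norm]
      have h1 : ‖x - x₀‖ < h := by rwa [Metric.mem_ball, dist_eq_norm] at hx
      have h2 : ‖(t : ℂ) * cis θ‖ = t := by
        rw [norm_mul, cis_norm, mul_one, Complex.norm_real, Real.norm_of_nonneg ht0]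
      calc ‖x + t * cis θ - x₀‖ = ‖(x - x₀) + t * cis θ‖ := by congr 1; ring
        _ ≤ ‖x - x₀‖ + ‖(t : ℂ) * cis θ‖ := norm_add_le _ _
        _ ≤ 2 * h := by rw [h2]; linarith
    simp only [bd, G]
    by_cases hS : a < u (x + t * cis θ) ∧ u (x + t * cis θ) < b
    · rw [if_pos hS, indicator_of_mem (show x + t * cis θ ∈ SS u B a b from ⟨hmem, hS⟩), lin_eq]
    · rw [if_neg hS, indicator_of_notMem]
      exact fun h' => hS h'.2
  have hpt : ∀ x, ENNReal.ofReal (φ x) * NN u a b r x =
      ENNReal.ofReal (r / 2) * (ENNReal.ofReal (φ x) *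
        ∫⁻ θ in Ioc 0 (2 * Real.pi), G u B a b (x + r * cis θ) (I * cis θ)) +
      ENNReal.ofReal (1 / (2 * Real.pi)) * (ENNReal.ofReal (φ x) *
        ∫⁻ θ in Ioc 0 (2 * Real.pi), ∫⁻ t in Ioc 0 r, G u B a b (x + t * cis θ) (cis θ)) := by
    intro x
    by_cases hx : x ∈ Metric.ball x₀ h
    · have e1 : ∫⁻ θ in Ioc 0 (2 * Real.pi), bd u a b (x + r * cis θ) (I * cis θ) =
          ∫⁻ θ in Ioc 0 (2 * Real.pi), G u B a b (x + r * cis θ) (I * cis θ) :=
        lintegral_congr fun θ => hbd x r θ _ hx hr.le le_rfl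
      have e2 : ∫⁻ θ in Ioc 0 (2 * Real.pi), ∫⁻ t in Ioc 0 r, bd u a b (x + t * cis θ) (cis θ) =
          ∫⁻ θ in Ioc 0 (2 * Real.pi), ∫⁻ t in Ioc 0 r, G u B a b (x + t * cis θ) (cis θ) := by
        refine lintegral_congr fun θ => setLIntegral_congr_fun measurableSet_Ioc ?_
        intro t ht
        exact hbd x t θ _ hx ht.1.le ht.2
      rw [NN, e1, e2]
      ring
    · rw [hφs x hx]
      simp
  have hm1 : Measurable fun x : ℂ => ENNReal.ofReal (φ x) *
        ∫⁻ θ in Ioc 0 (2 * Real.pi), G u B a b (x + r * cis θ) (I * cis θ) := by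
    refine hΦ.mul ?_
    have : Measurable fun p : ℂ × ℝ => G u B a b (p.1 + r * cis p.2) (I * cis p.2) :=
      G_meas hB huB (measurable_fst.add ((hcm.comp measurable_snd).const_mul _))
        ((hcm.comp measurable_snd).const_mul _)
    exact this.lintegral_prod_right'
  -- the second part
  have hm3 : Measurable fun p : (ℂ × ℝ) × ℝ =>
      G u B a b (p.1.1 + p.1.2 * cis p.2) (1 * cis p.2) := by
    refine G_meas hB huB ?_ ((hcm.comp measurable_snd).const_mul _)
    exact measurable_fst.fst.add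
      ((Complex.measurable_ofReal.comp measurable_fst.snd).mul (hcm.comp measurable_snd))
  have h2 : ∫⁻ x, ENNReal.ofReal (φ x) *
        ∫⁻ θ in Ioc 0 (2 * Real.pi), ∫⁻ t in Ioc 0 r, G u B a b (x + t * cis θ) (cis θ) ≤
      ENNReal.ofReal r * (4 * T) := by
    have h20 := tri (H := fun x t θ => G u B a b (x + t * cis θ) (1 * cis θ)) hm3 hΦ
      (Ioc 0 (2 * Real.pi)) (Ioc 0 r)
    simp only [one_mul] at h20
    rw [h20]
    calc ∫⁻ t in Ioc 0 r, ∫⁻ x, ENNReal.ofReal (φ x) *
          ∫⁻ θ in Ioc 0 (2 * Real.pi), G u B a b (x + t * cis θ) (cis θ)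
      _ ≤ ∫⁻ t in Ioc 0 r, 4 * T := by
          refine setLIntegral_mono' measurableSet_Ioc fun t ht => ?_
          have := circ_mean (a := a) (b := b) 1 (by simp) huB hL ht.1.le ht.2 hφc hφ0 hlip
          simp only [one_mul] at this
          exact this
      _ = ENNReal.ofReal r * (4 * T) := by
          rw [setLIntegral_const, Real.volume_Ioc, sub_zero, mul_comm]
  have h1 : ∫⁻ x, ENNReal.ofReal (φ x) *
        ∫⁻ θ in Ioc 0 (2 * Real.pi), G u B a b (x + r * cis θ) (I * cis θ) ≤ 4 * T :=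
    circ_mean I (by simp) huB hL hr.le le_rfl hφc hφ0 hlip
  calc ∫⁻ x, ENNReal.ofReal (φ x) * NN u a b r x
      = ∫⁻ x, (ENNReal.ofReal (r / 2) * (ENNReal.ofReal (φ x) *
        ∫⁻ θ in Ioc 0 (2 * Real.pi), G u B a b (x + r * cis θ) (I * cis θ)) +
      ENNReal.ofReal (1 / (2 * Real.pi)) * (ENNReal.ofReal (φ x) *
        ∫⁻ θ in Ioc 0 (2 * Real.pi), ∫⁻ t in Ioc 0 r, G u B a b (x + t * cis θ) (cis θ))) :=
        lintegral_congr hpt
    _ = ENNReal.ofReal (r / 2) * (∫⁻ x, ENNReal.ofReal (φ x) *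
        ∫⁻ θ in Ioc 0 (2 * Real.pi), G u B a b (x + r * cis θ) (I * cis θ)) +
      ENNReal.ofReal (1 / (2 * Real.pi)) * ∫⁻ x, ENNReal.ofReal (φ x) *
        ∫⁻ θ in Ioc 0 (2 * Real.pi), ∫⁻ t in Ioc 0 r, G u B a b (x + t * cis θ) (cis θ) := by
        rw [lintegral_add_left (hm1.const_mul _), lintegral_const_mul _ hm1,
          lintegral_const_mul' _ _ ENNReal.ofReal_ne_top]
    _ ≤ ENNReal.ofReal (r / 2) * (4 * T) +
        ENNReal.ofReal (1 / (2 * Real.pi)) * (ENNReal.ofReal r * (4 * T)) :=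
        add_le_add (mul_le_mul_right h1 _) (mul_le_mul_right h2 _)
    _ = ENNReal.ofReal ((2 + 2 / Real.pi) * r) * T := by
        have hpi := Real.pi_pos
        have e4 : (4 : ℝ≥0∞) = ENNReal.ofReal 4 := by simp
        rw [e4, ← mul_assoc, ← mul_assoc, ← mul_assoc, ← ENNReal.ofReal_mul (by positivity),
          ← ENNReal.ofReal_mul (by positivity), ← ENNReal.ofReal_mul (by positivity), ← add_mul,
          ← ENNReal.ofReal_add (by positivity) (by positivity)]
        congr 2
        field_simp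
        ring

end

end Pool.Agent.H25.TI
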