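import Pool.Agent.H25.TI.M4

/-!
# M7a: layer cake
-/

set_option autoImplicit false
open MeasureTheory Filter Topology Complex Set
open scoped ContDiff ENNReal NNReal
open Pool.Agent.Q73.NL (dx dy lap Sol)

namespace Pool.Agent.H25.TI

theorem low_mono (Ω : Set ℂ) (u : ℂ → ℝ) {s s' : ℝ} (h : s ≤ s') : low Ω u s ⊆ low Ω u s' :=
  fun _ hz hz' => (hz hz').trans h

theorem low_ne {Ω : Set ℂ} (hb : Bornology.IsBounded Ω) (u : ℂ → ℝ) (s : ℝ) :
    (low Ω u s).Nonempty := by
  by_contra h
  rw [not_nonempty_iff_eq_empty] at h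
  have h1 : Ω = univ := by
    refine eq_univ_of_forall fun z => ?_
    by_contra hz
    have : z ∈ low Ω u s := fun h' => absurd h' hz
    rw [h] at this
    exact this
  rw [h1] at hb
  exact NoncompactSpace.noncompact_univ (X := ℂ)
    (Metric.isCompact_of_isClosed_isBounded isClosed_univ hb)

/-- joint measurability of the distance -/
theorem D_meas {Ω : Set ℂ} (hb : Bornology.IsBounded Ω) (u : ℂ → ℝ) :
    Measurable fun p : ℂ × ℝ => Metric.infDist p.1 (low Ω u p.2) := by
  have h := measurable_uncurry_of_continuous_of_measurable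
    (u := fun (x : ℂ) (s : ℝ) => Metric.infDist x (low Ω u s))
    (fun s => Metric.continuous_infDist_pt _) (fun x => by
      refine Antitone.measurable fun s s' hss' => ?_
      exact Metric.infDist_le_infDist_of_subset (low_mono Ω u hss') (low_ne hb u s))
  exact h

/-- the levels seen from `x` at the distance `τ / k` -/
theorem levels (h5 : M5) {Ω : Set ℂ} {V u : ℂ → ℝ} {x₀ x : ℂ} {h k M a b α τ : ℝ} (hk : 0 < k)
    (hΩ : Ω = Metric.ball x₀ (2 * h)) (hs : Sol Ω V u) (hV : ∀ z ∈ Ω, 0 ≤ V z ∧ V z ≤ M)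
    (hM : M < 2 * k ^ 2) (hα' : α ≤ Real.pi / 2) (hkh : Real.pi / (2 * k) ≤ h) (ha : 0 ≤ a)
    (hab : a ≤ b) (hx : x ∈ Metric.ball x₀ h) (hτ : 0 < τ) (hτα : τ ≤ α) :
    volume (Ioo a b ∩ {s | s < u x ∧ k * Metric.infDist x (low Ω u s) < τ}) ≤
      NN u a b (τ / k) x := by
  set r := τ / k with hr
  have hr0 : 0 < r := div_pos hτ hk
  have hr1 : r ≤ Real.pi / (2 * k) := by
    rw [hr, div_le_div_iff₀ hk (by positivity)]
    nlinarith
  have hrh : r ≤ h := hr1.trans hkh
  have hball : Metric.closedBall x r ⊆ Ω := by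
    intro y hy
    rw [hΩ, Metric.mem_ball]
    have h1 := dist_triangle y x x₀
    linarith [Metric.mem_closedBall.1 hy, Metric.mem_ball.1 hx]
  have hMr : M * r ^ 2 < Real.pi ^ 2 / 2 := by
    have h1 : r ^ 2 ≤ (Real.pi / (2 * k)) ^ 2 := pow_le_pow_left₀ hr0.le hr1 2
    have h2 : (Real.pi / (2 * k)) ^ 2 = Real.pi ^ 2 / (4 * k ^ 2) := by
      field_simp
      ring
    have h0 : 0 ≤ M := by
      have hx' : x ∈ Ω := hball (Metric.mem_closedBall_self hr0.le)
      exact (hV x hx').1.trans (hV x hx').2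
    have h4 : 0 < r ^ 2 := by positivity
    calc M * r ^ 2 < 2 * k ^ 2 * r ^ 2 := by nlinarith
      _ ≤ 2 * k ^ 2 * (Real.pi ^ 2 / (4 * k ^ 2)) := by
          rw [← h2]
          exact mul_le_mul_of_nonneg_left h1 (by positivity)
      _ = Real.pi ^ 2 / 2 := by
          field_simp
          ring
  have hΩo : IsOpen Ω := by
    rw [hΩ]
    exact Metric.isOpen_ball
  have cu : ContinuousOn u (Metric.closedBall x r) := hs.smooth.continuousOn.mono hball
  obtain ⟨y, hy, hmin⟩ := (isCompact_closedBall x r).exists_isMinOn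
    ⟨x, Metric.mem_closedBall_self hr0.le⟩ cu
  refine le_trans (measure_mono (t := Ico (cut a b (u y)) (cut a b (u x))) ?_) ?_
  · rintro s ⟨⟨hs1, hs2⟩, hs3, hs4⟩
    have h1 : Metric.infDist x (low Ω u s) < r := by
      rw [hr, lt_div_iff₀ hk]
      linarith
    have hne : (low Ω u s).Nonempty := low_ne (by rw [hΩ]; exact Metric.isBounded_ball) u s
    obtain ⟨w, hw, hw'⟩ := (Metric.infDist_lt_iff hne).1 h1
    have hwb : w ∈ Metric.closedBall x r := by
      rw [Metric.mem_closedBall, dist_comm]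
      exact hw'.le
    have h2 : u w ≤ s := hw (hball hwb)
    have h3 : u y ≤ u w := hmin hwb
    constructor
    · unfold cut
      exact max_le hs1.le ((min_le_right _ _).trans (h3.trans h2))
    · unfold cut
      exact (lt_min hs2 hs3).trans_le (le_max_right _ _)
  · rw [Real.volume_Ico]
    exact h5 Ω V u x y r M a b hΩo hs hr0 hV hMr hball ha hab hy

/-- the weight of the layer cake -/
noncomputable def ww (α τ : ℝ) : ℝ≥0∞ := ENNReal.ofReal (2 * Real.sin (2 * (α - τ)))

theorem ww_meas (α : ℝ) : Measurable (ww α) := by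
  unfold ww
  fun_prop

/-- layer cake for `2 sin² (α - min (kδ) α)` -/
theorem layer {α k : ℝ} (hk : 0 < k) (hα' : α ≤ Real.pi / 2) (A : Set ℂ) (x : ℂ) :
    ENNReal.ofReal (2 * Real.sin (ang α k A x) ^ 2) ≤
      ∫⁻ τ in Ioo 0 α, {τ | k * Metric.infDist x A < τ}.indicator (ww α) τ := by
  set m := k * Metric.infDist x A with hm
  have hm0 : 0 ≤ m := mul_nonneg hk.le Metric.infDist_nonneg
  rcases le_total α m with h | h
  · have : ang α k A x = 0 := by
      unfold ang
      rw [← hm, min_eq_right h, sub_self]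
    rw [this]
    simp
  have hang : ang α k A x = α - m := by
    unfold ang
    rw [← hm, min_eq_left h]
  have hsub : Ioo m α ⊆ Ioo 0 α := Ioo_subset_Ioo hm0 le_rfl
  calc ENNReal.ofReal (2 * Real.sin (ang α k A x) ^ 2)
      = ∫⁻ τ in Ioo m α, ww α τ := by
        have h1 : ∫ τ in m..α, 2 * Real.sin (2 * (α - τ)) = 2 * Real.sin (α - m) ^ 2 := by
          have h2 : ∀ τ ∈ uIcc m α, HasDerivAt (fun τ => -(2 * Real.sin (α - τ) ^ 2))
              (2 * Real.sin (2 * (α - τ))) τ := by
            intro τ _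
            have h3 : HasDerivAt (fun τ : ℝ => α - τ) (-1) τ := by
              simpa using (hasDerivAt_id τ).const_sub α
            refine ((((h3.sin).pow 2).const_mul 2).neg).congr_deriv ?_
            rw [Real.sin_two_mul]
            ring
          rw [intervalIntegral.integral_eq_sub_of_hasDerivAt h2
            (Continuous.intervalIntegrable (by fun_prop) _ _)]
          simp
        rw [hang, ← h1, intervalIntegral.integral_of_le h, integral_Ioc_eq_integral_Ioo]
        rw [ofReal_integral_eq_lintegral_ofReal]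
        · rfl
        · exact (Continuous.integrableOn_Icc (by fun_prop)).mono_set Ioo_subset_Icc_self
        · refine (ae_restrict_mem measurableSet_Ioo).mono fun τ hτ => ?_
          refine mul_nonneg zero_le_two (Real.sin_nonneg_of_nonneg_of_le_pi ?_ ?_)
          · linarith [hτ.2]
          · linarith [hτ.1]
    _ = ∫⁻ τ in Ioo m α, {τ | m < τ}.indicator (ww α) τ := by
        refine setLIntegral_congr_fun measurableSet_Ioo fun τ hτ => ?_
        have : τ ∈ {τ | m < τ} := hτ.1
        rw [indicator_of_mem this]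
    _ ≤ ∫⁻ τ in Ioo 0 α, {τ | m < τ}.indicator (ww α) τ := lintegral_mono_set hsub

/-- the total weight -/
theorem ww_int {α : ℝ} (hα : 0 < α) (hα' : α ≤ Real.pi / 2) :
    ∫⁻ τ in Ioo 0 α, ww α τ * ENNReal.ofReal τ =
      ENNReal.ofReal (α - Real.sin α * Real.cos α) := by
  have h1 : ∫ τ in (0 : ℝ)..α, 2 * Real.sin (2 * (α - τ)) * τ = α - Real.sin α * Real.cos α := by
    have h2 : ∀ τ ∈ uIcc 0 α, HasDerivAt
        (fun τ => Real.cos (2 * (α - τ)) * τ + Real.sin (2 * (α - τ)) / 2)
        (2 * Real.sin (2 * (α - τ)) * τ) τ := by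
      intro τ _
      have h3 : HasDerivAt (fun τ : ℝ => 2 * (α - τ)) (-2) τ :=
        (((hasDerivAt_id τ).const_sub α).const_mul 2).congr_deriv (by ring)
      refine (((h3.cos).mul (hasDerivAt_id τ)).add (h3.sin.div_const 2)).congr_deriv ?_
      simp only [id]
      ring
    rw [intervalIntegral.integral_eq_sub_of_hasDerivAt h2
      (Continuous.intervalIntegrable (by fun_prop) _ _)]
    simp only [sub_self, mul_zero, Real.cos_zero, Real.sin_zero, sub_zero]
    rw [Real.sin_two_mul]
    ring
  rw [← h1, intervalIntegral.integral_of_le hα.le, integral_Ioc_eq_integral_Ioo,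
    ofReal_integral_eq_lintegral_ofReal]
  · refine setLIntegral_congr_fun measurableSet_Ioo fun τ hτ => ?_
    refine (ENNReal.ofReal_mul ?_).symm
    refine mul_nonneg zero_le_two (Real.sin_nonneg_of_nonneg_of_le_pi ?_ ?_)
    · linarith [hτ.2]
    · linarith [hτ.1]
  · exact (Continuous.integrableOn_Icc (by fun_prop)).mono_set Ioo_subset_Icc_self
  · refine (ae_restrict_mem measurableSet_Ioo).mono fun τ hτ => ?_
    refine mul_nonneg (mul_nonneg zero_le_two (Real.sin_nonneg_of_nonneg_of_le_pi ?_ ?_)) hτ.1.le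
    · linarith [hτ.2]
    · linarith [hτ.1]

end Pool.Agent.H25.TI
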