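import Pool.Agent.H25.TI.M7a

/-!
# M7b: integration over the levels
-/

set_option autoImplicit false
open MeasureTheory Filter Topology Complex Set
open scoped ContDiff ENNReal NNReal
open Pool.Agent.Q73.NL (dx dy lap Sol)

namespace Pool.Agent.H25.TI

noncomputable section

/-- the hypotheses on a small disc -/
structure Pc (Ω₀ : Set ℂ) (V u φ : ℂ → ℝ) (x₀ : ℂ) (h k M L a b α : ℝ) : Prop where
  open₀ : IsOpen Ω₀
  sol : Sol Ω₀ V u
  sV : ContDiffOn ℝ ∞ V Ω₀
  cb : Metric.closedBall x₀ (2 * h) ⊆ Ω₀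
  hk : 0 < k
  kh : Real.pi / (2 * k) ≤ h
  bV : ∀ z ∈ Metric.closedBall x₀ (2 * h), k ^ 2 ≤ V z ∧ V z ≤ M
  hM : M < 2 * k ^ 2
  sφ : ContDiff ℝ ∞ φ
  cφ : HasCompactSupport φ
  tφ : tsupport φ ⊆ Metric.ball x₀ h
  φ0 : ∀ z, 0 ≤ φ z
  L0 : 0 ≤ L
  lip : ∀ z w, |φ z - φ w| ≤ L * ‖z - w‖
  a0 : 0 < a
  ab : a < b
  α0 : 0 < α
  α1 : α ≤ Real.pi / 2

variable {Ω₀ : Set ℂ} {V u φ : ℂ → ℝ} {x₀ : ℂ} {h k M L a b α : ℝ}

open Classical in
/-- `u` made measurable -/
def uu (u : ℂ → ℝ) (x₀ : ℂ) (h : ℝ) : ℂ → ℝ :=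
  (Metric.ball x₀ (2 * h)).piecewise u (fun _ => 0)

open Classical in
theorem uu_eq {x : ℂ} (hx : x ∈ Metric.ball x₀ (2 * h)) : uu u x₀ h x = u x := by
  unfold uu
  exact piecewise_eq_of_mem _ _ _ hx

theorem Pc.h0 (H : Pc Ω₀ V u φ x₀ h k M L a b α) : 0 < h :=
  lt_of_lt_of_le (div_pos Real.pi_pos (by linarith [H.hk])) H.kh

theorem Pc.sub (H : Pc Ω₀ V u φ x₀ h k M L a b α) : Metric.ball x₀ h ⊆ Metric.ball x₀ (2 * h) :=
  Metric.ball_subset_ball (by linarith [H.h0])

theorem Pc.sub2 (H : Pc Ω₀ V u φ x₀ h k M L a b α) : Metric.ball x₀ (2 * h) ⊆ Ω₀ :=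
  Metric.ball_subset_closedBall.trans H.cb

open Classical in
theorem Pc.uu_meas (H : Pc Ω₀ V u φ x₀ h k M L a b α) : Measurable (uu u x₀ h) := by
  unfold uu
  exact ContinuousOn.measurable_piecewise (H.sol.smooth.continuousOn.mono H.sub2)
    continuousOn_const measurableSet_ball

theorem Pc.solb (H : Pc Ω₀ V u φ x₀ h k M L a b α) : Sol (Metric.ball x₀ (2 * h)) V u :=
  ⟨H.sol.smooth.mono H.sub2, fun z hz => H.sol.eq z (H.sub2 hz)⟩

theorem Pc.V0 (H : Pc Ω₀ V u φ x₀ h k M L a b α) : ∀ z ∈ Metric.ball x₀ (2 * h), 0 ≤ V z :=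
  fun z hz => (sq_nonneg k).trans (H.bV z (Metric.ball_subset_closedBall hz)).1

theorem Pc.φz (H : Pc Ω₀ V u φ x₀ h k M L a b α) {x : ℂ} (hx : x ∉ Metric.ball x₀ h) :
    φ x = 0 := image_eq_zero_of_notMem_tsupport fun h' => hx (H.tφ h')

/-- the band integral of the gradient -/
def JJ (u φ : ℂ → ℝ) (a b : ℝ) : ℝ≥0∞ := ∫⁻ z, ENNReal.ofReal (φ z) * bg u a b z

/-- the total integral of the gradient -/
def JT (u : ℂ → ℝ) (x₀ : ℂ) (h : ℝ) : ℝ≥0∞ :=
  ∫⁻ z in Metric.closedBall x₀ (2 * h), ENNReal.ofReal (gn u z)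

theorem Pc.tonelli (H : Pc Ω₀ V u φ x₀ h k M L a b α) (h5 : M5) (h6 : M6) :
    ∫⁻ s in Ioo a b, ∫⁻ x, ENNReal.ofReal (φ x) * {x | s < uu u x₀ h x}.indicator
      (fun x => ENNReal.ofReal (2 * Real.sin (ang α k (low (Metric.ball x₀ (2 * h)) u s) x) ^ 2)) x
      ≤ ENNReal.ofReal (α - Real.sin α * Real.cos α) *
        (ENNReal.ofReal ((2 + 2 / Real.pi) / k) * (JJ u φ a b +
          ENNReal.ofReal (L * α / k) * JT u x₀ h)) := by
  set Ω : Set ℂ := Metric.ball x₀ (2 * h) with hΩ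
  set D : ℂ × ℝ → ℝ := fun p => Metric.infDist p.1 (low Ω u p.2) with hD
  have mD : Measurable D := D_meas Metric.isBounded_ball u
  set v : ℂ → ℝ := uu u x₀ h with hv
  have mv : Measurable v := H.uu_meas
  have mφ : Measurable φ := H.sφ.continuous.measurable
  set S : Set ((ℂ × ℝ) × ℝ) := {p | p.1.2 < v p.1.1 ∧ k * D p.1 < p.2} with hS
  have mS : MeasurableSet S := by
    refine MeasurableSet.inter ?_ ?_
    · exact measurableSet_lt (measurable_snd.comp measurable_fst)
        (mv.comp (measurable_fst.comp measurable_fst))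
    · exact measurableSet_lt ((mD.comp measurable_fst).const_mul k) measurable_snd
  set F : (ℂ × ℝ) × ℝ → ℝ≥0∞ := fun p => ENNReal.ofReal (φ p.1.1) *
    S.indicator (fun p => ww α p.2) p with hF
  have mF : Measurable F := by
    refine ((mφ.comp (measurable_fst.comp measurable_fst)).ennreal_ofReal).mul ?_
    exact ((ww_meas α).comp measurable_snd).indicator mS
  -- first step
  have s1 : ∀ s x, ENNReal.ofReal (φ x) * {x | s < v x}.indicator
      (fun x => ENNReal.ofReal (2 * Real.sin (ang α k (low Ω u s) x) ^ 2)) x ≤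
      ∫⁻ τ in Ioo 0 α, F ((x, s), τ) := by
    intro s x
    rw [hF]
    simp only
    rw [lintegral_const_mul']
    swap
    · exact ENNReal.ofReal_ne_top
    refine mul_le_mul_right ?_ _
    by_cases hx : s < v x
    · rw [indicator_of_mem (show x ∈ {x | s < v x} from hx)]
      refine (layer H.hk H.α1 _ x).trans (lintegral_mono fun τ => ?_)
      by_cases hτ : k * Metric.infDist x (low Ω u s) < τ
      · rw [indicator_of_mem (show τ ∈ {τ | k * Metric.infDist x (low Ω u s) < τ} from hτ),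
          indicator_of_mem (show ((x, s), τ) ∈ S from ⟨hx, hτ⟩)]
      · rw [indicator_of_notMem (show τ ∉ {τ | k * Metric.infDist x (low Ω u s) < τ} from hτ)]
        exact zero_le
    · rw [indicator_of_notMem (show x ∉ {x | s < v x} from hx)]
      exact zero_le
  -- measurability of partial integrals
  have mG : Measurable fun p : ℂ × ℝ => ∫⁻ τ in Ioo 0 α, F (p, τ) := mF.lintegral_prod_right'
  have mF2 : Measurable fun q : (ℂ × ℝ) × ℝ => F ((q.1.1, q.2), q.1.2) :=
    mF.comp (((measurable_fst.comp measurable_fst).prodMk measurable_snd).prodMk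
      (measurable_snd.comp measurable_fst))
  have mK : Measurable fun p : ℂ × ℝ => ∫⁻ s in Ioo a b, F ((p.1, s), p.2) :=
    mF2.lintegral_prod_right'
  -- swap
  have s2 : ∫⁻ s in Ioo a b, ∫⁻ x, ∫⁻ τ in Ioo 0 α, F ((x, s), τ) =
      ∫⁻ τ in Ioo 0 α, ∫⁻ x, ∫⁻ s in Ioo a b, F ((x, s), τ) := by
    calc ∫⁻ s in Ioo a b, ∫⁻ x, ∫⁻ τ in Ioo 0 α, F ((x, s), τ)
        = ∫⁻ x, ∫⁻ s in Ioo a b, ∫⁻ τ in Ioo 0 α, F ((x, s), τ) :=
          lintegral_lintegral_swap (mG.comp measurable_swap).aemeasurable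
      _ = ∫⁻ x, ∫⁻ τ in Ioo 0 α, ∫⁻ s in Ioo a b, F ((x, s), τ) := by
          refine lintegral_congr fun x => ?_
          refine lintegral_lintegral_swap (Measurable.aemeasurable ?_)
          exact mF.comp ((measurable_const.prodMk measurable_fst).prodMk measurable_snd)
      _ = ∫⁻ τ in Ioo 0 α, ∫⁻ x, ∫⁻ s in Ioo a b, F ((x, s), τ) :=
          lintegral_lintegral_swap mK.aemeasurable
  -- the inner integral
  have s3 : ∀ τ ∈ Ioo (0 : ℝ) α, ∀ x, ∫⁻ s in Ioo a b, F ((x, s), τ) ≤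
      ww α τ * (ENNReal.ofReal (φ x) * NN u a b (τ / k) x) := by
    intro τ hτ x
    by_cases hx : x ∈ Metric.ball x₀ h
    · have e1 : ∀ s, F ((x, s), τ) = ENNReal.ofReal (φ x) * ww α τ *
          {s | s < u x ∧ k * Metric.infDist x (low Ω u s) < τ}.indicator (fun _ => 1) s := by
        intro s
        have hvx : v x = u x := uu_eq (H.sub hx)
        rw [hF]
        simp only
        by_cases h1 : s < u x ∧ k * Metric.infDist x (low Ω u s) < τ
        · rw [indicator_of_mem (show ((x, s), τ) ∈ S from by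
            refine ⟨?_, h1.2⟩
            show s < v x
            rw [hvx]
            exact h1.1),
            indicator_of_mem (show s ∈ {s | s < u x ∧ k * Metric.infDist x (low Ω u s) < τ} from h1),
            mul_one]
        · rw [indicator_of_notMem (show ((x, s), τ) ∉ S from fun h2 => h1 (by
            refine ⟨?_, h2.2⟩
            rw [← hvx]
            exact h2.1)),
            indicator_of_notMem
              (show s ∉ {s | s < u x ∧ k * Metric.infDist x (low Ω u s) < τ} from h1),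
            mul_zero, mul_zero]
      have m1 : MeasurableSet {s | s < u x ∧ k * Metric.infDist x (low Ω u s) < τ} := by
        refine MeasurableSet.inter measurableSet_Iio ?_
        exact measurableSet_lt ((mD.comp (measurable_const.prodMk measurable_id)).const_mul k)
          measurable_const
      simp_rw [e1]
      rw [lintegral_const_mul' _ _ (ENNReal.mul_ne_top ENNReal.ofReal_ne_top (by
        unfold ww
        exact ENNReal.ofReal_ne_top)), lintegral_indicator_const m1, one_mul,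
        Measure.restrict_apply m1, inter_comm]
      have h1 := levels h5 (u := u) (V := V) (x := x) H.hk hΩ H.solb
        (fun z hz => ⟨H.V0 z hz, (H.bV z (Metric.ball_subset_closedBall hz)).2⟩) H.hM H.α1 H.kh
        H.a0.le H.ab.le hx hτ.1 hτ.2.le
      calc ENNReal.ofReal (φ x) * ww α τ *
            volume (Ioo a b ∩ {s | s < u x ∧ k * Metric.infDist x (low Ω u s) < τ})
          ≤ ENNReal.ofReal (φ x) * ww α τ * NN u a b (τ / k) x := mul_le_mul_right h1 _
        _ = _ := by ring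
    · have e1 : ∀ s, F ((x, s), τ) = 0 := by
        intro s
        rw [hF]
        simp only
        rw [H.φz hx, ENNReal.ofReal_zero, zero_mul]
      simp_rw [e1]
      simp
  -- assemble
  set Q : ℝ≥0∞ := ENNReal.ofReal ((2 + 2 / Real.pi) / k) * (JJ u φ a b +
          ENNReal.ofReal (L * α / k) * JT u x₀ h) with hQ
  have s4 : ∀ τ ∈ Ioo (0 : ℝ) α, ∫⁻ x, ∫⁻ s in Ioo a b, F ((x, s), τ) ≤
      ww α τ * ENNReal.ofReal τ * Q := by
    intro τ hτ
    have hτk : 0 < τ / k := div_pos hτ.1 H.hk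
    have hτh : τ / k ≤ h := by
      refine le_trans ?_ H.kh
      rw [div_le_div_iff₀ H.hk (by linarith [H.hk])]
      have := H.hk
      have := H.α1
      nlinarith [hτ.2]
    calc ∫⁻ x, ∫⁻ s in Ioo a b, F ((x, s), τ)
        ≤ ∫⁻ x, ww α τ * (ENNReal.ofReal (φ x) * NN u a b (τ / k) x) :=
          lintegral_mono fun x => s3 τ hτ x
      _ = ww α τ * ∫⁻ x, ENNReal.ofReal (φ x) * NN u a b (τ / k) x :=
          lintegral_const_mul' _ _ (by
            unfold ww
            exact ENNReal.ofReal_ne_top)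
      _ ≤ ww α τ * (ENNReal.ofReal ((2 + 2 / Real.pi) * (τ / k)) * (JJ u φ a b +
            ENNReal.ofReal (L * (τ / k)) * JT u x₀ h)) := by
          refine mul_le_mul_right ?_ _
          exact h6 Ω₀ u φ x₀ h (τ / k) L a b H.open₀ H.sol.smooth hτk hτh H.L0 H.cb
            H.sφ.continuous H.φ0 (fun z hz => H.φz hz) H.lip
      _ ≤ ww α τ * (ENNReal.ofReal ((2 + 2 / Real.pi) * (τ / k)) * (JJ u φ a b +
            ENNReal.ofReal (L * α / k) * JT u x₀ h)) := by
          refine mul_le_mul_right (mul_le_mul_right (add_le_add_right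
            (mul_le_mul_left (ENNReal.ofReal_le_ofReal ?_) _) _) _) _
          rw [← mul_div_assoc]
          exact div_le_div_of_nonneg_right (mul_le_mul_of_nonneg_left hτ.2.le H.L0) H.hk.le
      _ = ww α τ * ENNReal.ofReal τ * Q := by
          have e : (2 + 2 / Real.pi) * (τ / k) = τ * ((2 + 2 / Real.pi) / k) := by
            field_simp
          rw [e, ENNReal.ofReal_mul hτ.1.le, hQ]
          ring
  calc ∫⁻ s in Ioo a b, ∫⁻ x, ENNReal.ofReal (φ x) * {x | s < v x}.indicator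
        (fun x => ENNReal.ofReal (2 * Real.sin (ang α k (low Ω u s) x) ^ 2)) x
      ≤ ∫⁻ s in Ioo a b, ∫⁻ x, ∫⁻ τ in Ioo 0 α, F ((x, s), τ) :=
        lintegral_mono fun s => lintegral_mono fun x => s1 s x
    _ = ∫⁻ τ in Ioo 0 α, ∫⁻ x, ∫⁻ s in Ioo a b, F ((x, s), τ) := s2
    _ ≤ ∫⁻ τ in Ioo 0 α, ww α τ * ENNReal.ofReal τ * Q :=
        setLIntegral_mono' measurableSet_Ioo s4
    _ = (∫⁻ τ in Ioo 0 α, ww α τ * ENNReal.ofReal τ) * Q :=
        lintegral_mul_const _ ((ww_meas α).mul measurable_id.ennreal_ofReal)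
    _ = _ := by rw [ww_int H.α0 H.α1]

end

end Pool.Agent.H25.TI
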