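import Pool.Agent.H25.TI.M7b

/-!
# M7c: the inequality on a small disc
-/

set_option autoImplicit false
open MeasureTheory Filter Topology Complex Set
open scoped ContDiff ENNReal NNReal
open Pool.Agent.Q73.NL (dx dy lap Sol)

namespace Pool.Agent.H25.TI

noncomputable section

variable {Ω₀ : Set ℂ} {V u φ : ℂ → ℝ} {x₀ : ℂ} {h k M L a b α : ℝ}

/-- the gradient in the band `a < u < b`, real valued -/
def bgr (u : ℂ → ℝ) (a b : ℝ) (z : ℂ) : ℝ := if a < u z ∧ u z < b then gn u z else 0

theorem gn_nonneg (u : ℂ → ℝ) (z : ℂ) : 0 ≤ gn u z := Real.sqrt_nonneg _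

theorem bgr_nonneg (u : ℂ → ℝ) (a b : ℝ) (z : ℂ) : 0 ≤ bgr u a b z := by
  unfold bgr
  split_ifs
  · exact gn_nonneg u z
  · exact le_rfl

theorem bg_eq (u : ℂ → ℝ) (a b : ℝ) (z : ℂ) : bg u a b z = ENNReal.ofReal (bgr u a b z) := by
  unfold bg bgr
  split_ifs
  · rfl
  · simp

theorem gn_cont {Ω : Set ℂ} {u : ℂ → ℝ} (hΩ : IsOpen Ω) (hu : ContDiffOn ℝ ∞ u Ω) :
    ContinuousOn (gn u) Ω := by
  have cD : ∀ v : ℂ, ContinuousOn (fun z => fderiv ℝ u z v) Ω := fun v =>
    ((hu.fderiv_of_isOpen hΩ (m := ∞) (by simp)).continuousOn).clm_apply continuousOn_const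
  exact (((cD 1).pow 2).add ((cD I).pow 2)).sqrt

theorem Pc.int (H : Pc Ω₀ V u φ x₀ h k M L a b α) {G : ℂ → ℝ} (hG : ContinuousOn G Ω₀) :
    Integrable (fun z => φ z * G z) := by
  have hsub : tsupport φ ⊆ Ω₀ := H.tφ.trans (H.sub.trans H.sub2)
  have h2 : Function.support (fun z => φ z * G z) ⊆ tsupport φ := by
    intro z hz
    by_contra h
    exact hz (by
      show φ z * G z = 0
      rw [image_eq_zero_of_notMem_tsupport h, zero_mul])
  exact (integrableOn_iff_integrable_of_support_subset h2).1
    ((H.sφ.continuous.continuousOn.mul (hG.mono hsub)).integrableOn_compact H.cφ)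

theorem Pc.int_bgr (H : Pc Ω₀ V u φ x₀ h k M L a b α) :
    Integrable (fun z => φ z * bgr u a b z) := by
  have h1 := H.int (gn_cont H.open₀ H.sol.smooth)
  have hm : MeasurableSet {z | z ∈ Metric.ball x₀ (2 * h) ∧ (a < u z ∧ u z < b)} := by
    have h2 := (H.solb.smooth.continuousOn.isOpen_inter_preimage Metric.isOpen_ball
      (isOpen_Ioo (a := a) (b := b)))
    exact h2.measurableSet
  refine (h1.indicator hm).congr (Eventually.of_forall fun z => ?_)
  by_cases hz : z ∈ Metric.ball x₀ h
  · by_cases hb : a < u z ∧ u z < b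
    · rw [indicator_of_mem (show z ∈ {z | z ∈ Metric.ball x₀ (2 * h) ∧ (a < u z ∧ u z < b)} from
        ⟨H.sub hz, hb⟩)]
      simp only [bgr, if_pos hb]
    · rw [indicator_of_notMem (show z ∉ {z | z ∈ Metric.ball x₀ (2 * h) ∧ (a < u z ∧ u z < b)} from
        fun h => hb h.2)]
      simp only [bgr, if_neg hb, mul_zero]
  · simp [Set.indicator, H.φz hz]

theorem Pc.JJ_eq (H : Pc Ω₀ V u φ x₀ h k M L a b α) :
    JJ u φ a b = ENNReal.ofReal (∫ z, φ z * bgr u a b z) := by
  unfold JJ
  rw [ofReal_integral_eq_lintegral_ofReal H.int_bgr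
    (Eventually.of_forall fun z => mul_nonneg (H.φ0 z) (bgr_nonneg _ _ _ _))]
  refine lintegral_congr fun z => ?_
  rw [bg_eq, ENNReal.ofReal_mul (H.φ0 z)]

theorem Pc.JT_eq (H : Pc Ω₀ V u φ x₀ h k M L a b α) :
    JT u x₀ h = ENNReal.ofReal (∫ z in Metric.closedBall x₀ (2 * h), gn u z) := by
  unfold JT
  rw [ofReal_integral_eq_lintegral_ofReal
    (((gn_cont H.open₀ H.sol.smooth).mono H.cb).integrableOn_compact (isCompact_closedBall _ _))
    (Eventually.of_forall fun z => gn_nonneg _ _)]

/-- integrals over `{u > s}` -/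
theorem Pc.conv (H : Pc Ω₀ V u φ x₀ h k M L a b α) {G : ℂ → ℝ} (hG : ContinuousOn G Ω₀) (s : ℝ)
    (hG0 : ∀ z ∈ Metric.ball x₀ (2 * h), s < u z → 0 ≤ G z) :
    ENNReal.ofReal (∫ z in up (Metric.ball x₀ (2 * h)) u s, φ z * G z) =
      ∫⁻ z, ENNReal.ofReal (φ z) * {x | s < uu u x₀ h x}.indicator
        (fun x => ENNReal.ofReal (G x)) z := by
  have huo : IsOpen (up (Metric.ball x₀ (2 * h)) u s) :=
    up_open Metric.isOpen_ball H.solb.smooth.continuousOn s
  rw [ofReal_integral_eq_lintegral_ofReal (H.int hG).integrableOn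
    ((ae_restrict_mem huo.measurableSet).mono fun z hz => mul_nonneg (H.φ0 z)
      (hG0 z hz.1 hz.2)), ← lintegral_indicator huo.measurableSet]
  refine lintegral_congr fun z => ?_
  by_cases hz : z ∈ Metric.ball x₀ h
  · have hv : uu u x₀ h z = u z := uu_eq (H.sub hz)
    by_cases hs : s < u z
    · rw [indicator_of_mem (show z ∈ up (Metric.ball x₀ (2 * h)) u s from ⟨H.sub hz, hs⟩),
        indicator_of_mem (show z ∈ {x | s < uu u x₀ h x} by
          show s < uu u x₀ h z
          rw [hv]
          exact hs), ENNReal.ofReal_mul (H.φ0 z)]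
    · rw [indicator_of_notMem (show z ∉ up (Metric.ball x₀ (2 * h)) u s from fun h => hs h.2),
        indicator_of_notMem (show z ∉ {x | s < uu u x₀ h x} by
          show ¬ s < uu u x₀ h z
          rw [hv]
          exact hs), mul_zero]
  · rw [H.φz hz]
    simp [Set.indicator, H.φz hz]

theorem cut_ge {a b t : ℝ} : a ≤ cut a b t := le_max_left _ _

theorem cut_cont (a b : ℝ) : Continuous (cut a b) := by
  unfold cut
  fun_prop

/-- the length of the levels below `t` -/
theorem len_levels (a b t : ℝ) : volume (Ioo a b ∩ Iio t) = ENNReal.ofReal (cut a b t - a) := by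
  have h1 : Ioo a b ∩ Iio t = Ioo a (min b t) := by
    ext s
    simp only [mem_inter_iff, mem_Ioo, mem_Iio, lt_min_iff]
    tauto
  rw [h1, Real.volume_Ioo]
  unfold cut
  rcases le_total a (min b t) with h | h
  · rw [max_eq_right h]
  · rw [max_eq_left h, sub_self, ENNReal.ofReal_zero, ENNReal.ofReal_of_nonpos (by linarith)]

/-- the integral of `1 / s` over the levels below `t` -/
theorem log_levels {a b : ℝ} (ha : 0 < a) (t : ℝ) :
    ∫⁻ s in Ioo a b, (Iio t).indicator (fun s => ENNReal.ofReal (1 / s)) s =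
      ENNReal.ofReal (Real.log (cut a b t / a)) := by
  rw [← lintegral_indicator measurableSet_Ioo]
  have e : (Ioo a b).indicator (fun s => (Iio t).indicator (fun s => ENNReal.ofReal (1 / s)) s) =
      (Ioo a (min b t)).indicator fun s => ENNReal.ofReal (1 / s) := by
    ext s
    by_cases h1 : s ∈ Ioo a (min b t)
    · rw [indicator_of_mem h1, indicator_of_mem (show s ∈ Ioo a b from
        ⟨h1.1, h1.2.trans_le (min_le_left _ _)⟩), indicator_of_mem (show s ∈ Iio t from
        h1.2.trans_le (min_le_right _ _))]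
    · rw [indicator_of_notMem h1]
      by_cases h2 : s ∈ Ioo a b
      · rw [indicator_of_mem h2, indicator_of_notMem]
        intro h3
        exact h1 ⟨h2.1, lt_min h2.2 h3⟩
      · rw [indicator_of_notMem h2]
  rw [e, lintegral_indicator measurableSet_Ioo]
  unfold cut
  rcases le_total a (min b t) with h | h
  · rw [max_eq_right h, ← integral_one_div_of_pos ha (ha.trans_le h),
      intervalIntegral.integral_of_le h, integral_Ioc_eq_integral_Ioo,
      ofReal_integral_eq_lintegral_ofReal]
    · refine (ContinuousOn.integrableOn_Icc ?_).mono_set Ioo_subset_Icc_self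
      exact continuousOn_const.div continuousOn_id fun x hx => (ha.trans_le hx.1).ne'
    · refine (ae_restrict_mem measurableSet_Ioo).mono fun s hs => ?_
      exact one_div_nonneg.2 (ha.le.trans hs.1.le)
  · rw [max_eq_left h, div_self ha.ne', Real.log_one, ENNReal.ofReal_zero, Ioo_eq_empty]
    · simp
    · exact not_lt.2 h

theorem Pc.main (H : Pc Ω₀ V u φ x₀ h k M L a b α) (h2 : M2) (h5 : M5) (h6 : M6) :
    k ^ 2 * (∫ z, φ z * (cut a b (u z) - a)) ≤
      Real.cos α ^ 2 * (∫ z, φ z * (V z * (u z * Real.log (cut a b (u z) / a)))) +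
      k * ((2 + 2 / Real.pi) * (α - Real.sin α * Real.cos α)) * ((∫ z, φ z * bgr u a b z) +
        L * α / k * ∫ z in Metric.closedBall x₀ (2 * h), gn u z) +
      (b - a) / a * ((∫ z, (|dx φ z| * |dx u z| + |dy φ z| * |dy u z|)) +
        ∫ z, |lap φ z| * |u z|) := by
  set Ω : Set ℂ := Metric.ball x₀ (2 * h) with hΩ
  set v : ℂ → ℝ := uu u x₀ h with hv
  have mv : Measurable v := H.uu_meas
  have mφ : Measurable φ := H.sφ.continuous.measurable
  have hk := H.hk
  have ha := H.a0
  have hab := H.ab
  have cu : ContinuousOn u Ω₀ := H.sol.smooth.continuousOn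
  have cV : ContinuousOn V Ω₀ := H.sV.continuousOn
  set R : ℝ := (∫ z, (|dx φ z| * |dx u z| + |dy φ z| * |dy u z|)) + ∫ z, |lap φ z| * |u z|
    with hR
  have hR0 : 0 ≤ R := add_nonneg (integral_nonneg fun z => by positivity)
    (integral_nonneg fun z => by positivity)
  -- the inequality at a level
  have lev : ∀ s ∈ Ioo a b, k ^ 2 * (∫ z in up Ω u s, φ z * 1) ≤
      k ^ 2 * (∫ z in up Ω u s, φ z * (2 * Real.sin (ang α k (low Ω u s) z) ^ 2)) +
      Real.cos α ^ 2 * (1 / s * ∫ z in up Ω u s, φ z * (V z * u z)) + R / a := by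
    intro s hs
    have hs0 : 0 < s := ha.trans hs.1
    have h4 := m4 h2 Ω V u φ α k s Metric.isOpen_ball Metric.isBounded_ball H.solb
      (H.sV.mono H.sub2) H.V0 H.sφ H.cφ (H.tφ.trans H.sub) H.φ0 H.α0 H.α1 hk hs0
    have huo : IsOpen (up Ω u s) := up_open Metric.isOpen_ball H.solb.smooth.continuousOn s
    have ca : Continuous (ang α k (low Ω u s)) := ang_cont _ _ _
    have i1 := H.int (G := fun _ => 1) continuousOn_const
    have i2 := H.int (G := fun z => 2 * Real.sin (ang α k (low Ω u s) z) ^ 2)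
      (by fun_prop)
    have i3 := H.int (G := fun z => V z * Real.cos (ang α k (low Ω u s) z) ^ 2 -
        k ^ 2 * Real.sin (ang α k (low Ω u s) z) ^ 2)
      ((cV.mul ((Real.continuous_cos.comp ca).continuousOn.pow 2)).sub
        (continuousOn_const.mul ((Real.continuous_sin.comp ca).continuousOn.pow 2)))
    have h5 : k ^ 2 * (∫ z in up Ω u s, φ z * 1) -
        k ^ 2 * (∫ z in up Ω u s, φ z * (2 * Real.sin (ang α k (low Ω u s) z) ^ 2)) ≤
        ∫ z in up Ω u s, φ z * (V z * Real.cos (ang α k (low Ω u s) z) ^ 2 -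
        k ^ 2 * Real.sin (ang α k (low Ω u s) z) ^ 2) := by
      rw [← integral_const_mul, ← integral_const_mul, ← integral_sub
        (i1.integrableOn.const_mul _) (i2.integrableOn.const_mul _)]
      refine setIntegral_mono_on ((i1.integrableOn.const_mul _).sub (i2.integrableOn.const_mul _))
        i3.integrableOn huo.measurableSet fun z hz => ?_
      have h6 : k ^ 2 ≤ V z := (H.bV z (Metric.ball_subset_closedBall hz.1)).1
      have h7 := Real.sin_sq_add_cos_sq (ang α k (low Ω u s) z)
      have h8 : 0 ≤ φ z * ((V z - k ^ 2) * Real.cos (ang α k (low Ω u s) z) ^ 2) :=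
        mul_nonneg (H.φ0 z) (mul_nonneg (by linarith) (sq_nonneg _))
      have h9 : Real.cos (ang α k (low Ω u s) z) ^ 2 =
        1 - Real.sin (ang α k (low Ω u s) z) ^ 2 := by linarith
      rw [h9] at h8 ⊢
      nlinarith
    have h6 : 1 / s * R ≤ R / a := by
      rw [one_div, div_eq_inv_mul]
      exact mul_le_mul_of_nonneg_right ((inv_le_inv₀ hs0 ha).2 hs.1.le) hR0
    have h7 : Real.cos α ^ 2 / s * (∫ z in up Ω u s, φ z * (V z * u z)) =
      Real.cos α ^ 2 * (1 / s * ∫ z in up Ω u s, φ z * (V z * u z)) := by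
      field_simp
    rw [h7] at h4
    rw [hR] at h6
    linarith
  -- in extended form
  set P1 : ℝ → ℝ≥0∞ := fun s => ∫⁻ z, ENNReal.ofReal (φ z) * {x | s < v x}.indicator
        (fun x => ENNReal.ofReal 1) z with hP1
  set P2 : ℝ → ℝ≥0∞ := fun s => ∫⁻ z, ENNReal.ofReal (φ z) * {x | s < v x}.indicator
        (fun x => ENNReal.ofReal (2 * Real.sin (ang α k (low Ω u s) x) ^ 2)) z with hP2
  set P3 : ℝ → ℝ≥0∞ := fun s => ∫⁻ z, ENNReal.ofReal (φ z) * {x | s < v x}.indicator
        (fun x => ENNReal.ofReal (V x * u x)) z with hP3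
  have lev2 : ∀ s ∈ Ioo a b, ENNReal.ofReal (k ^ 2) * P1 s ≤ ENNReal.ofReal (k ^ 2) * P2 s +
      ENNReal.ofReal (Real.cos α ^ 2) * (ENNReal.ofReal (1 / s) * P3 s) +
      ENNReal.ofReal (R / a) := by
    intro s hs
    have hs0 : 0 < s := ha.trans hs.1
    have ca : Continuous (ang α k (low Ω u s)) := ang_cont _ _ _
    have huo : IsOpen (up Ω u s) := up_open Metric.isOpen_ball H.solb.smooth.continuousOn s
    have e1 := H.conv (G := fun _ => 1) continuousOn_const s (fun _ _ _ => zero_le_one)
    have e2 := H.conv (G := fun z => 2 * Real.sin (ang α k (low Ω u s) z) ^ 2)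
      (by fun_prop) s (fun _ _ _ => by positivity)
    have hVu : ∀ z ∈ Ω, s < u z → 0 ≤ V z * u z := fun z hz h =>
      mul_nonneg (H.V0 z hz) (hs0.trans h).le
    have e3 := H.conv (G := fun z => V z * u z) (cV.mul cu) s hVu
    have q1 : 0 ≤ ∫ z in up Ω u s, φ z * (2 * Real.sin (ang α k (low Ω u s) z) ^ 2) :=
      integral_nonneg fun z => mul_nonneg (H.φ0 z) (by positivity)
    have q2 : 0 ≤ ∫ z in up Ω u s, φ z * (V z * u z) :=
      setIntegral_nonneg huo.measurableSet fun z hz => mul_nonneg (H.φ0 z) (hVu z hz.1 hz.2)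
    rw [hP1, hP2, hP3]
    simp only
    rw [← e1, ← e2, ← e3, ← ENNReal.ofReal_mul (sq_nonneg k), ← ENNReal.ofReal_mul (sq_nonneg k),
      ← ENNReal.ofReal_mul (by positivity), ← ENNReal.ofReal_mul (sq_nonneg _),
      ← ENNReal.ofReal_add (by positivity) (by positivity),
      ← ENNReal.ofReal_add (by positivity) (by positivity)]
    exact ENNReal.ofReal_le_ofReal (lev s hs)
  -- measurability
  have mS : MeasurableSet {p : ℝ × ℂ | p.1 < v p.2} :=
    measurableSet_lt measurable_fst (mv.comp measurable_snd)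
  have mbV : Measurable fun z => {x : ℂ | x ∈ Ω}.indicator (fun x => ENNReal.ofReal (V x * u x)) z := by
    have h1 : ContinuousOn (fun x => V x * u x) Ω := (cV.mul cu).mono H.sub2
    have h2 := (h1.aemeasurable (μ := volume) measurableSet_ball)
    classical
    have h3 : (fun z => {x : ℂ | x ∈ Ω}.indicator (fun x => ENNReal.ofReal (V x * u x)) z) =
        Ω.piecewise (fun x => ENNReal.ofReal (V x * u x)) (fun _ => 0) := by
      ext z
      by_cases hz : z ∈ Ω
      · rw [indicator_of_mem (show z ∈ {x : ℂ | x ∈ Ω} from hz), piecewise_eq_of_mem _ _ _ hz]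
      · rw [indicator_of_notMem (show z ∉ {x : ℂ | x ∈ Ω} from hz), piecewise_eq_of_notMem _ _ _ hz]
    rw [h3]
    exact ContinuousOn.measurable_piecewise
      (ENNReal.continuous_ofReal.comp_continuousOn h1) continuousOn_const measurableSet_ball
  -- first term
  have t1 : ∫⁻ s in Ioo a b, P1 s = ENNReal.ofReal (∫ z, φ z * (cut a b (u z) - a)) := by
    have i1 := H.int (G := fun z => cut a b (u z) - a)
      (((cut_cont a b).comp_continuousOn cu).sub continuousOn_const)
    rw [ofReal_integral_eq_lintegral_ofReal i1 (Eventually.of_forall fun z =>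
      mul_nonneg (H.φ0 z) (by linarith [cut_ge (a := a) (b := b) (t := u z)]))]
    have m1 : Measurable fun p : ℝ × ℂ => ENNReal.ofReal (φ p.2) * {x | p.1 < v x}.indicator
        (fun x => ENNReal.ofReal 1) p.2 := by
      refine ((mφ.comp measurable_snd).ennreal_ofReal).mul ?_
      have : (fun p : ℝ × ℂ => {x | p.1 < v x}.indicator (fun _ => ENNReal.ofReal 1) p.2) =
        {p : ℝ × ℂ | p.1 < v p.2}.indicator (fun _ => ENNReal.ofReal 1) := rfl
      rw [this]
      exact measurable_const.indicator mS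
    rw [hP1]
    simp only
    rw [lintegral_lintegral_swap m1.aemeasurable]
    refine lintegral_congr fun z => ?_
    rw [lintegral_const_mul' _ _ ENNReal.ofReal_ne_top, ENNReal.ofReal_mul (H.φ0 z)]
    by_cases hz : z ∈ Metric.ball x₀ h
    · have hvz : v z = u z := uu_eq (H.sub hz)
      congr 1
      have e : ∀ s : ℝ, {x | s < v x}.indicator (fun _ => ENNReal.ofReal 1) z =
          (Iio (u z)).indicator (fun _ => (1 : ℝ≥0∞)) s := by
        intro s
        by_cases h1 : s < u z
        · rw [indicator_of_mem (show z ∈ {x | s < v x} by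
            show s < v z
            rw [hvz]
            exact h1), indicator_of_mem (show s ∈ Iio (u z) from h1), ENNReal.ofReal_one]
        · rw [indicator_of_notMem (show z ∉ {x | s < v x} by
            show ¬ s < v z
            rw [hvz]
            exact h1), indicator_of_notMem (show s ∉ Iio (u z) from h1)]
      simp_rw [e]
      rw [lintegral_indicator_const measurableSet_Iio, one_mul,
        Measure.restrict_apply measurableSet_Iio, inter_comm, len_levels]
    · rw [H.φz hz]
      simp
  -- third term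
  have t3 : ∫⁻ s in Ioo a b, ENNReal.ofReal (1 / s) * P3 s =
      ENNReal.ofReal (∫ z, φ z * (V z * (u z * Real.log (cut a b (u z) / a)))) := by
    have i1 := H.int (G := fun z => V z * (u z * Real.log (cut a b (u z) / a)))
      (cV.mul (cu.mul (ContinuousOn.log (((cut_cont a b).comp_continuousOn cu).div_const a)
        (fun z _ => (div_pos (ha.trans_le cut_ge) ha).ne'))))
    have hl0 : ∀ z, 0 ≤ Real.log (cut a b (u z) / a) := fun z =>
      Real.log_nonneg ((one_le_div ha).2 cut_ge)
    have hneg : ∀ z, u z ≤ a → Real.log (cut a b (u z) / a) = 0 := by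
      intro z hz
      have : cut a b (u z) = a := by
        unfold cut
        exact max_eq_left ((min_le_right _ _).trans hz)
      rw [this, div_self ha.ne', Real.log_one]
    rw [ofReal_integral_eq_lintegral_ofReal i1 (Eventually.of_forall fun z => by
      show 0 ≤ φ z * (V z * (u z * Real.log (cut a b (u z) / a)))
      by_cases hz : z ∈ Metric.ball x₀ h
      · rcases le_total (u z) a with h1 | h1
        · rw [hneg z h1]
          simp
        · exact mul_nonneg (H.φ0 z) (mul_nonneg (H.V0 z (H.sub hz))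
            (mul_nonneg (ha.le.trans h1) (hl0 z)))
      · rw [H.φz hz, zero_mul])]
    have m1 : Measurable fun p : ℝ × ℂ => ENNReal.ofReal (1 / p.1) * (ENNReal.ofReal (φ p.2) *
        {x | p.1 < v x}.indicator (fun x => {x : ℂ | x ∈ Ω}.indicator
          (fun x => ENNReal.ofReal (V x * u x)) x) p.2) := by
      refine Measurable.mul ?_ (((mφ.comp measurable_snd).ennreal_ofReal).mul ?_)
      · exact (measurable_const.div measurable_fst).ennreal_ofReal
      have : (fun p : ℝ × ℂ => {x | p.1 < v x}.indicator (fun x => {x : ℂ | x ∈ Ω}.indicator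
          (fun x => ENNReal.ofReal (V x * u x)) x) p.2) =
        {p : ℝ × ℂ | p.1 < v p.2}.indicator (fun p => {x : ℂ | x ∈ Ω}.indicator
          (fun x => ENNReal.ofReal (V x * u x)) p.2) := rfl
      rw [this]
      exact (mbV.comp measurable_snd).indicator mS
    have e0 : ∀ s : ℝ, ENNReal.ofReal (1 / s) * P3 s = ∫⁻ z, ENNReal.ofReal (1 / s) *
        (ENNReal.ofReal (φ z) * {x | s < v x}.indicator (fun x => {x : ℂ | x ∈ Ω}.indicator
          (fun x => ENNReal.ofReal (V x * u x)) x) z) := by
      intro s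
      rw [lintegral_const_mul' _ _ ENNReal.ofReal_ne_top, hP3]
      simp only
      congr 1
      refine lintegral_congr fun z => ?_
      by_cases hz : z ∈ Metric.ball x₀ h
      · by_cases h1 : s < v z
        · rw [indicator_of_mem (show z ∈ {x | s < v x} from h1),
            indicator_of_mem (show z ∈ {x | s < v x} from h1),
            indicator_of_mem (show z ∈ {x : ℂ | x ∈ Ω} from H.sub hz)]
        · rw [indicator_of_notMem (show z ∉ {x | s < v x} from h1),
            indicator_of_notMem (show z ∉ {x | s < v x} from h1)]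
      · rw [H.φz hz, ENNReal.ofReal_zero, zero_mul, zero_mul]
    simp_rw [e0]
    rw [lintegral_lintegral_swap m1.aemeasurable]
    refine lintegral_congr fun z => ?_
    by_cases hz : z ∈ Metric.ball x₀ h
    swap
    · rw [H.φz hz]
      simp
    have hvz : v z = u z := uu_eq (H.sub hz)
    have hVz := H.V0 z (H.sub hz)
    have e : ∀ s : ℝ, ENNReal.ofReal (1 / s) * (ENNReal.ofReal (φ z) * {x | s < v x}.indicator
        (fun x => {x : ℂ | x ∈ Ω}.indicator (fun x => ENNReal.ofReal (V x * u x)) x) z) =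
        (ENNReal.ofReal (φ z) * ENNReal.ofReal (V z * u z)) *
          (Iio (u z)).indicator (fun s => ENNReal.ofReal (1 / s)) s := by
      intro s
      by_cases h1 : s < u z
      · rw [indicator_of_mem (show z ∈ {x | s < v x} by
          show s < v z
          rw [hvz]
          exact h1), indicator_of_mem (show z ∈ {x : ℂ | x ∈ Ω} from H.sub hz),
          indicator_of_mem (show s ∈ Iio (u z) from h1)]
        ring
      · rw [indicator_of_notMem (show z ∉ {x | s < v x} by
          show ¬ s < v z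
          rw [hvz]
          exact h1), indicator_of_notMem (show s ∉ Iio (u z) from h1)]
        simp
    simp_rw [e]
    rw [lintegral_const_mul' _ _ (ENNReal.mul_ne_top ENNReal.ofReal_ne_top ENNReal.ofReal_ne_top),
      log_levels ha]
    rcases le_total (u z) a with h1 | h1
    · rw [hneg z h1]
      simp
    · have hu0 : 0 ≤ u z := ha.le.trans h1
      rw [← ENNReal.ofReal_mul (H.φ0 z), ← ENNReal.ofReal_mul
        (mul_nonneg (H.φ0 z) (mul_nonneg hVz hu0))]
      congr 1
      ring
  -- second term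
  have t2 := H.tonelli h5 h6
  -- measurability of the terms
  have mP1 : Measurable P1 := by
    have m1 : Measurable fun p : ℝ × ℂ => ENNReal.ofReal (φ p.2) * {x | p.1 < v x}.indicator
        (fun x => ENNReal.ofReal 1) p.2 := by
      refine ((mφ.comp measurable_snd).ennreal_ofReal).mul ?_
      have : (fun p : ℝ × ℂ => {x | p.1 < v x}.indicator (fun _ => ENNReal.ofReal 1) p.2) =
        {p : ℝ × ℂ | p.1 < v p.2}.indicator (fun _ => ENNReal.ofReal 1) := rfl
      rw [this]
      exact measurable_const.indicator mS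
    exact m1.lintegral_prod_right'
  have mP2 : Measurable P2 := by
    have mD : Measurable fun p : ℂ × ℝ => Metric.infDist p.1 (low Ω u p.2) :=
      D_meas Metric.isBounded_ball u
    have m1 : Measurable fun p : ℝ × ℂ => ENNReal.ofReal (φ p.2) * {x | p.1 < v x}.indicator
        (fun x => ENNReal.ofReal (2 * Real.sin (ang α k (low Ω u p.1) x) ^ 2)) p.2 := by
      refine ((mφ.comp measurable_snd).ennreal_ofReal).mul ?_
      have : (fun p : ℝ × ℂ => {x | p.1 < v x}.indicator
          (fun x => ENNReal.ofReal (2 * Real.sin (ang α k (low Ω u p.1) x) ^ 2)) p.2) =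
        {p : ℝ × ℂ | p.1 < v p.2}.indicator (fun p => ENNReal.ofReal
          (2 * Real.sin (ang α k (low Ω u p.1) p.2) ^ 2)) := rfl
      rw [this]
      refine Measurable.indicator ?_ mS
      unfold ang
      have h3 : Measurable fun p : ℝ × ℂ => Metric.infDist p.2 (low Ω u p.1) := by
        have h3a : Measurable ((fun p : ℂ × ℝ => Metric.infDist p.1 (low Ω u p.2)) ∘
            (Prod.swap : ℝ × ℂ → ℂ × ℝ)) := mD.comp measurable_swap
        have h3b : ((fun p : ℂ × ℝ => Metric.infDist p.1 (low Ω u p.2)) ∘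
            (Prod.swap : ℝ × ℂ → ℂ × ℝ)) = fun p => Metric.infDist p.2 (low Ω u p.1) := by
          funext p
          rfl
        rw [h3b] at h3a
        exact h3a
      exact (((Real.measurable_sin.comp (measurable_const.sub
        ((h3.const_mul k).min measurable_const))).pow_const 2).const_mul 2).ennreal_ofReal
    exact m1.lintegral_prod_right'
  -- integrate
  have step : ENNReal.ofReal (k ^ 2) * ∫⁻ s in Ioo a b, P1 s ≤
      ENNReal.ofReal (k ^ 2) * (∫⁻ s in Ioo a b, P2 s) + ENNReal.ofReal (Real.cos α ^ 2) *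
        (∫⁻ s in Ioo a b, ENNReal.ofReal (1 / s) * P3 s) +
        ENNReal.ofReal (R / a) * ENNReal.ofReal (b - a) := by
    rw [← lintegral_const_mul _ mP1, ← lintegral_const_mul _ mP2,
      ← lintegral_const_mul' (ENNReal.ofReal (Real.cos α ^ 2)) _ ENNReal.ofReal_ne_top]
    have e3 : ENNReal.ofReal (R / a) * ENNReal.ofReal (b - a) =
        ∫⁻ _ in Ioo a b, ENNReal.ofReal (R / a) := by
      rw [setLIntegral_const, Real.volume_Ioo]
    rw [e3, ← lintegral_add_left (mP2.const_mul _), ← lintegral_add_right _ measurable_const]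
    exact setLIntegral_mono' measurableSet_Ioo lev2
  rw [t1, t3, ← ENNReal.ofReal_mul (sq_nonneg k)] at step
  have hP2' : ENNReal.ofReal (k ^ 2) * (∫⁻ s in Ioo a b, P2 s) ≤
      ENNReal.ofReal (k * ((2 + 2 / Real.pi) * (α - Real.sin α * Real.cos α)) *
        ((∫ z, φ z * bgr u a b z) +
        L * α / k * ∫ z in Metric.closedBall x₀ (2 * h), gn u z)) := by
    have hJ0 : 0 ≤ ∫ z, φ z * bgr u a b z := integral_nonneg fun z =>
      mul_nonneg (H.φ0 z) (bgr_nonneg _ _ _ _)
    have hT0 : 0 ≤ ∫ z in Metric.closedBall x₀ (2 * h), gn u z :=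
      integral_nonneg fun z => gn_nonneg _ _
    have hLk : 0 ≤ L * α / k := div_nonneg (mul_nonneg H.L0 H.α0.le) hk.le
    have hsc : 0 ≤ α - Real.sin α * Real.cos α := by
      have h1 : Real.sin α ≤ α := Real.sin_le H.α0.le
      have h2 : 0 ≤ Real.cos α := Real.cos_nonneg_of_mem_Icc ⟨by linarith [H.α0, Real.pi_pos], H.α1⟩
      have h3 : Real.cos α ≤ 1 := Real.cos_le_one α
      nlinarith [H.α0]
    have hpi : 0 ≤ (2 + 2 / Real.pi) / k := by positivity
    refine (mul_le_mul_right t2 _).trans (le_of_eq ?_)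
    rw [H.JJ_eq, H.JT_eq, ← ENNReal.ofReal_mul hLk, ← ENNReal.ofReal_add hJ0 (by positivity),
      ← ENNReal.ofReal_mul hpi, ← ENNReal.ofReal_mul hsc, ← ENNReal.ofReal_mul (sq_nonneg k)]
    congr 1
    field_simp
  have h3n : 0 ≤ ∫ z, φ z * (V z * (u z * Real.log (cut a b (u z) / a))) := by
    refine integral_nonneg fun z => ?_
    show 0 ≤ φ z * (V z * (u z * Real.log (cut a b (u z) / a)))
    by_cases hz : z ∈ Metric.ball x₀ h
    · rcases le_total (u z) a with h1 | h1
      · have : cut a b (u z) = a := by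
          unfold cut
          exact max_eq_left ((min_le_right _ _).trans h1)
        rw [this, div_self ha.ne', Real.log_one]
        simp
      · exact mul_nonneg (H.φ0 z) (mul_nonneg (H.V0 z (H.sub hz))
          (mul_nonneg (ha.le.trans h1) (Real.log_nonneg ((one_le_div ha).2 cut_ge))))
    · rw [H.φz hz, zero_mul]
  have hP2n : 0 ≤ k * ((2 + 2 / Real.pi) * (α - Real.sin α * Real.cos α)) *
        ((∫ z, φ z * bgr u a b z) +
        L * α / k * ∫ z in Metric.closedBall x₀ (2 * h), gn u z) := by
    have hJ0 : 0 ≤ ∫ z, φ z * bgr u a b z := integral_nonneg fun z =>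
      mul_nonneg (H.φ0 z) (bgr_nonneg _ _ _ _)
    have hT0 : 0 ≤ ∫ z in Metric.closedBall x₀ (2 * h), gn u z :=
      integral_nonneg fun z => gn_nonneg _ _
    have hLk : 0 ≤ L * α / k := div_nonneg (mul_nonneg H.L0 H.α0.le) hk.le
    have hsc : 0 ≤ α - Real.sin α * Real.cos α := by
      have h1 : Real.sin α ≤ α := Real.sin_le H.α0.le
      have h2 : 0 ≤ Real.cos α := Real.cos_nonneg_of_mem_Icc ⟨by linarith [H.α0, Real.pi_pos], H.α1⟩
      have h3 : Real.cos α ≤ 1 := Real.cos_le_one α
      nlinarith [H.α0]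
    positivity
  have fin := step.trans (add_le_add_left (add_le_add_left hP2' _) _)
  rw [← ENNReal.ofReal_mul (sq_nonneg _), ← ENNReal.ofReal_mul (by positivity),
    ← ENNReal.ofReal_add hP2n (mul_nonneg (sq_nonneg _) h3n),
    ← ENNReal.ofReal_add (add_nonneg hP2n (mul_nonneg (sq_nonneg _) h3n))
      (mul_nonneg (div_nonneg hR0 ha.le) (by linarith)), ENNReal.ofReal_le_ofReal_iff
      (add_nonneg (add_nonneg hP2n (mul_nonneg (sq_nonneg _) h3n))
      (mul_nonneg (div_nonneg hR0 ha.le) (by linarith)))] at fin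
  have e : R / a * (b - a) = (b - a) / a * R := by
    field_simp
  rw [e] at fin
  linarith

end

end Pool.Agent.H25.TI
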