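import Pool.Agent.H25.TI.M7c
import Pool.Graph.R_pool_sql_team_seeded_b677cdb8.E8helper19.EN.Main

/-!
# M8a: the asymptotic inequality for test functions with small support
-/

set_option autoImplicit false
open MeasureTheory Filter Topology Complex Set
open scoped ContDiff ENNReal NNReal
open Pool.Agent.Q73.NL (dx dy lap Sol)
open Pool.Agent.E8helper19.EN (Hy gsq lapl S_IBP)

namespace Pool.Agent.H25.TI

noncomputable section

variable {Ω : Set ℂ} {ρ : ℂ → ℝ} {lam : ℕ → ℝ} {u : ℕ → ℂ → ℝ} {φ : ℂ → ℝ}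

theorem gn_sq (u : ℂ → ℝ) (z : ℂ) : gn u z ^ 2 = gsq u z := by
  unfold gn gsq
  rw [Real.sq_sqrt (by positivity)]
  rfl

/-- bounds on a disc -/
theorem disc_bounds (h1 : S_IBP) (H : Hy Ω ρ lam u φ) {x₀ : ℂ} {r r' : ℝ} (hr : 0 < r)
    (hrr : r < r') (hcb : Metric.closedBall x₀ r' ⊆ Ω) :
    ∃ C : ℝ, 0 ≤ C ∧ ∀ᶠ n in atTop, 0 < lam n ∧
      ∫ z in Metric.closedBall x₀ r, gn (u n) z ≤ C * √(lam n) ∧
      ∫ z in Metric.closedBall x₀ r, |u n z| ≤ C := by
  let B : ContDiffBump x₀ := ⟨r, r', hr, hrr⟩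
  have hB : Hy Ω ρ lam u (fun z => B z) :=
    { oΩ := H.oΩ, sρ := H.sρ, pρ := H.pρ, ll := H.ll, su := H.su, eq := H.eq, bd := H.bd
      sφ := B.contDiff
      cφ := B.hasCompactSupport
      tφ := by
        rw [B.tsupport_eq]
        exact hcb
      φ0 := fun z => B.nonneg }
  obtain ⟨E, hE0, hE⟩ := hB.tot h1
  set K := Metric.closedBall x₀ r with hK
  have hKc : IsCompact K := isCompact_closedBall _ _
  have hKΩ : K ⊆ Ω := (Metric.closedBall_subset_closedBall hrr.le).trans hcb
  obtain ⟨C, hC⟩ := H.bd K hKc hKΩ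
  set A : ℝ := ∫ _ in K, (1 : ℝ) with hA
  have hA0 : 0 ≤ A := integral_nonneg fun _ => zero_le_one
  have i1 : IntegrableOn (fun _ : ℂ => (1 : ℝ)) K := continuousOn_const.integrableOn_compact hKc
  refine ⟨A + E + max C 0, by positivity, ?_⟩
  filter_upwards [hE, hC] with n hn hn2
  obtain ⟨hl, ig, hEn⟩ := hn
  have cu : ContinuousOn (u n) K := (H.su n).continuousOn.mono hKΩ
  have cg : ContinuousOn (gn (u n)) K := (gn_cont H.oΩ (H.su n)).mono hKΩ
  have iu : IntegrableOn (fun z => |u n z|) K := (cu.abs).integrableOn_compact hKc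
  have iu2 : IntegrableOn (fun z => u n z ^ 2) K := (cu.pow 2).integrableOn_compact hKc
  have ign : IntegrableOn (gn (u n)) K := cg.integrableOn_compact hKc
  have ign2 : IntegrableOn (fun z => gn (u n) z ^ 2) K := (cg.pow 2).integrableOn_compact hKc
  refine ⟨hl, ?_, ?_⟩
  · set s := √(lam n) with hs
    have hs0 : 0 < s := Real.sqrt_pos.2 hl
    have hss : s ^ 2 = lam n := Real.sq_sqrt hl.le
    have e1 : ∫ z in K, gn (u n) z ^ 2 ≤ E * s ^ 2 := by
      have e2 : ∫ z in K, gn (u n) z ^ 2 ≤ ∫ z, B z * gsq (u n) z := by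
        rw [← integral_indicator measurableSet_closedBall]
        refine integral_mono (ign2.integrable_indicator measurableSet_closedBall) ig fun z => ?_
        by_cases hz : z ∈ K
        · simp only
          rw [indicator_of_mem hz, B.one_of_mem_closedBall hz, gn_sq, one_mul]
        · simp only
          rw [indicator_of_notMem hz]
          exact mul_nonneg B.nonneg (by unfold gsq; positivity)
      have e3 : ∫ z, B z * gsq (u n) z ≤ E * lam n := by
        rw [inv_mul_le_iff₀ hl] at hEn
        linarith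
      rw [hss]
      exact e2.trans e3
    have e4 : ∀ z ∈ K, gn (u n) z ≤ s * 1 + s⁻¹ * gn (u n) z ^ 2 := by
      intro z _
      have h5 : 0 ≤ (s - gn (u n) z) ^ 2 := sq_nonneg _
      have h6 : 0 ≤ gn (u n) z := gn_nonneg _ _
      have h7 : s * (s * 1 + s⁻¹ * gn (u n) z ^ 2) = s ^ 2 + gn (u n) z ^ 2 := by
        field_simp
      have h8 : s * gn (u n) z ≤ s * (s * 1 + s⁻¹ * gn (u n) z ^ 2) := by
        rw [h7]
        nlinarith
      exact le_of_mul_le_mul_left h8 hs0
    have i5 : IntegrableOn (fun z => s * 1 + s⁻¹ * gn (u n) z ^ 2) K :=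
      Integrable.add (f := fun _ => s * 1) (g := fun z => s⁻¹ * gn (u n) z ^ 2)
        (i1.const_mul s) (ign2.const_mul s⁻¹)
    calc ∫ z in K, gn (u n) z ≤ ∫ z in K, (s * 1 + s⁻¹ * gn (u n) z ^ 2) :=
          setIntegral_mono_on ign i5 measurableSet_closedBall e4
      _ = s * A + s⁻¹ * ∫ z in K, gn (u n) z ^ 2 := by
          rw [integral_add (i1.const_mul s) (ign2.const_mul s⁻¹), integral_const_mul,
            integral_const_mul]
      _ ≤ s * A + s⁻¹ * (E * s ^ 2) := by
          have := mul_le_mul_of_nonneg_left e1 (inv_pos.2 hs0).le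
          linarith
      _ = (A + E) * s := by
          field_simp
      _ ≤ (A + E + max C 0) * s := by
          have : 0 ≤ max C 0 * s := by positivity
          nlinarith
  · calc ∫ z in K, |u n z| ≤ ∫ z in K, (1 + u n z ^ 2) := by
          refine setIntegral_mono_on iu (i1.add iu2) measurableSet_closedBall fun z _ => ?_
          have h5 : 0 ≤ (1 - |u n z|) ^ 2 := sq_nonneg _
          have h6 := sq_abs (u n z)
          nlinarith [abs_nonneg (u n z)]
      _ = A + ∫ z in K, u n z ^ 2 := integral_add i1 iu2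
      _ ≤ A + E + max C 0 := by linarith [hn2, le_max_left C 0]

/-- test functions are Lipschitz -/
theorem test_lip {φ : ℂ → ℝ} (hφ : ContDiff ℝ ∞ φ) (hc : HasCompactSupport φ) :
    ∃ L : ℝ, 0 ≤ L ∧ (∀ z w, |φ z - φ w| ≤ L * ‖z - w‖) ∧ (∀ z, |dx φ z| ≤ L) ∧
      (∀ z, |dy φ z| ≤ L) ∧ ∀ z, |lap φ z| ≤ L := by
  obtain ⟨K, hK⟩ := ContDiff.lipschitzWith_of_hasCompactSupport (𝕂 := ℝ) hc hφ (by simp)
  have hcl : Continuous (lap φ) := Pool.Agent.E8helper19.EN.lapl_cont hφ
  have hlc : HasCompactSupport (lap φ) := by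
    refine HasCompactSupport.intro hc fun z hz => ?_
    exact Pool.Agent.E8helper19.EN.lapl_zero hz
  obtain ⟨M, hM⟩ := hcl.bounded_above_of_compact_support hlc
  have hd : ∀ z, ‖fderiv ℝ φ z‖ ≤ K := fun z => norm_fderiv_le_of_lipschitz ℝ hK
  refine ⟨max K (max M 0), by positivity, ?_, ?_, ?_, ?_⟩
  · intro z w
    have := hK.dist_le_mul z w
    rw [Real.dist_eq, dist_eq_norm] at this
    exact this.trans (mul_le_mul_of_nonneg_right (le_max_left _ _) (norm_nonneg _))
  · intro z
    have := (fderiv ℝ φ z).le_opNorm 1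
    rw [norm_one, mul_one, Real.norm_eq_abs] at this
    exact this.trans ((hd z).trans (le_max_left _ _))
  · intro z
    have := (fderiv ℝ φ z).le_opNorm I
    rw [Complex.norm_I, mul_one, Real.norm_eq_abs] at this
    exact this.trans ((hd z).trans (le_max_left _ _))
  · intro z
    have := hM z
    rw [Real.norm_eq_abs] at this
    exact this.trans ((le_max_left _ _).trans (le_max_right _ _))

/-- the constant of the averages -/
def k0 (α : ℝ) : ℝ := (2 + 2 / Real.pi) * (α - Real.sin α * Real.cos α)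

/-- **The asymptotic inequality, small supports.** -/
theorem m8a (h1 : S_IBP) (h2 : M2) (h5 : M5) (h6 : M6) (H : Hy Ω ρ lam u φ) {x₀ : ℂ} {h c ε : ℝ}
    (hh : 0 < h) (hcb : Metric.closedBall x₀ (3 * h) ⊆ Ω) (htφ : tsupport φ ⊆ Metric.ball x₀ h)
    (hc : 0 < c) (hε : 0 < ε) (hε1 : ε < 1)
    (hρ : ∀ z ∈ Metric.closedBall x₀ (2 * h), c ≤ ρ z ∧ ρ z ≤ (1 + ε) * c) {a b α : ℝ}
    (ha : 0 < a) (hab : a < b) (hα : 0 < α) (hα' : α ≤ Real.pi / 2) {δ : ℝ} (hδ : 0 < δ) :
    ∀ᶠ n in atTop, (1 + ε)⁻¹ * (∫ z, φ z * (ρ z * (cut a b (u n z) - a))) ≤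
      Real.cos α ^ 2 * (∫ z, φ z * (ρ z * (u n z * Real.log (cut a b (u n z) / a)))) +
      k0 α * ((√(lam n))⁻¹ * ∫ z, φ z * (√(ρ z) * bgr (u n) a b z)) + δ := by
  obtain ⟨L, hL0, hL, hL1, hL2, hL3⟩ := test_lip H.sφ H.cφ
  obtain ⟨C, hC0, hC⟩ := disc_bounds h1 H (x₀ := x₀) (r := 2 * h) (r' := 3 * h) (by linarith)
    (by linarith) hcb
  have hsub2 : Metric.ball x₀ h ⊆ Metric.closedBall x₀ (2 * h) :=
    (Metric.ball_subset_ball (by linarith)).trans Metric.ball_subset_closedBall
  have hcb2 : Metric.closedBall x₀ (2 * h) ⊆ Ω :=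
    (Metric.closedBall_subset_closedBall (by linarith)).trans hcb
  -- the error
  set W : ℝ := k0 α * (L * α) * C + (b - a) / a * (2 * L * C + L * C) with hW
  have hk00 : 0 ≤ k0 α := by
    have h1 : Real.sin α ≤ α := Real.sin_le hα.le
    have h2 : 0 ≤ Real.cos α := Real.cos_nonneg_of_mem_Icc ⟨by linarith [Real.pi_pos], hα'⟩
    have h3 : Real.cos α ≤ 1 := Real.cos_le_one α
    unfold k0
    refine mul_nonneg (by positivity) ?_
    nlinarith
  have hW0 : 0 ≤ W := by
    have : 0 ≤ (b - a) / a := div_nonneg (by linarith) ha.le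
    positivity
  have lim : Tendsto (fun n => √(lam n)) atTop atTop := Real.tendsto_sqrt_atTop.comp H.ll
  filter_upwards [hC, lim.eventually_ge_atTop (max 1 (max (W / δ) (Real.pi / (2 * √c * h))))]
    with n hn hn2
  obtain ⟨hl, hg, hu⟩ := hn
  set s := √(lam n) with hs
  have hs0 : 0 < s := Real.sqrt_pos.2 hl
  have hss : s ^ 2 = lam n := Real.sq_sqrt hl.le
  have hs1 : 1 ≤ s := (le_max_left _ _).trans hn2
  have hs2 : W / δ ≤ s := (le_max_left _ _).trans ((le_max_right _ _).trans hn2)
  have hs3 : Real.pi / (2 * √c * h) ≤ s := (le_max_right _ _).trans ((le_max_right _ _).trans hn2)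
  have hcs : 0 < √c := Real.sqrt_pos.2 hc
  have hcss : √c ^ 2 = c := Real.sq_sqrt hc.le
  set k := s * √c with hk
  have hk0 : 0 < k := mul_pos hs0 hcs
  have hkk : k ^ 2 = lam n * c := by
    rw [hk, mul_pow, hss, hcss]
  have P : Pc Ω (fun z => lam n * ρ z) (u n) φ x₀ h k (lam n * ((1 + ε) * c)) L a b α :=
    { open₀ := H.oΩ
      sol := ⟨H.su n, fun z hz => by
        have := H.eq n z hz
        have e : lapl (u n) z = lap (u n) z := rfl
        rw [e] at this
        linarith⟩
      sV := contDiffOn_const.mul H.sρ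
      cb := hcb2
      hk := hk0
      kh := by
        rw [div_le_iff₀ (by positivity)] at hs3 ⊢
        rw [hk]
        linarith
      bV := fun z hz => by
        rw [hkk]
        exact ⟨mul_le_mul_of_nonneg_left (hρ z hz).1 hl.le,
          mul_le_mul_of_nonneg_left (hρ z hz).2 hl.le⟩
      hM := by
        rw [hkk]
        have : 0 < lam n * c := mul_pos hl hc
        nlinarith
      sφ := H.sφ
      cφ := H.cφ
      tφ := htφ
      φ0 := H.φ0
      L0 := hL0
      lip := hL
      a0 := ha
      ab := hab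
      α0 := hα
      α1 := hα' }
  have main := P.main h2 h5 h6
  -- integrability
  have cu : ContinuousOn (u n) Ω := (H.su n).continuousOn
  have cρ : ContinuousOn ρ Ω := H.sρ.continuousOn
  have i1 := P.int (G := fun z => cut a b (u n z) - a)
    (((cut_cont a b).comp_continuousOn cu).sub continuousOn_const)
  have i2 := P.int (G := fun z => ρ z * (cut a b (u n z) - a))
    (cρ.mul (((cut_cont a b).comp_continuousOn cu).sub continuousOn_const))
  have i3 := P.int_bgr
  have φz : ∀ z, z ∉ Metric.ball x₀ h → φ z = 0 := fun z hz => P.φz hz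
  -- left side
  have q1 : (1 + ε)⁻¹ * (∫ z, φ z * (ρ z * (cut a b (u n z) - a))) ≤
      c * ∫ z, φ z * (cut a b (u n z) - a) := by
    rw [← integral_const_mul, ← integral_const_mul]
    refine integral_mono (i2.const_mul _) (i1.const_mul _) fun z => ?_
    simp only
    by_cases hz : z ∈ Metric.ball x₀ h
    · have h3 := (hρ z (hsub2 hz)).2
      have h4 : 0 ≤ φ z * (cut a b (u n z) - a) :=
        mul_nonneg (H.φ0 z) (by linarith [cut_ge (a := a) (b := b) (t := u n z)])
      rw [inv_mul_le_iff₀ (by linarith)]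
      calc φ z * (ρ z * (cut a b (u n z) - a)) = ρ z * (φ z * (cut a b (u n z) - a)) := by ring
        _ ≤ (1 + ε) * c * (φ z * (cut a b (u n z) - a)) := mul_le_mul_of_nonneg_right h3 h4
        _ = _ := by ring
    · rw [φz z hz]
      simp
  -- right side, gradient
  have i4 : Integrable (fun z => φ z * (√(ρ z) * bgr (u n) a b z)) := by
    have h3 := i3.mul_bdd (c := √((1 + ε) * c)) (g := fun z => (Metric.ball x₀ h).indicator
      (fun z => √(ρ z)) z) ?_ ?_
    · refine h3.congr (Eventually.of_forall fun z => ?_)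
      by_cases hz : z ∈ Metric.ball x₀ h
      · simp only
        rw [indicator_of_mem hz]
        ring
      · simp only
        rw [φz z hz]
        simp
    · have h4 : ContinuousOn (fun z => √(ρ z)) (Metric.ball x₀ h) :=
        (cρ.mono (hsub2.trans hcb2)).sqrt
      exact (aestronglyMeasurable_indicator_iff measurableSet_ball).2
        (h4.aestronglyMeasurable measurableSet_ball)
    · refine Eventually.of_forall fun z => ?_
      by_cases hz : z ∈ Metric.ball x₀ h
      · rw [indicator_of_mem hz, Real.norm_eq_abs, abs_of_nonneg (Real.sqrt_nonneg _)]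
        exact Real.sqrt_le_sqrt (hρ z (hsub2 hz)).2
      · rw [indicator_of_notMem hz]
        simp
  have q2 : √c * (∫ z, φ z * bgr (u n) a b z) ≤ ∫ z, φ z * (√(ρ z) * bgr (u n) a b z) := by
    rw [← integral_const_mul]
    refine integral_mono (i3.const_mul _) i4 fun z => ?_
    simp only
    by_cases hz : z ∈ Metric.ball x₀ h
    · have h3 := Real.sqrt_le_sqrt (hρ z (hsub2 hz)).1
      have h4 : 0 ≤ φ z * bgr (u n) a b z := mul_nonneg (H.φ0 z) (bgr_nonneg _ _ _ _)
      calc √c * (φ z * bgr (u n) a b z) ≤ √(ρ z) * (φ z * bgr (u n) a b z) :=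
            mul_le_mul_of_nonneg_right h3 h4
        _ = _ := by ring
    · rw [φz z hz]
      simp
  -- remainders
  have r1 : ∫ z, (|dx φ z| * |dx (u n) z| + |dy φ z| * |dy (u n) z|) ≤ 2 * L * (C * s) := by
    have cg : ContinuousOn (gn (u n)) (Metric.closedBall x₀ (2 * h)) :=
      (gn_cont H.oΩ (H.su n)).mono hcb2
    have ig : IntegrableOn (fun z => gn (u n) z) (Metric.closedBall x₀ (2 * h)) :=
      cg.integrableOn_compact (isCompact_closedBall _ _)
    have h3 : ∀ z, |dx φ z| * |dx (u n) z| + |dy φ z| * |dy (u n) z| ≤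
        (Metric.closedBall x₀ (2 * h)).indicator (fun z => 2 * L * gn (u n) z) z := by
      intro z
      by_cases hz : z ∈ Metric.ball x₀ h
      · rw [indicator_of_mem (hsub2 hz)]
        have e1 : |dx (u n) z| ≤ gn (u n) z := by
          unfold gn
          rw [← Real.sqrt_sq_eq_abs]
          exact Real.sqrt_le_sqrt (by linarith [sq_nonneg (dy (u n) z)])
        have e2 : |dy (u n) z| ≤ gn (u n) z := by
          unfold gn
          rw [← Real.sqrt_sq_eq_abs]
          exact Real.sqrt_le_sqrt (by linarith [sq_nonneg (dx (u n) z)])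
        have e3 := mul_le_mul (hL1 z) e1 (abs_nonneg _) hL0
        have e4 := mul_le_mul (hL2 z) e2 (abs_nonneg _) hL0
        linarith
      · have e0 : fderiv ℝ φ z = 0 := fderiv_of_notMem_tsupport (𝕜 := ℝ) fun h' => hz (htφ h')
        have e1 : dx φ z = 0 := by
          unfold dx
          rw [e0]
          rfl
        have e2 : dy φ z = 0 := by
          unfold dy
          rw [e0]
          rfl
        rw [e1, e2]
        simp only [abs_zero, zero_mul, add_zero]
        exact indicator_nonneg (fun z _ => by have := gn_nonneg (u n) z; positivity) z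
    have h4 : ∫ z, (|dx φ z| * |dx (u n) z| + |dy φ z| * |dy (u n) z|) ≤
        ∫ z, (Metric.closedBall x₀ (2 * h)).indicator (fun z => 2 * L * gn (u n) z) z := by
      refine integral_mono_of_nonneg (Eventually.of_forall fun z => by positivity)
        (IntegrableOn.integrable_indicator (ig.const_mul (2 * L)) measurableSet_closedBall)
        (Eventually.of_forall h3)
    refine h4.trans ?_
    rw [integral_indicator measurableSet_closedBall, integral_const_mul]
    exact mul_le_mul_of_nonneg_left hg (by positivity)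
  have r2 : ∫ z, |lap φ z| * |u n z| ≤ L * C := by
    have iu : IntegrableOn (fun z => |u n z|) (Metric.closedBall x₀ (2 * h)) :=
      ((cu.mono hcb2).abs).integrableOn_compact (isCompact_closedBall _ _)
    have h3 : ∀ z, |lap φ z| * |u n z| ≤
        (Metric.closedBall x₀ (2 * h)).indicator (fun z => L * |u n z|) z := by
      intro z
      by_cases hz : z ∈ Metric.ball x₀ h
      · rw [indicator_of_mem (hsub2 hz)]
        exact mul_le_mul_of_nonneg_right (hL3 z) (abs_nonneg _)
      · have e1 : lap φ z = 0 :=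
          Pool.Agent.E8helper19.EN.lapl_zero fun h' => hz (htφ h')
        rw [e1]
        simp only [abs_zero, zero_mul]
        exact indicator_nonneg (fun z _ => by positivity) z
    have h4 : ∫ z, |lap φ z| * |u n z| ≤
        ∫ z, (Metric.closedBall x₀ (2 * h)).indicator (fun z => L * |u n z|) z := by
      refine integral_mono_of_nonneg (Eventually.of_forall fun z => by positivity)
        (IntegrableOn.integrable_indicator (iu.const_mul L) measurableSet_closedBall)
        (Eventually.of_forall h3)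
    refine h4.trans ?_
    rw [integral_indicator measurableSet_closedBall, integral_const_mul]
    exact mul_le_mul_of_nonneg_left hu hL0
  -- assemble, divided by `lam n`
  have e1 : ∫ z, φ z * (lam n * ρ z * (u n z * Real.log (cut a b (u n z) / a))) =
      lam n * ∫ z, φ z * (ρ z * (u n z * Real.log (cut a b (u n z) / a))) := by
    rw [← integral_const_mul]
    congr 1
    ext z
    ring
  rw [e1, hkk] at main
  set I1 := ∫ z, φ z * (cut a b (u n z) - a) with hI1
  set I2 := ∫ z, φ z * (ρ z * (u n z * Real.log (cut a b (u n z) / a))) with hI2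
  set I3 := ∫ z, φ z * bgr (u n) a b z with hI3
  set I4 := ∫ z, φ z * (√(ρ z) * bgr (u n) a b z) with hI4
  set G := ∫ z in Metric.closedBall x₀ (2 * h), gn (u n) z with hG
  set R1 := ∫ z, (|dx φ z| * |dx (u n) z| + |dy φ z| * |dy (u n) z|) with hR1
  set R2 := ∫ z, |lap φ z| * |u n z| with hR2
  have hba : 0 ≤ (b - a) / a := div_nonneg (by linarith) ha.le
  -- multiply everything by `lam n`
  have goal1 : lam n * (c * I1) ≤ lam n * (Real.cos α ^ 2 * I2 + k0 α * (s⁻¹ * I4) + δ) := by
    have f1 : k * ((2 + 2 / Real.pi) * (α - Real.sin α * Real.cos α)) * (I3 + L * α / k * G) =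
        k0 α * (s * (√c * I3)) + k0 α * (L * α) * G := by
      unfold k0
      rw [hk]
      field_simp
    have f2 : k0 α * (s * (√c * I3)) ≤ k0 α * (s * I4) :=
      mul_le_mul_of_nonneg_left (mul_le_mul_of_nonneg_left q2 hs0.le) hk00
    have f3 : k0 α * (L * α) * G ≤ k0 α * (L * α) * (C * s) :=
      mul_le_mul_of_nonneg_left hg (by positivity)
    have f4 : (b - a) / a * (R1 + R2) ≤ (b - a) / a * (2 * L * (C * s) + L * (C * s)) := by
      refine mul_le_mul_of_nonneg_left ?_ hba
      have : L * C ≤ L * (C * s) := mul_le_mul_of_nonneg_left (by nlinarith) hL0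
      linarith
    have f5 : W * s ≤ lam n * δ := by
      rw [← hss]
      rw [div_le_iff₀ hδ] at hs2
      nlinarith
    have f6 : W * s = k0 α * (L * α) * (C * s) + (b - a) / a * (2 * L * (C * s) + L * (C * s)) := by
      rw [hW]
      ring
    have f7 : lam n * (k0 α * (s⁻¹ * I4)) = k0 α * (s * I4) := by
      rw [← hss]
      field_simp
    rw [f1] at main
    have f8 : lam n * (Real.cos α ^ 2 * I2 + k0 α * (s⁻¹ * I4) + δ) =
        Real.cos α ^ 2 * (lam n * I2) + lam n * (k0 α * (s⁻¹ * I4)) + lam n * δ := by ring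
    rw [f8, f7]
    linarith
  exact q1.trans (le_of_mul_le_mul_left goal1 hl)

end

end Pool.Agent.H25.TI
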