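import Pool.Agent.H25.TI.M8a
import Mathlib.Geometry.Manifold.PartitionOfUnity

/-!
# M8b: the asymptotic inequality for all test functions (partition of unity)
-/

set_option autoImplicit false
open MeasureTheory Filter Topology Complex Set
open scoped ContDiff ENNReal NNReal Manifold
open Pool.Agent.E8helper19.EN (Hy gsq lapl S_IBP)

namespace Pool.Agent.H25.TI

noncomputable section

variable {Ω : Set ℂ} {ρ : ℂ → ℝ} {lam : ℕ → ℝ} {u : ℕ → ℂ → ℝ} {φ : ℂ → ℝ}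

/-- small discs on which `ρ` is almost constant -/
theorem small_disc (hΩ : IsOpen Ω) (cρ : ContinuousOn ρ Ω) (pρ : ∀ z ∈ Ω, 0 < ρ z) {ε : ℝ}
    (hε : 0 < ε) (x : ℂ) : ∃ h c : ℝ, x ∈ Ω → 0 < h ∧ 0 < c ∧ Metric.closedBall x (3 * h) ⊆ Ω ∧
      ∀ z ∈ Metric.closedBall x (2 * h), c ≤ ρ z ∧ ρ z ≤ (1 + ε) * c := by
  by_cases hx : x ∈ Ω
  swap
  · exact ⟨0, 0, fun h => absurd h hx⟩
  have q1 : 1 < √(1 + ε) := by
    rw [Real.lt_sqrt (by norm_num)]
    linarith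
  have q2 : √(1 + ε) * √(1 + ε) = 1 + ε := Real.mul_self_sqrt (by linarith)
  have q0 : 0 < √(1 + ε) := by linarith
  have hp := pρ x hx
  have c1 : ρ x / √(1 + ε) < ρ x := div_lt_self hp q1
  have c2 : ρ x < (1 + ε) * (ρ x / √(1 + ε)) := by
    have : √(1 + ε) * √(1 + ε) * (ρ x / √(1 + ε)) = √(1 + ε) * ρ x := by
      field_simp
    rw [q2] at this
    rw [this]
    nlinarith
  have hat : ContinuousAt ρ x := cρ.continuousAt (hΩ.mem_nhds hx)
  have ev : ∀ᶠ z in 𝓝 x, z ∈ Ω ∧ ρ x / √(1 + ε) < ρ z ∧ ρ z < (1 + ε) * (ρ x / √(1 + ε)) :=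
    Filter.Eventually.and (hΩ.mem_nhds hx)
      ((hat.eventually (lt_mem_nhds c1)).and (hat.eventually (gt_mem_nhds c2)))
  obtain ⟨r, hr, hb⟩ := Metric.eventually_nhds_iff_ball.1 ev
  refine ⟨r / 4, ρ x / √(1 + ε), fun _ => ⟨by linarith, div_pos hp q0, ?_, ?_⟩⟩
  · exact fun z hz => (hb z ((Metric.closedBall_subset_ball (by linarith)) hz)).1
  · intro z hz
    have := hb z ((Metric.closedBall_subset_ball (by linarith)) hz)
    exact ⟨this.2.1.le, this.2.2.le⟩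

/-- a smooth splitting of a test function -/
theorem parts (hΩ : IsOpen Ω) (cρ : ContinuousOn ρ Ω) (pρ : ∀ z ∈ Ω, 0 < ρ z)
    (hφ : ContDiff ℝ ∞ φ) (hc : HasCompactSupport φ) (ht : tsupport φ ⊆ Ω) (φ0 : ∀ z, 0 ≤ φ z)
    {ε : ℝ} (hε : 0 < ε) : ∃ (t : Finset ℂ) (ψ : t → ℂ → ℝ) (h c : ℂ → ℝ),
      (∀ z, ∑ i, ψ i z = φ z) ∧ ∀ i : t, ContDiff ℝ ∞ (ψ i) ∧ HasCompactSupport (ψ i) ∧
        (∀ z, 0 ≤ ψ i z) ∧ tsupport (ψ i) ⊆ Metric.ball (i : ℂ) (h i) ∧ 0 < h i ∧ 0 < c i ∧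
        Metric.closedBall (i : ℂ) (3 * h i) ⊆ Ω ∧
        ∀ z ∈ Metric.closedBall (i : ℂ) (2 * h i), c i ≤ ρ z ∧ ρ z ≤ (1 + ε) * c i := by
  choose h c hh using small_disc hΩ cρ pρ hε
  obtain ⟨t, ht1, ht2⟩ := hc.isCompact.elim_nhds_subcover (fun x => Metric.ball x (h x))
    (fun x hx => Metric.ball_mem_nhds x (hh x (ht hx)).1)
  obtain ⟨f, hf⟩ := SmoothPartitionOfUnity.exists_isSubordinate (ι := t) 𝓘(ℝ, ℂ)
    (isClosed_tsupport φ) (fun x : t => Metric.ball (x : ℂ) (h x)) (fun _ => Metric.isOpen_ball)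
    (fun z hz => by
      obtain ⟨x, hx, hz⟩ := mem_iUnion₂.1 (ht2 hz)
      exact mem_iUnion.2 ⟨⟨x, hx⟩, hz⟩)
  refine ⟨t, fun i z => f i z * φ z, h, c, ?_, fun i => ?_⟩
  · intro z
    rw [← Finset.sum_mul]
    by_cases hz : z ∈ tsupport φ
    · have := f.sum_eq_one hz
      rw [finsum_eq_sum_of_fintype] at this
      rw [this, one_mul]
    · rw [image_eq_zero_of_notMem_tsupport hz, mul_zero]
  · obtain ⟨a1, a2, a3, a4⟩ := hh i (ht (ht1 i i.2))
    have sf : ContDiff ℝ ∞ (fun z => f i z) := (f i).contMDiff.contDiff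
    refine ⟨sf.mul hφ, hc.mul_left, fun z => mul_nonneg (f.nonneg i z) (φ0 z), ?_, a1, a2, a3, a4⟩
    exact (tsupport_mul_subset_left (f := fun z => f i z) (g := φ)).trans (hf i)

theorem Hy_iG (H : Hy Ω ρ lam u φ) {G : ℂ → ℝ} (hG : ContinuousOn G Ω) :
    Integrable (fun z => φ z * G z) := by
  have h2 : Function.support (fun z => φ z * G z) ⊆ tsupport φ := by
    intro z hz
    by_contra h
    exact hz (by
      show φ z * G z = 0
      rw [image_eq_zero_of_notMem_tsupport h, zero_mul])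
  exact (integrableOn_iff_integrable_of_support_subset h2).1
    ((H.sφ.continuous.continuousOn.mul (hG.mono H.tφ)).integrableOn_compact H.cφ)

theorem Hy_ibg (H : Hy Ω ρ lam u φ) (n : ℕ) (a b : ℝ) :
    Integrable (fun z => φ z * (√(ρ z) * bgr (u n) a b z)) := by
  have h1 := Hy_iG H (H.sρ.continuousOn.sqrt.mul (gn_cont H.oΩ (H.su n)))
  have hm : MeasurableSet {z | z ∈ Ω ∧ (a < u n z ∧ u n z < b)} := by
    have h2 := ((H.su n).continuousOn.isOpen_inter_preimage H.oΩ (isOpen_Ioo (a := a) (b := b)))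
    exact h2.measurableSet
  refine (h1.indicator hm).congr (Eventually.of_forall fun z => ?_)
  by_cases hz : z ∈ Ω
  · by_cases hb : a < u n z ∧ u n z < b
    · rw [indicator_of_mem (show z ∈ {z | z ∈ Ω ∧ (a < u n z ∧ u n z < b)} from ⟨hz, hb⟩)]
      simp only [bgr, if_pos hb, Pi.mul_apply]
    · rw [indicator_of_notMem (show z ∉ {z | z ∈ Ω ∧ (a < u n z ∧ u n z < b)} from
        fun h => hb h.2)]
      simp only [bgr, if_neg hb, mul_zero]
  · have h0 : φ z = 0 := image_eq_zero_of_notMem_tsupport fun h => hz (H.tφ h)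
    simp [Set.indicator, h0]

theorem log_cont {a b : ℝ} (ha : 0 < a) : Continuous (fun t => Real.log (cut a b t / a)) :=
  ((cut_cont a b).div_const a).log fun _ =>
    (div_pos (lt_of_lt_of_le ha cut_ge) ha).ne'

/-- **The asymptotic inequality.** -/
theorem m8b (h1 : S_IBP) (h2 : M2) (h5 : M5) (h6 : M6) (H : Hy Ω ρ lam u φ) {ε : ℝ}
    (hε : 0 < ε) (hε1 : ε < 1) {a b α : ℝ}
    (ha : 0 < a) (hab : a < b) (hα : 0 < α) (hα' : α ≤ Real.pi / 2) {δ : ℝ} (hδ : 0 < δ) :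
    ∀ᶠ n in atTop, (1 + ε)⁻¹ * (∫ z, φ z * (ρ z * (cut a b (u n z) - a))) ≤
      Real.cos α ^ 2 * (∫ z, φ z * (ρ z * (u n z * Real.log (cut a b (u n z) / a)))) +
      k0 α * ((√(lam n))⁻¹ * ∫ z, φ z * (√(ρ z) * bgr (u n) a b z)) + δ := by
  obtain ⟨t, ψ, h, c, hsum, hψ⟩ := parts H.oΩ H.sρ.continuousOn H.pρ H.sφ H.cφ H.tφ H.φ0 hε
  have Hi : ∀ i : t, Hy Ω ρ lam u (ψ i) := fun i =>
    { oΩ := H.oΩ, sρ := H.sρ, pρ := H.pρ, ll := H.ll, su := H.su, eq := H.eq, bd := H.bd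
      sφ := (hψ i).1
      cφ := (hψ i).2.1
      tφ := (hψ i).2.2.2.1.trans ((Metric.ball_subset_closedBall).trans
        ((Metric.closedBall_subset_closedBall (by linarith [(hψ i).2.2.2.2.1])).trans
          (hψ i).2.2.2.2.2.2.1))
      φ0 := (hψ i).2.2.1 }
  set N : ℝ := ((Fintype.card t : ℕ) : ℝ) with hN
  have hN0 : 0 ≤ N := by positivity
  have hδ' : 0 < δ / (N + 1) := by positivity
  have ev : ∀ i : t, _ := fun i => m8a h1 h2 h5 h6 (Hi i) (x₀ := (i : ℂ)) (h := h i) (c := c i)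
    (ε := ε) (hψ i).2.2.2.2.1 (hψ i).2.2.2.2.2.2.1 (hψ i).2.2.2.1 (hψ i).2.2.2.2.2.1 hε hε1
    (hψ i).2.2.2.2.2.2.2 (a := a) (b := b) (α := α) ha hab hα hα' hδ'
  filter_upwards [eventually_all.2 ev] with n hn
  have cu : ContinuousOn (u n) Ω := (H.su n).continuousOn
  have cρ : ContinuousOn ρ Ω := H.sρ.continuousOn
  have g1 : ContinuousOn (fun z => ρ z * (cut a b (u n z) - a)) Ω :=
    cρ.mul (((cut_cont a b).comp_continuousOn cu).sub continuousOn_const)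
  have g2 : ContinuousOn (fun z => ρ z * (u n z * Real.log (cut a b (u n z) / a))) Ω :=
    cρ.mul (cu.mul ((log_cont ha).comp_continuousOn cu))
  have split : ∀ G : ℂ → ℝ, (∀ i : t, Integrable (fun z => ψ i z * G z)) →
      ∫ z, φ z * G z = ∑ i : t, ∫ z, ψ i z * G z := by
    intro G hG
    rw [← integral_finsetSum _ fun i _ => hG i]
    refine integral_congr_ae (Eventually.of_forall fun z => ?_)
    simp only
    rw [← Finset.sum_mul, hsum]
  rw [split _ fun i => Hy_iG (Hi i) g1, split _ fun i => Hy_iG (Hi i) g2,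
    split _ fun i => Hy_ibg (Hi i) n a b]
  have key := Finset.sum_le_sum (s := Finset.univ) fun i (_ : i ∈ Finset.univ) => hn i
  rw [← Finset.mul_sum, Finset.sum_add_distrib, Finset.sum_add_distrib, ← Finset.mul_sum,
    ← Finset.mul_sum, ← Finset.mul_sum, Finset.sum_const, Finset.card_univ, nsmul_eq_mul] at key
  have hd : N * (δ / (N + 1)) ≤ δ := by
    rw [← mul_div_assoc, div_le_iff₀ (by positivity)]
    nlinarith
  rw [← hN] at key
  linarith

end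

end Pool.Agent.H25.TI
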