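import Pool.Agent.H25.TI.M8b
import Pool.Agent.H25.TI.M10
import Pool.Graph.R_pool_sql_team_seeded_b677cdb8.E8helper19.EN.Fam

/-!
# M9: the inequality for the limit law
-/

set_option autoImplicit false
open MeasureTheory Filter Topology Complex Set
open scoped ContDiff ENNReal NNReal
open Pool.Agent.E8helper19.EN (Hy gsq lapl S_IBP S_VAG S_FUB HH VV EE En)

namespace Pool.Agent.H25.TI

noncomputable section

/-! ## families of charts -/

section family

variable {ι : Type} [Fintype ι] {Ω : ι → Set ℂ} {ρ φ : ι → ℂ → ℝ} {lam : ℕ → ℝ}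
  {u : ι → ℕ → ℂ → ℝ}

/-- the length of the gradient in the band -/
def TT (ρ φ : ι → ℂ → ℝ) (lam : ℕ → ℝ) (u : ι → ℕ → ℂ → ℝ) (a b : ℝ) (n : ℕ) : ℝ :=
  (√(lam n))⁻¹ * ∑ i, ∫ z, φ i z * (√(ρ i z) * bgr (u i n) a b z)

theorem k0_nonneg {α : ℝ} (hα : 0 < α) (hα' : α ≤ Real.pi / 2) : 0 ≤ k0 α := by
  have h1 : Real.sin α ≤ α := Real.sin_le hα.le
  have h2 : 0 ≤ Real.cos α := Real.cos_nonneg_of_mem_Icc ⟨by linarith [Real.pi_pos], hα'⟩
  have h3 : Real.cos α ≤ 1 := Real.cos_le_one α
  unfold k0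
  refine mul_nonneg (by positivity) ?_
  nlinarith

theorem fam_ineq (h1 : S_IBP) (h2 : M2) (h5 : M5) (h6 : M6)
    (H : ∀ i, Hy (Ω i) (ρ i) lam (u i) (φ i)) {ε : ℝ} (hε : 0 < ε) (hε1 : ε < 1) {a b α : ℝ}
    (ha : 0 < a) (hab : a < b) (hα : 0 < α) (hα' : α ≤ Real.pi / 2) {δ : ℝ} (hδ : 0 < δ) :
    ∀ᶠ n in atTop, (1 + ε)⁻¹ * VV ρ φ u n (fun x => cut a b x - a) ≤
      Real.cos α ^ 2 * VV ρ φ u n (fun x => x * Real.log (cut a b x / a)) +
      k0 α * TT ρ φ lam u a b n + δ := by
  set N : ℝ := ((Fintype.card ι : ℕ) : ℝ) with hN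
  have hN0 : 0 ≤ N := by positivity
  have hδ' : 0 < δ / (N + 1) := by positivity
  have ev : ∀ i : ι, _ := fun i => m8b h1 h2 h5 h6 (H i) hε hε1 ha hab hα hα' hδ'
  filter_upwards [eventually_all.2 ev] with n hn
  have key := Finset.sum_le_sum (s := Finset.univ) fun i (_ : i ∈ Finset.univ) => hn i
  rw [← Finset.mul_sum, Finset.sum_add_distrib, Finset.sum_add_distrib, ← Finset.mul_sum,
    ← Finset.mul_sum, ← Finset.mul_sum, Finset.sum_const, Finset.card_univ, nsmul_eq_mul,
    ← hN] at key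
  have hd : N * (δ / (N + 1)) ≤ δ := by
    rw [← mul_div_assoc, div_le_iff₀ (by positivity)]
    nlinarith
  have e1 : VV ρ φ u n (fun x => cut a b x - a) =
      ∑ i, ∫ z, φ i z * (ρ i z * (cut a b (u i n z) - a)) := by
    unfold VV
    refine Finset.sum_congr rfl fun i _ => integral_congr_ae (Eventually.of_forall fun z => ?_)
    simp only
    ring
  have e2 : VV ρ φ u n (fun x => x * Real.log (cut a b x / a)) =
      ∑ i, ∫ z, φ i z * (ρ i z * (u i n z * Real.log (cut a b (u i n z) / a))) := by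
    unfold VV
    refine Finset.sum_congr rfl fun i _ => integral_congr_ae (Eventually.of_forall fun z => ?_)
    simp only
    ring
  rw [e1, e2]
  unfold TT
  linarith

theorem TT_le (H : ∀ i, Hy (Ω i) (ρ i) lam (u i) (φ i)) {a b : ℝ} {g : ℝ → ℝ}
    (hg : Continuous g) (g0 : ∀ x, 0 ≤ g x) (g1 : ∀ x, a < x → x < b → 1 ≤ g x) {τ : ℝ}
    (hτ : 0 < τ) {n : ℕ} (hl : 0 < lam n) :
    TT ρ φ lam u a b n ≤ τ / 2 * VV ρ φ u n g + (2 * τ)⁻¹ * EE φ lam u n g := by
  unfold TT VV EE En
  rw [Finset.mul_sum, Finset.mul_sum, Finset.mul_sum, ← Finset.sum_add_distrib]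
  refine Finset.sum_le_sum fun i _ => ?_
  set s := √(lam n) with hs
  have hs0 : 0 < s := Real.sqrt_pos.2 hl
  have hss : s ^ 2 = lam n := Real.sq_sqrt hl.le
  have cu : ContinuousOn (u i n) (Ω i) := ((H i).su n).continuousOn
  have cρ : ContinuousOn (ρ i) (Ω i) := (H i).sρ.continuousOn
  have cg : ContinuousOn (gsq (u i n)) (Ω i) := by
    have := (gn_cont (H i).oΩ ((H i).su n)).pow 2
    exact this.congr fun z _ => (gn_sq _ _).symm
  have i1 := Hy_ibg (H i) n a b
  have i2 : Integrable (fun z => φ i z * (g (u i n z) * ρ i z)) :=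
    Hy_iG (H i) ((hg.comp_continuousOn cu).mul cρ)
  have i3 : Integrable (fun z => φ i z * (g (u i n z) * gsq (u i n) z)) :=
    Hy_iG (H i) ((hg.comp_continuousOn cu).mul cg)
  have e : τ / 2 * (∫ z, φ i z * (g (u i n z) * ρ i z)) +
      (2 * τ)⁻¹ * ((lam n)⁻¹ * ∫ z, φ i z * (g (u i n z) * gsq (u i n) z)) =
      ∫ z, (τ / 2 * (φ i z * (g (u i n z) * ρ i z)) +
        (2 * τ)⁻¹ * ((lam n)⁻¹ * (φ i z * (g (u i n z) * gsq (u i n) z)))) := by
    rw [integral_add (i2.const_mul _) ((i3.const_mul _).const_mul _), integral_const_mul,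
      integral_const_mul, integral_const_mul]
  rw [e, ← integral_const_mul]
  refine integral_mono (i1.const_mul _) ((i2.const_mul _).add ((i3.const_mul _).const_mul _))
    fun z => ?_
  simp only
  by_cases hz : z ∈ Ω i
  swap
  · have h0 : φ i z = 0 := image_eq_zero_of_notMem_tsupport fun h => hz ((H i).tφ h)
    rw [h0]
    simp
  have hρ := (H i).pρ z hz
  have hφ := (H i).φ0 z
  have hgs : 0 ≤ gsq (u i n) z := by
    unfold gsq
    positivity
  by_cases hb : a < u i n z ∧ u i n z < b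
  · have hb' : bgr (u i n) a b z = gn (u i n) z := by
      unfold bgr
      rw [if_pos hb]
    rw [hb', ← gn_sq, ← hss]
    set r := √(ρ i z) with hr
    have hrr : r ^ 2 = ρ i z := Real.sq_sqrt hρ.le
    have hr0 : 0 ≤ r := Real.sqrt_nonneg _
    rw [← hrr]
    set y := gn (u i n) z with hy
    have hy0 : 0 ≤ y := gn_nonneg _ _
    have hg1 := g1 _ hb.1 hb.2
    have am : s⁻¹ * (r * y) ≤ τ / 2 * r ^ 2 + (2 * τ)⁻¹ * ((s ^ 2)⁻¹ * y ^ 2) := by
      have h4 : 0 ≤ (τ * r - s⁻¹ * y) ^ 2 := sq_nonneg _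
      have h5 : τ / 2 * r ^ 2 + (2 * τ)⁻¹ * ((s ^ 2)⁻¹ * y ^ 2) - s⁻¹ * (r * y) =
          (2 * τ)⁻¹ * (τ * r - s⁻¹ * y) ^ 2 := by
        field_simp
        ring
      have h6 : 0 ≤ (2 * τ)⁻¹ * (τ * r - s⁻¹ * y) ^ 2 := by positivity
      linarith
    have h7 : 0 ≤ τ / 2 * r ^ 2 + (2 * τ)⁻¹ * ((s ^ 2)⁻¹ * y ^ 2) := by positivity
    calc s⁻¹ * (φ i z * (r * y)) = φ i z * (s⁻¹ * (r * y)) := by ring
      _ ≤ φ i z * (1 * (τ / 2 * r ^ 2 + (2 * τ)⁻¹ * ((s ^ 2)⁻¹ * y ^ 2))) := by
          rw [one_mul]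
          exact mul_le_mul_of_nonneg_left am hφ
      _ ≤ φ i z * (g (u i n z) * (τ / 2 * r ^ 2 + (2 * τ)⁻¹ * ((s ^ 2)⁻¹ * y ^ 2))) :=
          mul_le_mul_of_nonneg_left (mul_le_mul_of_nonneg_right hg1 h7) hφ
      _ = _ := by ring
  · have hb' : bgr (u i n) a b z = 0 := by
      unfold bgr
      rw [if_neg hb]
    rw [hb', mul_zero, mul_zero, mul_zero]
    have := g0 (u i n z)
    positivity

end family

/-! ## passage to the limit -/

section limit

variable {ι : Type} [Fintype ι] {Ω : ι → Set ℂ} {ρ φ : ι → ℂ → ℝ} {lam : ℕ → ℝ}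
  {u : ι → ℕ → ℂ → ℝ}

theorem cut_leb {a b t : ℝ} (hab : a ≤ b) : cut a b t ≤ b := max_le hab (min_le_left _ _)

theorem cut_bd {a b : ℝ} (hab : a < b) (x : ℝ) : |cut a b x - a| ≤ (b - a) * (1 + |x|) := by
  have h1 : a ≤ cut a b x := cut_ge
  have h2 := cut_leb (t := x) hab.le
  rw [abs_of_nonneg (by linarith)]
  nlinarith [abs_nonneg x]

theorem log_bd {a b : ℝ} (ha : 0 < a) (hab : a < b) (x : ℝ) :
    |x * Real.log (cut a b x / a)| ≤ Real.log (b / a) * (1 + |x|) := by
  have h1 : a ≤ cut a b x := cut_ge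
  have h2 := cut_leb (t := x) hab.le
  have h3 : 0 ≤ Real.log (cut a b x / a) := Real.log_nonneg ((one_le_div ha).2 h1)
  have h4 : Real.log (cut a b x / a) ≤ Real.log (b / a) :=
    Real.log_le_log (div_pos (ha.trans_le h1) ha) ((div_le_div_iff_of_pos_right ha).2 h2)
  rw [abs_mul, abs_of_nonneg h3]
  nlinarith [abs_nonneg x]

theorem lim_ineq [Nonempty ι] (h1 : S_IBP) (hv : S_VAG) (hf : S_FUB) (h2 : M2) (h5 : M5)
    (h6 : M6) (H : ∀ i, Hy (Ω i) (ρ i) lam (u i) (φ i)) {ν : Measure ℝ} (hν : IsFiniteMeasure ν)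
    (hlim : ∀ g : ℝ → ℝ, Continuous g → HasCompactSupport g →
      Tendsto (fun n => VV ρ φ u n g) atTop (𝓝 (∫ x, g x ∂ν))) {a b α : ℝ}
    (ha : 0 < a) (hab : a < b) (hα : 0 < α) (hα' : α ≤ Real.pi / 2) {g : ℝ → ℝ}
    (hg : Continuous g) (hgc : HasCompactSupport g) (g0 : ∀ x, 0 ≤ g x)
    (g1 : ∀ x, a < x → x < b → 1 ≤ g x) {τ : ℝ} (hτ : 0 < τ) :
    ∫ x, (cut a b x - a) ∂ν ≤ Real.cos α ^ 2 * (∫ x, x * Real.log (cut a b x / a) ∂ν) +
      k0 α * (τ / 2 * (∫ x, g x ∂ν) + (2 * τ)⁻¹ * ∫ t, g t * HH ν t) := by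
  obtain ⟨-, -, -, m4, m5⟩ := Pool.Agent.E8helper19.EN.fam_main h1 hv hf H hν hlim
  have Hll : Tendsto lam atTop atTop := (H (Classical.arbitrary ι)).ll
  have l1 := m4 (fun x => cut a b x - a) ((cut_cont a b).sub continuous_const)
    ⟨b - a, cut_bd hab⟩
  have l2 := m4 (fun x => x * Real.log (cut a b x / a)) (continuous_id.mul (log_cont ha))
    ⟨Real.log (b / a), log_bd ha hab⟩
  have l3 := m4 g hg (by
    obtain ⟨C, hC⟩ := hg.bounded_above_of_compact_support hgc
    refine ⟨C, fun x => ?_⟩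
    have h := hC x
    rw [Real.norm_eq_abs] at h
    have h0 : 0 ≤ C := (abs_nonneg _).trans h
    nlinarith [abs_nonneg x])
  have l4 := m5 g hg hgc
  set A := ∫ x, (cut a b x - a) ∂ν with hA
  set B := ∫ x, x * Real.log (cut a b x / a) ∂ν with hB
  set P := ∫ x, g x ∂ν with hP
  set Q := ∫ t, g t * HH ν t with hQ
  have hA0 : 0 ≤ A := integral_nonneg fun x => sub_nonneg.2 cut_ge
  set R := Real.cos α ^ 2 * B + k0 α * (τ / 2 * P + (2 * τ)⁻¹ * Q) with hR
  have st1 : ∀ ε δ : ℝ, 0 < ε → ε < 1 → 0 < δ → (1 + ε)⁻¹ * A ≤ R + δ := by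
    intro ε δ hε hε1 hδ
    refine le_of_tendsto_of_tendsto (l1.const_mul _)
      (((l2.const_mul (Real.cos α ^ 2)).add (((l3.const_mul (τ / 2)).add
        (l4.const_mul (2 * τ)⁻¹)).const_mul (k0 α))).add_const δ) ?_
    filter_upwards [fam_ineq h1 h2 h5 h6 H hε hε1 ha hab hα hα' hδ,
      Hll.eventually_gt_atTop 0] with n hn hl
    have h7 := TT_le H (a := a) (b := b) hg g0 g1 hτ hl
    have h8 := mul_le_mul_of_nonneg_left h7 (k0_nonneg hα hα')
    linarith
  have st2 : ∀ ε : ℝ, 0 < ε → ε < 1 → (1 + ε)⁻¹ * A ≤ R := fun ε hε hε1 =>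
    le_of_forall_pos_le_add fun δ hδ => st1 ε δ hε hε1 hδ
  refine le_of_forall_pos_le_add fun η hη => ?_
  set ε := min (1 / 2) (η / (A + 1)) with hε
  have e0 : 0 < ε := lt_min (by norm_num) (by positivity)
  have e1 : ε < 1 := lt_of_le_of_lt (min_le_left _ _) (by norm_num)
  have e2 : ε * A ≤ η := by
    have h7 : ε * (A + 1) ≤ η := by
      have := min_le_right (1 / 2) (η / (A + 1))
      rw [← hε, le_div_iff₀ (by positivity)] at this
      exact this
    nlinarith
  have h8 := st2 ε e0 e1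
  rw [inv_mul_le_iff₀ (by linarith)] at h8
  have h9 : (1 + ε)⁻¹ * A ≤ R := st2 ε e0 e1
  have h10 : A - ε * A ≤ (1 + ε)⁻¹ * A := by
    have h11 : 1 - ε ≤ (1 + ε)⁻¹ := by
      rw [le_inv_comm₀ (by linarith) (by linarith)]
      rw [← one_div, le_div_iff₀ (by linarith)]
      nlinarith
    nlinarith
  linarith

/-- cut-off functions -/
def gj (a b : ℝ) (j : ℕ) (x : ℝ) : ℝ :=
  max 0 (1 - ((j : ℝ) + 1) * (2 / a + 1) * (max (a - x) 0 + max (x - b) 0))

variable {a b : ℝ}

theorem gj_cont (j : ℕ) : Continuous (gj a b j) := by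
  unfold gj
  fun_prop

theorem gj_nonneg (j : ℕ) (x : ℝ) : 0 ≤ gj a b j x := le_max_left _ _

theorem gj_le (ha : 0 < a) (j : ℕ) (x : ℝ) : gj a b j x ≤ 1 := by
  have h1 : 0 ≤ max (a - x) 0 := le_max_right _ _
  have h2 : 0 ≤ max (x - b) 0 := le_max_right _ _
  have h3 : 0 ≤ ((j : ℝ) + 1) * (2 / a + 1) * (max (a - x) 0 + max (x - b) 0) := by positivity
  exact max_le zero_le_one (by linarith)

theorem gj_one (j : ℕ) {x : ℝ} (hx : x ∈ Icc a b) : gj a b j x = 1 := by
  unfold gj
  rw [max_eq_right (sub_nonpos.2 hx.1), max_eq_right (sub_nonpos.2 hx.2)]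
  simp

theorem gj_zero (ha : 0 < a) (j : ℕ) {x : ℝ} (hx : x ∉ Icc (a / 2) (b + 1)) :
    gj a b j x = 0 := by
  unfold gj
  refine max_eq_left ?_
  have h1 : 0 ≤ max (a - x) 0 := le_max_right _ _
  have h2 : 0 ≤ max (x - b) 0 := le_max_right _ _
  have hj : (1 : ℝ) ≤ (j : ℝ) + 1 := by
    have : (0 : ℝ) ≤ j := Nat.cast_nonneg j
    linarith
  have h3 : 1 ≤ (2 / a + 1) * (max (a - x) 0 + max (x - b) 0) := by
    have h2a : 0 < 2 / a := by positivity
    rw [mem_Icc, not_and_or, not_le, not_le] at hx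
    rcases hx with hx | hx
    · have h4 : a / 2 ≤ max (a - x) 0 := le_trans (by linarith) (le_max_left _ _)
      have h5 : 2 / a * (a / 2) = 1 := by field_simp
      have h6 : 2 / a * (a / 2) ≤ 2 / a * (max (a - x) 0 + max (x - b) 0) :=
        mul_le_mul_of_nonneg_left (by linarith) h2a.le
      nlinarith
    · have h4 : 1 ≤ max (x - b) 0 := le_trans (by linarith) (le_max_left _ _)
      nlinarith
  nlinarith

theorem gj_supp (ha : 0 < a) (j : ℕ) : HasCompactSupport (gj a b j) :=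
  HasCompactSupport.intro isCompact_Icc fun _ hx => gj_zero ha j hx

theorem gj_lim (ha : 0 < a) (x : ℝ) :
    Tendsto (fun j => gj a b j x) atTop (𝓝 ((Icc a b).indicator (fun _ => 1) x)) := by
  by_cases hx : x ∈ Icc a b
  · rw [indicator_of_mem hx]
    exact tendsto_const_nhds.congr fun j => (gj_one j hx).symm
  · rw [indicator_of_notMem hx]
    set d := (2 / a + 1) * (max (a - x) 0 + max (x - b) 0) with hd
    have hd0 : 0 < d := by
      have h1 : 0 ≤ max (a - x) 0 := le_max_right _ _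
      have h2 : 0 ≤ max (x - b) 0 := le_max_right _ _
      have h3 : 0 < max (a - x) 0 + max (x - b) 0 := by
        rw [mem_Icc, not_and_or, not_le, not_le] at hx
        rcases hx with hx | hx
        · have h4 : a - x ≤ max (a - x) 0 := le_max_left _ _
          linarith
        · have h4 : x - b ≤ max (x - b) 0 := le_max_left _ _
          linarith
      positivity
    have ev : ∀ᶠ j : ℕ in atTop, gj a b j x = 0 := by
      obtain ⟨N, hN⟩ := exists_nat_gt (1 / d)
      filter_upwards [eventually_ge_atTop N] with j hj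
      unfold gj
      refine max_eq_left ?_
      have h5 : (N : ℝ) ≤ j := Nat.cast_le.2 hj
      have h6 : 1 < (N : ℝ) * d := by
        rwa [div_lt_iff₀ hd0] at hN
      have h7 : (N : ℝ) * d ≤ ((j : ℝ) + 1) * d :=
        mul_le_mul_of_nonneg_right (by linarith) hd0.le
      have h8 : ((j : ℝ) + 1) * (2 / a + 1) * (max (a - x) 0 + max (x - b) 0) =
          ((j : ℝ) + 1) * d := by
        rw [hd]
        ring
      rw [h8]
      linarith
    exact tendsto_const_nhds.congr' (ev.mono fun j hj => hj.symm)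

theorem gj_lim1 (ha : 0 < a) {ν : Measure ℝ} (hν : IsFiniteMeasure ν) :
    Tendsto (fun j => ∫ x, gj a b j x ∂ν) atTop (𝓝 (ν.real (Icc a b))) := by
  have h := tendsto_integral_of_dominated_convergence (μ := ν) (fun _ => (1 : ℝ))
    (F := fun j x => gj a b j x) (f := fun x => (Icc a b).indicator (fun _ => 1) x)
    (fun j => (gj_cont j).aestronglyMeasurable) (integrable_const 1)
    (fun j => Eventually.of_forall fun x => by
      rw [Real.norm_eq_abs, abs_of_nonneg (gj_nonneg j x)]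
      exact gj_le ha j x)
    (Eventually.of_forall fun x => gj_lim ha x)
  rw [integral_indicator measurableSet_Icc, setIntegral_const, smul_eq_mul, mul_one] at h
  exact h

theorem gj_lim2 (ha : 0 < a) (hab : a < b) {ν : Measure ℝ} (hν : IsFiniteMeasure ν)
    (ix : Integrable (fun x => x) ν) :
    Tendsto (fun j => ∫ x, gj a b j x * HH ν x) atTop (𝓝 (∫ s in a..b, HH ν s)) := by
  have hi : IntegrableOn (HH ν) (Icc (a / 2) (b + 1)) := by
    rw [integrableOn_Icc_iff_integrableOn_Ioc,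
      ← intervalIntegrable_iff_integrableOn_Ioc_of_le (by linarith)]
    exact M10aux.HH_int ix (by linarith) (by linarith)
  have h := tendsto_integral_of_dominated_convergence (μ := (volume : Measure ℝ))
    (fun x => (Icc (a / 2) (b + 1)).indicator (HH ν) x)
    (F := fun j x => gj a b j x * HH ν x)
    (f := fun x => (Icc a b).indicator (fun _ => 1) x * HH ν x)
    (fun j => by
      have h1 : (fun x => gj a b j x * HH ν x) =
          fun x => gj a b j x * (Icc (a / 2) (b + 1)).indicator (HH ν) x := by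
        ext x
        by_cases hx : x ∈ Icc (a / 2) (b + 1)
        · rw [indicator_of_mem hx]
        · rw [gj_zero ha j hx, zero_mul, zero_mul]
      rw [h1]
      exact (gj_cont j).aestronglyMeasurable.mul
        (hi.integrable_indicator measurableSet_Icc).aestronglyMeasurable)
    (hi.integrable_indicator measurableSet_Icc)
    (fun j => Eventually.of_forall fun x => by
      by_cases hx : x ∈ Icc (a / 2) (b + 1)
      · have h0 : 0 ≤ HH ν x := M10aux.HH_nonneg ix (by linarith [hx.1])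
        rw [indicator_of_mem hx, Real.norm_eq_abs, abs_mul, abs_of_nonneg (gj_nonneg j x),
          abs_of_nonneg h0]
        have := gj_le (b := b) ha j x
        nlinarith
      · rw [indicator_of_notMem hx, gj_zero ha j hx, zero_mul, norm_zero])
    (Eventually.of_forall fun x => (gj_lim ha x).mul_const _)
  have e : ∫ x, (Icc a b).indicator (fun _ => 1) x * HH ν x = ∫ s in a..b, HH ν s := by
    rw [intervalIntegral.integral_of_le hab.le, ← integral_Icc_eq_integral_Ioc,
      ← integral_indicator measurableSet_Icc]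
    refine integral_congr_ae (Eventually.of_forall fun x => ?_)
    by_cases hx : x ∈ Icc a b
    · simp only [indicator_of_mem hx, one_mul]
    · simp only [indicator_of_notMem hx, zero_mul]
  rw [e] at h
  exact h

/-- the geometric mean -/
theorem gm_le {X k p q : ℝ} (hk : 0 ≤ k) (hp : 0 ≤ p) (hq : 0 ≤ q)
    (h : ∀ τ : ℝ, 0 < τ → X ≤ k * (τ / 2 * p + (2 * τ)⁻¹ * q)) : X ≤ k * √(p * q) := by
  have h1 : ∀ η : ℝ, 0 < η → X ≤ k * √((p + η) * (q + η)) := by
    intro η hη
    have hpη : 0 < p + η := by linarith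
    have hqη : 0 < q + η := by linarith
    set τ := √((q + η) / (p + η)) with hτ
    have hτ0 : 0 < τ := Real.sqrt_pos.2 (by positivity)
    have hττ : τ ^ 2 = (q + η) / (p + η) := Real.sq_sqrt (by positivity)
    have h2 : τ / 2 * (p + η) + (2 * τ)⁻¹ * (q + η) = τ * (p + η) := by
      have h3 : q + η = τ ^ 2 * (p + η) := by
        rw [hττ]
        field_simp
      rw [h3]
      field_simp
      ring
    have h4 : √((p + η) * (q + η)) = τ * (p + η) := by
      rw [Real.sqrt_eq_iff_mul_self_eq_of_pos (by positivity)]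
      have h3 : q + η = τ ^ 2 * (p + η) := by
        rw [hττ]
        field_simp
      rw [h3]
      ring
    rw [h4, ← h2]
    refine (h τ hτ0).trans (mul_le_mul_of_nonneg_left ?_ hk)
    have h5 : 0 ≤ τ / 2 * η := by positivity
    have h6 : 0 ≤ (2 * τ)⁻¹ * η := by positivity
    nlinarith
  have lim : Tendsto (fun η : ℝ => k * √((p + η) * (q + η))) (𝓝[>] 0) (𝓝 (k * √(p * q))) := by
    have hc : Continuous (fun η : ℝ => k * √((p + η) * (q + η))) := by fun_prop
    have := (hc.tendsto 0).mono_left (nhdsWithin_le_nhds (s := Ioi 0))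
    simpa using this
  refine ge_of_tendsto lim ?_
  filter_upwards [self_mem_nhdsWithin] with η hη
  exact h1 η hη

/-! ## Fubini -/

theorem fub1 {ν : Measure ℝ} (hν : IsFiniteMeasure ν) (hab : a < b) :
    ∫ x, (cut a b x - a) ∂ν = ∫ s in a..b, ν.real (Ioi s) := by
  have k1 : ∀ x, cut a b x - a = ∫ s in Ioo a b, (Iio x).indicator (fun _ => (1 : ℝ)) s := by
    intro x
    rw [integral_indicator measurableSet_Iio, Measure.restrict_restrict measurableSet_Iio,
      setIntegral_const, smul_eq_mul, mul_one, measureReal_def, inter_comm, len_levels,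
      ENNReal.toReal_ofReal (sub_nonneg.2 cut_ge)]
  have k2 : ∀ s, ν.real (Ioi s) = ∫ x, (Iio x).indicator (fun _ => (1 : ℝ)) s ∂ν := by
    intro s
    have e : (fun x => (Iio x).indicator (fun _ => (1 : ℝ)) s) =
        (Ioi s).indicator (fun _ => (1 : ℝ)) := by
      ext x
      by_cases hx : s < x
      · rw [indicator_of_mem (show s ∈ Iio x from hx), indicator_of_mem (show x ∈ Ioi s from hx)]
      · rw [indicator_of_notMem (show s ∉ Iio x from hx),
          indicator_of_notMem (show x ∉ Ioi s from hx)]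
    rw [e, integral_indicator measurableSet_Ioi, setIntegral_const, smul_eq_mul, mul_one]
  simp_rw [k1, k2]
  rw [intervalIntegral.integral_of_le hab.le, integral_Ioc_eq_integral_Ioo]
  refine integral_integral_swap (f := fun x s => (Iio x).indicator (fun _ => (1 : ℝ)) s) ?_
  have hm : MeasurableSet {p : ℝ × ℝ | p.2 < p.1} :=
    measurableSet_lt measurable_snd measurable_fst
  have e : Function.uncurry (fun x s => (Iio x).indicator (fun _ => (1 : ℝ)) s) =
      {p : ℝ × ℝ | p.2 < p.1}.indicator fun _ => 1 := by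
    ext ⟨x, s⟩
    by_cases hx : s < x
    · rw [indicator_of_mem (show (x, s) ∈ {p : ℝ × ℝ | p.2 < p.1} from hx)]
      exact indicator_of_mem (s := Iio x) (show s ∈ Iio x from hx) (fun _ => (1 : ℝ))
    · rw [indicator_of_notMem (show (x, s) ∉ {p : ℝ × ℝ | p.2 < p.1} from hx)]
      exact indicator_of_notMem (s := Iio x) (show s ∉ Iio x from hx) (fun _ => (1 : ℝ))
  rw [e]
  exact (integrable_const 1).indicator hm

theorem fub2 {ν : Measure ℝ} (hν : IsFiniteMeasure ν) (ix : Integrable (fun x => x) ν)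
    (ha : 0 < a) (hab : a < b) :
    ∫ x, x * Real.log (cut a b x / a) ∂ν = ∫ s in a..b, HH ν s / s := by
  have k1 : ∀ x, x * Real.log (cut a b x / a) =
      ∫ s in Ioo a b, (Iio x).indicator (fun s => x * (1 / s)) s := by
    intro x
    have h1 := log_levels (b := b) ha x
    have h2 : ∫ s in Ioo a b, (Iio x).indicator (fun s => 1 / s) s =
        Real.log (cut a b x / a) := by
      rw [integral_eq_lintegral_of_nonneg_ae, ← ENNReal.toReal_ofReal
        (Real.log_nonneg ((one_le_div ha).2 (cut_ge (b := b) (t := x)))), ← h1]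
      · congr 1
        refine lintegral_congr fun s => ?_
        by_cases hs : s ∈ Iio x
        · simp only [indicator_of_mem hs]
        · simp only [indicator_of_notMem hs, ENNReal.ofReal_zero]
      · refine (ae_restrict_mem measurableSet_Ioo).mono fun s hs => ?_
        show (0 : ℝ) ≤ (Iio x).indicator (fun s => 1 / s) s
        by_cases h3 : s ∈ Iio x
        · rw [indicator_of_mem h3]
          exact one_div_nonneg.2 (ha.le.trans hs.1.le)
        · rw [indicator_of_notMem h3]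
      · refine AEStronglyMeasurable.indicator ?_ measurableSet_Iio
        exact (by fun_prop : Measurable (fun s : ℝ => 1 / s)).aestronglyMeasurable
    rw [← h2, ← integral_const_mul]
    refine integral_congr_ae (Eventually.of_forall fun s => ?_)
    by_cases hs : s ∈ Iio x
    · simp only [indicator_of_mem hs]
    · simp only [indicator_of_notMem hs, mul_zero]
  have k2 : ∀ s, HH ν s / s = ∫ x, (Iio x).indicator (fun s => x * (1 / s)) s ∂ν := by
    intro s
    have e : (fun x => (Iio x).indicator (fun s => x * (1 / s)) s) =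
        (Ioi s).indicator (fun x => x * (1 / s)) := by
      ext x
      by_cases hx : s < x
      · rw [indicator_of_mem (show s ∈ Iio x from hx), indicator_of_mem (show x ∈ Ioi s from hx)]
      · rw [indicator_of_notMem (show s ∉ Iio x from hx),
          indicator_of_notMem (show x ∉ Ioi s from hx)]
    rw [e, integral_indicator measurableSet_Ioi, integral_mul_const]
    unfold HH
    ring
  simp_rw [k1, k2]
  rw [intervalIntegral.integral_of_le hab.le, integral_Ioc_eq_integral_Ioo]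
  refine integral_integral_swap (f := fun x s => (Iio x).indicator (fun s => x * (1 / s)) s) ?_
  have hm : MeasurableSet {p : ℝ × ℝ | p.2 < p.1} :=
    measurableSet_lt measurable_snd measurable_fst
  have e : Function.uncurry (fun x s => (Iio x).indicator (fun s => x * (1 / s)) s) =
      {p : ℝ × ℝ | p.2 < p.1}.indicator fun p => p.1 * (1 / p.2) := by
    ext ⟨x, s⟩
    by_cases hx : s < x
    · rw [indicator_of_mem (show (x, s) ∈ {p : ℝ × ℝ | p.2 < p.1} from hx)]
      exact indicator_of_mem (s := Iio x) (show s ∈ Iio x from hx) (fun s => x * (1 / s))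
    · rw [indicator_of_notMem (show (x, s) ∉ {p : ℝ × ℝ | p.2 < p.1} from hx)]
      exact indicator_of_notMem (s := Iio x) (show s ∉ Iio x from hx) (fun s => x * (1 / s))
  rw [e]
  refine Integrable.indicator ?_ hm
  have h1 : IntegrableOn (fun s : ℝ => 1 / s) (Ioo a b) := by
    refine (ContinuousOn.integrableOn_Icc ?_).mono_set Ioo_subset_Icc_self
    exact continuousOn_const.div continuousOn_id fun x hx => (ha.trans_le hx.1).ne'
  exact Integrable.mul_prod (f := fun x : ℝ => x) (g := fun s : ℝ => 1 / s) ix h1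

/-- **the inequality (II)** -/
theorem II [Nonempty ι] (h1 : S_IBP) (hv : S_VAG) (hf : S_FUB) (h2 : M2) (h5 : M5)
    (h6 : M6) (H : ∀ i, Hy (Ω i) (ρ i) lam (u i) (φ i)) {ν : Measure ℝ} (hν : IsFiniteMeasure ν)
    (hlim : ∀ g : ℝ → ℝ, Continuous g → HasCompactSupport g →
      Tendsto (fun n => VV ρ φ u n g) atTop (𝓝 (∫ x, g x ∂ν)))
    (ix : Integrable (fun x => x) ν) {α : ℝ}
    (ha : 0 < a) (hab : a < b) (hα : 0 < α) (hα' : α ≤ Real.pi / 2) :
    ∫ s in a..b, ν.real (Ioi s) ≤ Real.cos α ^ 2 * (∫ s in a..b, HH ν s / s) +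
      (2 + 2 / Real.pi) * (α - Real.sin α * Real.cos α) *
        √(ν.real (Icc a b) * ∫ s in a..b, HH ν s) := by
  rw [← fub1 hν hab, ← fub2 hν ix ha hab]
  set A := ∫ x, (cut a b x - a) ∂ν with hA
  set B := ∫ x, x * Real.log (cut a b x / a) ∂ν with hB
  have hq : 0 ≤ ∫ s in a..b, HH ν s :=
    intervalIntegral.integral_nonneg hab.le fun s hs => M10aux.HH_nonneg ix (ha.le.trans hs.1)
  have key : A - Real.cos α ^ 2 * B ≤ k0 α * √(ν.real (Icc a b) * ∫ s in a..b, HH ν s) := by
    refine gm_le (k0_nonneg hα hα') measureReal_nonneg hq fun τ hτ => ?_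
    have lim := ((((gj_lim1 (b := b) ha hν).const_mul (τ / 2)).add
      ((gj_lim2 ha hab hν ix).const_mul (2 * τ)⁻¹)).const_mul (k0 α))
    refine ge_of_tendsto lim (Eventually.of_forall fun j => ?_)
    have := lim_ineq h1 hv hf h2 h5 h6 H hν hlim ha hab hα hα' (gj_cont (a := a) (b := b) j)
      (gj_supp ha j) (gj_nonneg j) (fun x hx hx' => (gj_one j ⟨hx.le, hx'.le⟩).ge) hτ
    linarith
  unfold k0 at key
  linarith

/-- **the tail inequality for families of charts** -/
theorem tail [Nonempty ι] (h1 : S_IBP) (hv : S_VAG) (hf : S_FUB) (h2 : M2) (h5 : M5)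
    (h6 : M6) (H : ∀ i, Hy (Ω i) (ρ i) lam (u i) (φ i)) {ν : Measure ℝ} (hν : IsFiniteMeasure ν)
    (hlim : ∀ g : ℝ → ℝ, Continuous g → HasCompactSupport g →
      Tendsto (fun n => VV ρ φ u n g) atTop (𝓝 (∫ x, g x ∂ν))) :
    Integrable (fun x => x) ν ∧ ∀ a b : ℝ, 0 ≤ a → a < b →
      (∫ s in a..b, ν.real (Ioi s)) ^ 2 ≤ 12 * (1 + 1 / Real.pi) ^ 2 *
        (ν.real (Ioo a b) * ∫ s in a..b, ∫ x, max (x - s) 0 ∂ν) := by
  obtain ⟨-, m2, -, -, -⟩ := Pool.Agent.E8helper19.EN.fam_main h1 hv hf H hν hlim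
  have ix : Integrable (fun x : ℝ => x) ν := by
    have h : Integrable (fun x : ℝ => 1 + x ^ 2) ν := (integrable_const 1).add m2
    refine h.mono' (by fun_prop) (Eventually.of_forall fun x => ?_)
    rw [Real.norm_eq_abs, abs_le]
    constructor <;> nlinarith [sq_nonneg (x - 1), sq_nonneg (x + 1)]
  refine ⟨ix, fun a b ha hab => ?_⟩
  have := m10 ν (2 + 2 / Real.pi) hν (by positivity) ix
    (fun a b α ha hab hα hα' => II h1 hv hf h2 h5 h6 H hν hlim ix ha hab hα hα') a b ha hab
  refine this.trans (le_of_eq ?_)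
  ring

end limit

end

end Pool.Agent.H25.TI
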