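import Pool.Graph.R_pool_sql_team_seeded_3997aac3.Q73.NL.Stm
import Pool.Graph.R_pool_sql_team_seeded_b677cdb8.E8helper19.EN.Stm

/-!
# Project TI: a tail inequality for limit laws of eigenfunctions (MP_a52643_an)

Exact statements of the pieces. Nothing is proved here.
`dx f z`, `dy f z`, `lap f z`, `Sol Ω V u` are those of `Q73.NL.Stm`; `HH ν t = ∫ x in Ioi t, x ∂ν`
and `lapl` (the same as `lap`) are those of `E8helper19.EN.Stm`.
-/

set_option autoImplicit false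
open MeasureTheory Filter Topology Complex Set
open scoped ContDiff ENNReal NNReal
open Pool.Agent.Q73.NL (dx dy lap Sol)
open Pool.Agent.E8helper19.EN (HH)

namespace Pool.Agent.H25.TI

noncomputable section

/-- `|∇u|` -/
def gn (u : ℂ → ℝ) (z : ℂ) : ℝ := √(dx u z ^ 2 + dy u z ^ 2)

/-- the complement in the plane of the part of `Ω` where `u > s` -/
def low (Ω : Set ℂ) (u : ℂ → ℝ) (s : ℝ) : Set ℂ := {z | z ∈ Ω → u z ≤ s}

/-- the angle `α - min (k δ) α`, `δ` the distance to `A` -/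
def ang (α k : ℝ) (A : Set ℂ) (z : ℂ) : ℝ := α - min (k * Metric.infDist z A) α

/-- the directional derivative in the band `a < u < b` -/
def bd (u : ℂ → ℝ) (a b : ℝ) (z v : ℂ) : ℝ≥0∞ :=
  if a < u z ∧ u z < b then ENNReal.ofReal |fderiv ℝ u z v| else 0

/-- the gradient in the band `a < u < b` -/
def bg (u : ℂ → ℝ) (a b : ℝ) (z : ℂ) : ℝ≥0∞ :=
  if a < u z ∧ u z < b then ENNReal.ofReal (gn u z) else 0

/-- the unit vector with the angle `θ` -/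
def cis (θ : ℝ) : ℂ := Complex.exp (θ * I)

/-- half the variation of `u` in the band on the circle with centre `x`, radius `r`, and the mean
variation in the band on the radii -/
def NN (u : ℂ → ℝ) (a b r : ℝ) (x : ℂ) : ℝ≥0∞ :=
  ENNReal.ofReal (r / 2) * (∫⁻ θ in Ioc 0 (2 * Real.pi), bd u a b (x + r * cis θ) (I * cis θ)) +
  ENNReal.ofReal (1 / (2 * Real.pi)) *
    ∫⁻ θ in Ioc 0 (2 * Real.pi), ∫⁻ t in Ioc 0 r, bd u a b (x + t * cis θ) (cis θ)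

/-- the value cut off at `a` and `b` -/
def cut (a b t : ℝ) : ℝ := max a (min b t)

/-- M1: the energy inequality with a weight `φ` for test functions `Φ` that vanish where `u < e` -/
def M1 : Prop := ∀ (Ω : Set ℂ) (V u φ Φ : ℂ → ℝ) (e : ℝ), IsOpen Ω → Sol Ω V u → 0 < e →
  ContinuousOn V Ω → ContDiff ℝ ∞ φ → HasCompactSupport φ → tsupport φ ⊆ Ω → (∀ z, 0 ≤ φ z) →
  ContDiffOn ℝ ∞ Φ Ω → (∀ z ∈ Ω, u z < e → Φ z = 0) →
  Integrable (fun z => φ z * (V z * Φ z ^ 2)) ∧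
  Integrable (fun z => φ z * (dx Φ z ^ 2 + dy Φ z ^ 2)) ∧
  Integrable (fun z => Φ z ^ 2 / u z * (dx φ z * dx u z + dy φ z * dy u z)) ∧
  ∫ z, φ z * (V z * Φ z ^ 2) ≤ (∫ z, φ z * (dx Φ z ^ 2 + dy Φ z ^ 2)) +
    ∫ z, Φ z ^ 2 / u z * (dx φ z * dx u z + dy φ z * dy u z)

/-- M2: smooth approximation of `cos (ang α k A z) - cos α` with support off `A` (a variant of
`t8` in `Q73.NL.T8`, whose proof can be copied with the profile
`s ↦ cos (α - min (k * max s 0) α) - cos α`) -/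
def M2 : Prop := ∀ (A : Set ℂ) (α k ε : ℝ), IsClosed A → A.Nonempty → Bornology.IsBounded Aᶜ →
  0 < α → α ≤ Real.pi / 2 → 0 < k → 0 < ε →
  ∃ f : ℂ → ℝ, ContDiff ℝ ∞ f ∧ HasCompactSupport f ∧ tsupport f ⊆ Aᶜ ∧
    ∀ z, 0 ≤ f z ∧ f z ≤ 1 - Real.cos α ∧ |f z - (Real.cos (ang α k A z) - Real.cos α)| ≤ ε ∧
      dx f z ^ 2 + dy f z ^ 2 ≤ k ^ 2 * Real.sin (ang α k A z) ^ 2 + ε

/-- M5: a value in a small disc, compared with the value at the centre (`S4` = `t4` of `Q73.NL.T4`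
gives that the minimum of `u` over the disc, if it is positive, is attained on the circle) -/
def M5 : Prop := ∀ (Ω : Set ℂ) (V u : ℂ → ℝ) (x y : ℂ) (r M a b : ℝ), IsOpen Ω → Sol Ω V u →
  0 < r → (∀ z ∈ Ω, 0 ≤ V z ∧ V z ≤ M) → M * r ^ 2 < Real.pi ^ 2 / 2 →
  Metric.closedBall x r ⊆ Ω → 0 ≤ a → a ≤ b → y ∈ Metric.closedBall x r →
  ENNReal.ofReal (cut a b (u x) - cut a b (u y)) ≤ NN u a b r x

/-- M6: the mean of `NN` -/
def M6 : Prop := ∀ (Ω : Set ℂ) (u φ : ℂ → ℝ) (x₀ : ℂ) (h r L a b : ℝ), IsOpen Ω →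
  ContDiffOn ℝ ∞ u Ω → 0 < r → r ≤ h → 0 ≤ L → Metric.closedBall x₀ (2 * h) ⊆ Ω → Continuous φ →
  (∀ z, 0 ≤ φ z) → (∀ z, z ∉ Metric.ball x₀ h → φ z = 0) → (∀ z w, |φ z - φ w| ≤ L * ‖z - w‖) →
  ∫⁻ x, ENNReal.ofReal (φ x) * NN u a b r x ≤ ENNReal.ofReal ((2 + 2 / Real.pi) * r) *
    ((∫⁻ z, ENNReal.ofReal (φ z) * bg u a b z) +
      ENNReal.ofReal (L * r) * ∫⁻ z in Metric.closedBall x₀ (2 * h), ENNReal.ofReal (gn u z))

/-- M10: real analysis of the limit law -/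
def M10 : Prop := ∀ (ν : Measure ℝ) (κ : ℝ), IsFiniteMeasure ν → 0 < κ →
  Integrable (fun x => x) ν →
  (∀ a b α : ℝ, 0 < a → a < b → 0 < α → α ≤ Real.pi / 2 →
    ∫ s in a..b, ν.real (Ioi s) ≤ Real.cos α ^ 2 * (∫ s in a..b, HH ν s / s) +
      κ * (α - Real.sin α * Real.cos α) * √(ν.real (Icc a b) * ∫ s in a..b, HH ν s)) →
  ∀ a b : ℝ, 0 ≤ a → a < b → (∫ s in a..b, ν.real (Ioi s)) ^ 2 ≤
    3 * κ ^ 2 * (ν.real (Ioo a b) * ∫ s in a..b, ∫ x, max (x - s) 0 ∂ν)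

end

end Pool.Agent.H25.TI
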